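import Mathlib

/-!
# Complete intersections in iterated projective bundles (generalised Bott towers): definitions
-/

set_option autoImplicit false

namespace Pool.Agent.TOW

open MvPolynomial

/-- Numerical data of an iterated bundle of projective spaces with split bundles
(a generalised Bott tower). `V` is the set of the homogeneous coordinates, the coordinate `v` lives
on the level `lev v`, and `w v` is the class of the divisor `x_v = 0` with respect to the basis of
the Picard group `ℤ ^ ι` consisting of the relative tautological bundles: the class of `x_v = 0` is
the tautological class of its level plus an arbitrary combination of the classes of lower levels.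
So the variety of level `a` is the bundle of the projective spaces of the sum of the line bundles
`w v`, `lev v = a`, over the variety of the previous level. -/
structure Tower (ι V : Type) [LinearOrder ι] where
  lev : V → ι
  w : V → ι → ℤ
  surj : Function.Surjective lev
  w_lev : ∀ v, w v (lev v) = 1
  w_gt : ∀ v a, lev v < a → w v a = 0

variable {ι V κ : Type} [LinearOrder ι]

/-- The vectors of homogeneous coordinates of the points of the tower: on each level, some
coordinate is nonzero. -/
def Pt (T : Tower ι V) : Set (V → ℂ) := {z | ∀ a, ∃ v, T.lev v = a ∧ z v ≠ 0}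

/-- The action of the torus (with coordinates in a field) on the vectors of coordinates. -/
def Tower.act [Fintype ι] (T : Tower ι V) {K : Type} [Field K] (t : ι → Kˣ) (z : V → K) : V → K :=
  fun v => ((∏ a, t a ^ T.w v a : Kˣ) : K) * z v

/-- The polynomial `f` is homogeneous of degree `δ`, i.e. it is a section of the line bundle `δ`. -/
def IsForm [Fintype V] (T : Tower ι V) (δ : ι → ℤ) (f : MvPolynomial V ℂ) : Prop :=
  ∀ m ∈ f.support, ∀ a, ∑ v, (m v : ℤ) * T.w v a = δ a

/-- The line bundle `δ` on the tower is base point free (equivalently, nef). -/
def Free [Fintype V] (T : Tower ι V) (δ : ι → ℤ) : Prop :=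
  ∀ z ∈ Pt T, ∃ g : MvPolynomial V ℂ, IsForm T δ g ∧ eval z g ≠ 0

/-- The vectors of homogeneous coordinates of the points of the variety defined by the
equations `f`. -/
def Cone (T : Tower ι V) (f : κ → MvPolynomial V ℂ) : Set (V → ℂ) :=
  {z | z ∈ Pt T ∧ ∀ j, eval z (f j) = 0}

/-- The gradients of the equations are linearly independent at all points of the variety. -/
def Smooth (T : Tower ι V) (f : κ → MvPolynomial V ℂ) : Prop :=
  ∀ z ∈ Cone T f, LinearIndependent ℂ fun j => fun v : V => eval z (pderiv v (f j))

/-- Two vectors of homogeneous coordinates define the same point. -/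
def SameOrbit [Fintype ι] (T : Tower ι V) (f : κ → MvPolynomial V ℂ) (x y : Cone T f) : Prop :=
  ∃ t : ι → ℂˣ, y.1 = T.act t x.1

/-- The variety defined by the equations `f`, with the classical topology. -/
abbrev XSpace [Fintype ι] (T : Tower ι V) (f : κ → MvPolynomial V ℂ) : Type :=
  Quot (SameOrbit T f)

/-- The equations `f` of degrees `δ` define a smooth connected Calabi-Yau complete intersection of
dimension `n` of nef hypersurfaces in the tower `T`. -/
structure IsVar [Fintype ι] [Fintype V] [Fintype κ] (T : Tower ι V) (n : ℕ) (δ : κ → ι → ℤ)
    (f : κ → MvPolynomial V ℂ) : Prop where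
  free : ∀ j, Free T (δ j)
  form : ∀ j, IsForm T (δ j) (f j)
  smooth : Smooth T f
  conn : ConnectedSpace (XSpace T f)
  canonical : ∀ a, ∑ j, δ j a = ∑ v, T.w v a
  dim : Fintype.card V = n + Fintype.card ι + Fintype.card κ

end Pool.Agent.TOW
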