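import Mathlib
import Pool.Agent.Helper85.TOW.Defs

/-!
# Internal definitions for the proof
-/

set_option autoImplicit false

namespace Pool.Agent.TOW

open MvPolynomial

/-- The basis is adapted: the nef cone is the cone of the vectors with nonnegative coordinates. -/
structure Tower.IsNorm {ι V : Type} [LinearOrder ι] (T : Tower ι V) : Prop where
  nonpos : ∀ v b, b < T.lev v → T.w v b ≤ 0
  ex : ∀ a b, b < a → ∃ v, T.lev v = a ∧ T.w v b = 0

/-- The equations on the line through `f0` and `f1`. -/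
noncomputable def lineEq {V κ : Type} (f0 f1 : κ → MvPolynomial V ℂ) (s : ℂ) (j : κ) :
    MvPolynomial V ℂ := C (1 - s) * f0 j + C s * f1 j

/-- The slice: the level set of the moment map. -/
def OnSlice {ι V : Type} [LinearOrder ι] [Fintype V] (T : Tower ι V) (z : V → ℂ) : Prop :=
  ∀ a, ∑ v, (T.w v a : ℝ) * ‖z v‖ ^ 2 = 1

/-- the unit `exp u` -/
noncomputable def expU (u : ℝ) : ℂˣ := Units.mk0 (Real.exp u : ℂ)
  (by exact_mod_cast (Real.exp_pos u).ne')

/-- Continuous maps that are inverse to each other up to the relations induce a homeomorphism of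
the quotients. -/
theorem quot_homeo2 {X Y : Type} [TopologicalSpace X] [TopologicalSpace Y] {r : X → X → Prop}
    {s : Y → Y → Prop} (F : X → Y) (G : Y → X) (hF : Continuous F) (hG : Continuous G)
    (hFr : ∀ x y, r x y → s (F x) (F y)) (hGr : ∀ x y, s x y → r (G x) (G y))
    (hGF : ∀ x, r (G (F x)) x) (hFG : ∀ y, s (F (G y)) y) :
    Nonempty (Quot r ≃ₜ Quot s) := by
  refine ⟨⟨⟨Quot.map F hFr, Quot.map G hGr, ?_, ?_⟩, ?_, ?_⟩⟩
  · rintro ⟨x⟩
    exact Quot.sound (hGF x)
  · rintro ⟨y⟩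
    exact Quot.sound (hFG y)
  · exact continuous_quot_lift _ (continuous_quot_mk.comp hF)
  · exact continuous_quot_lift _ (continuous_quot_mk.comp hG)

/-- The same for a map to the quotient. -/
theorem quot_homeo3 {X Y : Type} [TopologicalSpace X] [TopologicalSpace Y] {r : X → X → Prop}
    {s : Y → Y → Prop} (F : X → Y) (G : Y → Quot r) (hF : Continuous F) (hG : Continuous G)
    (hFr : ∀ x y, r x y → s (F x) (F y)) (hGr : ∀ x y, s x y → G x = G y)
    (hGF : ∀ x, G (F x) = Quot.mk r x) (hFG : ∀ y, Quot.map F hFr (G y) = Quot.mk s y) :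
    Nonempty (Quot r ≃ₜ Quot s) := by
  refine ⟨⟨⟨Quot.map F hFr, Quot.lift G hGr, ?_, ?_⟩, ?_, ?_⟩⟩
  · rintro ⟨x⟩
    exact hGF x
  · rintro ⟨y⟩
    exact hFG y
  · exact continuous_quot_lift _ (continuous_quot_mk.comp hF)
  · exact continuous_quot_lift _ hG

/-- The space `X` is homeomorphic to a variety with `N` coordinates. -/
def Real (n N : ℕ) (X : Type) [TopologicalSpace X] : Prop :=
  ∃ (ι V κ : Type) (_ : LinearOrder ι) (_ : Fintype ι) (_ : Fintype V) (_ : Fintype κ)
    (T : Tower ι V) (δ : κ → ι → ℤ) (f : κ → MvPolynomial V ℂ),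
    IsVar T n δ f ∧ Fintype.card V = N ∧ Nonempty (X ≃ₜ XSpace T f)

variable {ι V κ : Type} [LinearOrder ι]

/-- The basis vector `e_a` is replaced by `e_a + ∑ M b e_b`. -/
def Tower.shear (T : Tower ι V) (a : ι) (M : ι → ℤ) (hM : ∀ b, a ≤ b → M b = 0) : Tower ι V where
  lev := T.lev
  w v b := T.w v b - T.w v a * M b
  surj := T.surj
  w_lev v := by
    rcases lt_or_ge (T.lev v) a with h | h
    · rw [T.w_gt v a h, T.w_lev]; ring
    · rw [hM _ h, T.w_lev]; ring
  w_gt v b h := by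
    rcases lt_or_ge b a with h' | h'
    · rw [T.w_gt v b h, T.w_gt v a (h.trans h')]; ring
    · rw [T.w_gt v b h, hM _ h']; ring

/-- The coordinate `v` is forgotten. -/
def Tower.erase (T : Tower ι V) (v : V) (h : ∃ u, u ≠ v ∧ T.lev u = T.lev v) :
    Tower ι {u : V // u ≠ v} where
  lev u := T.lev u
  w u := T.w u
  surj a := by
    classical
    obtain ⟨u, hu⟩ := T.surj a
    by_cases huv : u = v
    · obtain ⟨u', h1, h2⟩ := h
      exact ⟨⟨u', h1⟩, by show T.lev u' = a; rw [h2, ← hu, huv]⟩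
    · exact ⟨⟨u, huv⟩, hu⟩
  w_lev u := T.w_lev u
  w_gt u := T.w_gt u

open Classical in
/-- Substitution of `g` for `x_v`. -/
noncomputable def elimPoly (v : V) (g : MvPolynomial {u : V // u ≠ v} ℂ) :
    MvPolynomial V ℂ →ₐ[ℂ] MvPolynomial {u : V // u ≠ v} ℂ :=
  aeval fun u => if h : u = v then g else X ⟨u, h⟩

/-- The level `i` is deleted. -/
def Tower.del (T : Tower ι V) (i : ι) : Tower {a : ι // a ≠ i} {v : V // T.lev v ≠ i} where
  lev v := ⟨T.lev v, v.2⟩
  w v a := T.w v a
  surj a := by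
    obtain ⟨v, hv⟩ := T.surj a
    exact ⟨⟨v, by rw [hv]; exact a.2⟩, Subtype.ext hv⟩
  w_lev v := T.w_lev v
  w_gt v a h := T.w_gt v a h

/-- Substitution of `c v` for the coordinates of level `i`. -/
noncomputable def delPoly (T : Tower ι V) (i : ι) (c : V → ℂ) :
    MvPolynomial V ℂ →ₐ[ℂ] MvPolynomial {v : V // T.lev v ≠ i} ℂ :=
  aeval fun v => if h : T.lev v ≠ i then X ⟨v, h⟩ else C (c v)

/-- The level `i` consists of two coordinates `x`, `y` and nothing is twisted over it; exactly the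
two equations `j1`, `j2` have degree `1` on this level. -/
structure RAHyp (T : Tower ι V) (δ : κ → ι → ℤ) (i : ι) (x y : V) (j1 j2 : κ) : Prop where
  hxy : x ≠ y
  hx : T.lev x = i
  hy : T.lev y = i
  only : ∀ v, T.lev v = i → v = x ∨ v = y
  pure : ∀ v, T.lev v ≠ i → T.w v i = 0
  hj : j1 ≠ j2
  d1 : δ j1 i = 1
  d2 : δ j2 i = 1
  d0 : ∀ j, j ≠ j1 → j ≠ j2 → δ j i = 0

open Classical in
/-- The equations after the contraction of the level `i`: the equations `j1`, `j2`, which are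
`x A + y B` and `x C + y D`, are replaced by `A D - B C`. -/
noncomputable def raEq (T : Tower ι V) (i : ι) (x y : V) (j1 j2 : κ)
    (f : κ → MvPolynomial V ℂ) (j : {j : κ // j ≠ j2}) : MvPolynomial {v : V // T.lev v ≠ i} ℂ :=
  if j.1 = j1 then
    delPoly T i 0 (pderiv x (f j1) * pderiv y (f j2) - pderiv y (f j1) * pderiv x (f j2))
  else delPoly T i 0 (f j)

/-- The degrees of the equations after the contraction. -/
def raDeg [DecidableEq κ] (T : Tower ι V) (i : ι) (x y : V) (j1 j2 : κ) (δ : κ → ι → ℤ)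
    (j : {j : κ // j ≠ j2}) (a : {a : ι // a ≠ i}) : ℤ :=
  if j.1 = j1 then δ j1 a + δ j2 a - T.w x a - T.w y a else δ j a

/-- The level `b` is an untwisted pencil. -/
structure Pencil (T : Tower ι V) (b : ι) (u u' : V) : Prop where
  ne : u ≠ u'
  hu : T.lev u = b
  hu' : T.lev u' = b
  only : ∀ v, T.lev v = b → v = u ∨ v = u'
  wu : ∀ a, a ≠ b → T.w u a = 0
  wu' : ∀ a, a ≠ b → T.w u' a = 0

end Pool.Agent.TOW
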