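import Mathlib
import Pool.Agent.Helper85.TOW.Defs2

/-!
# TOW BASIC: forms, the action of the torus, monomials
-/

set_option autoImplicit false

namespace Pool.Agent.TOW

open MvPolynomial

variable {ι V κ : Type} [LinearOrder ι]


theorem act_mul [Fintype ι] (T : Tower ι V) {K : Type} [Field K] (s t : ι → Kˣ) (z : V → K) :
    T.act (s * t) z = T.act s (T.act t z) := by
  funext v
  show ((∏ a, (s * t) a ^ T.w v a : Kˣ) : K) * z v =
    ((∏ a, s a ^ T.w v a : Kˣ) : K) * (((∏ a, t a ^ T.w v a : Kˣ) : K) * z v)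
  rw [← mul_assoc, ← Units.val_mul, ← Finset.prod_mul_distrib]
  simp only [Pi.mul_apply, mul_zpow]

theorem act_one [Fintype ι] (T : Tower ι V) {K : Type} [Field K] (z : V → K) :
    T.act (1 : ι → Kˣ) z = z := by
  funext v
  show ((∏ a, (1 : ι → Kˣ) a ^ T.w v a : Kˣ) : K) * z v = z v
  simp

theorem act_pt [Fintype ι] (T : Tower ι V) (t : ι → ℂˣ) (z : V → ℂ) :
    T.act t z ∈ Pt T ↔ z ∈ Pt T := by
  have h : ∀ v, T.act t z v ≠ 0 ↔ z v ≠ 0 := fun v => by
    show ((∏ a, t a ^ T.w v a : ℂˣ) : ℂ) * z v ≠ 0 ↔ z v ≠ 0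
    rw [mul_ne_zero_iff]
    exact and_iff_right (Units.ne_zero _)
  constructor
  · intro hz a
    obtain ⟨v, h1, h2⟩ := hz a
    exact ⟨v, h1, (h v).1 h2⟩
  · intro hz a
    obtain ⟨v, h1, h2⟩ := hz a
    exact ⟨v, h1, (h v).2 h2⟩

section forms
variable [Fintype V] {T : Tower ι V} {δ ε : ι → ℤ} {f g : MvPolynomial V ℂ}

lemma basic_zpow_sum {K : Type} [Field K] (u : Kˣ) {α : Type} (s : Finset α) (c : α → ℤ) :
    ∏ i ∈ s, u ^ c i = u ^ ∑ i ∈ s, c i := by
  classical
  induction s using Finset.induction_on with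
  | empty => simp
  | insert i s hi ih => rw [Finset.prod_insert hi, Finset.sum_insert hi, zpow_add, ih]

lemma basic_prod [Fintype ι] {K : Type} [Field K] (t : ι → Kˣ) (m : V →₀ ℕ) {δ : ι → ℤ}
    (hm : ∀ a, ∑ v, (m v : ℤ) * T.w v a = δ a) :
    ∏ v, (∏ a, t a ^ T.w v a) ^ m v = ∏ a, t a ^ δ a := by
  have h1 : ∀ v, (∏ a, t a ^ T.w v a) ^ m v = ∏ a, t a ^ ((m v : ℤ) * T.w v a) := by
    intro v
    rw [← Finset.prod_pow]
    refine Finset.prod_congr rfl fun a _ => ?_
    rw [mul_comm, zpow_mul, zpow_natCast]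
  rw [Finset.prod_congr rfl fun v _ => h1 v, Finset.prod_comm]
  refine Finset.prod_congr rfl fun a _ => ?_
  rw [basic_zpow_sum, hm a]

theorem IsForm.aeval_act [Fintype ι] (h : IsForm T δ f) {K : Type} [Field K] [Algebra ℂ K]
    (t : ι → Kˣ) (z : V → K) :
    aeval (T.act t z) f = ((∏ a, t a ^ δ a : Kˣ) : K) * aeval z f := by
  rw [aeval_def, aeval_def, eval₂_eq', eval₂_eq', Finset.mul_sum]
  refine Finset.sum_congr rfl fun m hm => ?_
  have h1 : ∏ v, T.act t z v ^ m v = ((∏ a, t a ^ δ a : Kˣ) : K) * ∏ v, z v ^ m v := by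
    rw [← basic_prod t m (h m hm), Units.coe_prod, ← Finset.prod_mul_distrib]
    refine Finset.prod_congr rfl fun v _ => ?_
    show (((∏ a, t a ^ T.w v a : Kˣ) : K) * z v) ^ m v = _
    rw [mul_pow, Units.val_pow_eq_pow_val]
  rw [h1]
  ring

theorem IsForm.eval_act [Fintype ι] (h : IsForm T δ f) (t : ι → ℂˣ) (z : V → ℂ) :
    eval (T.act t z) f = ((∏ a, t a ^ δ a : ℂˣ) : ℂ) * eval z f := by
  have := h.aeval_act t z
  rwa [aeval_eq_eval, aeval_eq_eval] at this

theorem isForm_iff [Fintype ι] : IsForm T δ f ↔ ∀ (t : ι → ℂˣ) (z : V → ℂ),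
    eval (T.act t z) f = ((∏ a, t a ^ δ a : ℂˣ) : ℂ) * eval z f := by
  classical
  constructor
  · intro h t z
    exact h.eval_act t z
  · intro h m hm a
    let u : ℂˣ := Units.mk0 2 two_ne_zero
    let t : ι → ℂˣ := Function.update 1 a u
    have ht : ∀ k : ι → ℤ, ∏ b, t b ^ k b = u ^ k a := by
      intro k
      rw [Finset.prod_eq_single a]
      · simp [t]
      · intro b _ hb
        simp [t, hb]
      · intro h4
        exact absurd (Finset.mem_univ _) h4
    let g : MvPolynomial V ℂ :=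
      ∑ m ∈ f.support, monomial m (coeff m f * ((∏ v, (u ^ T.w v a) ^ m v : ℂˣ) : ℂ))
    have hg : g = C ((u ^ δ a : ℂˣ) : ℂ) * f := by
      apply MvPolynomial.funext
      intro z
      rw [map_mul, eval_C, ← ht δ, ← h t z, eval_eq' _ f, map_sum]
      refine Finset.sum_congr rfl fun m' _ => ?_
      rw [eval_monomial, Finsupp.prod_fintype _ _ (fun _ => pow_zero _)]
      have h1 : ∏ v, T.act t z v ^ m' v = ((∏ v, (u ^ T.w v a) ^ m' v : ℂˣ) : ℂ) *
          ∏ v, z v ^ m' v := by
        rw [Units.coe_prod, ← Finset.prod_mul_distrib]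
        refine Finset.prod_congr rfl fun v _ => ?_
        show (((∏ b, t b ^ T.w v b : ℂˣ) : ℂ) * z v) ^ m' v = _
        rw [ht, mul_pow, Units.val_pow_eq_pow_val]
      rw [h1]
      ring
    have h1 := congrArg (coeff m) hg
    rw [coeff_C_mul] at h1
    have h2 : coeff m g = coeff m f * ((∏ v, (u ^ T.w v a) ^ m v : ℂˣ) : ℂ) := by
      show coeff m (∑ m ∈ f.support,
        monomial m (coeff m f * ((∏ v, (u ^ T.w v a) ^ m v : ℂˣ) : ℂ))) = _
      rw [coeff_sum]
      simp only [coeff_monomial]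
      rw [Finset.sum_ite_eq' f.support m, if_pos hm]
    rw [h2, mul_comm] at h1
    have h3 := mul_right_cancel₀ (mem_support_iff.1 hm) h1
    have h4 : ∏ v, (u ^ T.w v a) ^ m v = u ^ ∑ v, (m v : ℤ) * T.w v a := by
      rw [← basic_zpow_sum]
      refine Finset.prod_congr rfl fun v _ => ?_
      rw [mul_comm, zpow_mul, zpow_natCast]
    rw [h4] at h3
    have h5 : (2 : ℝ) ^ (∑ v, (m v : ℤ) * T.w v a) = (2 : ℝ) ^ (δ a) := by
      have h6 := congrArg (fun c : ℂ => ‖c‖) h3
      simp only [Units.val_zpow_eq_zpow_val, norm_zpow] at h6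
      have h7 : ‖((u : ℂˣ) : ℂ)‖ = 2 := by
        show ‖(2 : ℂ)‖ = 2
        simp
      rw [h7] at h6
      exact h6
    exact zpow_right_injective₀ (by norm_num) (by norm_num) h5

lemma basic_single (v : V) (a : ι) :
    ∑ u, (((Finsupp.single v 1 : V →₀ ℕ) u : ℕ) : ℤ) * T.w u a = T.w v a := by
  classical
  rw [Finset.sum_eq_single v]
  · rw [Finsupp.single_eq_same]
    simp
  · intro u _ hu
    rw [Finsupp.single_apply, if_neg (fun h => hu h.symm)]
    simp
  · intro h4
    exact absurd (Finset.mem_univ _) h4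

lemma basic_add (m m' : V →₀ ℕ) (a : ι) :
    ∑ u, (((m + m' : V →₀ ℕ) u : ℕ) : ℤ) * T.w u a =
      ∑ u, (m u : ℤ) * T.w u a + ∑ u, (m' u : ℤ) * T.w u a := by
  rw [← Finset.sum_add_distrib]
  refine Finset.sum_congr rfl fun u _ => ?_
  rw [Finsupp.add_apply]
  push_cast
  ring

theorem IsForm.pderiv (h : IsForm T δ f) (v : V) :
    IsForm T (δ - T.w v) (MvPolynomial.pderiv v f) := by
  classical
  intro m hm a
  have h1 : m + Finsupp.single v 1 ∈ f.support := by
    rw [mem_support_iff] at hm ⊢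
    rw [coeff_pderiv] at hm
    exact left_ne_zero_of_mul hm
  have h2 := h _ h1 a
  rw [basic_add, basic_single] at h2
  rw [Pi.sub_apply]
  omega

theorem IsForm.euler (h : IsForm T δ f) (a : ι) (z : V → ℂ) :
    ∑ v, (T.w v a : ℂ) * z v * eval z (MvPolynomial.pderiv v f) = δ a * eval z f := by
  classical
  have h1 : ∀ v, z v * eval z (MvPolynomial.pderiv v f) =
      ∑ m ∈ f.support, (m v : ℂ) * eval z (monomial m (coeff m f)) := by
    intro v
    have h2 : X v * MvPolynomial.pderiv v f =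
        ∑ m ∈ f.support, (m v) • monomial m (coeff m f) := by
      conv_lhs => rw [← support_sum_monomial_coeff f]
      rw [map_sum, Finset.mul_sum]
      refine Finset.sum_congr rfl fun m _ => ?_
      rw [X_mul_pderiv_monomial]
    have h3 := congrArg (eval z) h2
    rw [map_mul, eval_X, map_sum] at h3
    rw [h3]
    refine Finset.sum_congr rfl fun m _ => ?_
    rw [nsmul_eq_mul, map_mul, map_natCast]
  have h2 : eval z f = ∑ m ∈ f.support, eval z (monomial m (coeff m f)) := by
    conv_lhs => rw [← support_sum_monomial_coeff f]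
    rw [map_sum]
  calc ∑ v, (T.w v a : ℂ) * z v * eval z (MvPolynomial.pderiv v f)
      = ∑ v, ∑ m ∈ f.support, (T.w v a : ℂ) * ((m v : ℂ) *
          eval z (monomial m (coeff m f))) := by
        refine Finset.sum_congr rfl fun v _ => ?_
        rw [mul_assoc, h1 v, Finset.mul_sum]
    _ = ∑ m ∈ f.support, ∑ v, (T.w v a : ℂ) * ((m v : ℂ) *
          eval z (monomial m (coeff m f))) := Finset.sum_comm
    _ = δ a * eval z f := by
        rw [h2, Finset.mul_sum]
        refine Finset.sum_congr rfl fun m hm => ?_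
        have h3 : (δ a : ℂ) = ∑ v, (m v : ℂ) * (T.w v a : ℂ) := by
          rw [← h m hm a]
          push_cast
          rfl
        rw [h3, Finset.sum_mul]
        refine Finset.sum_congr rfl fun v _ => ?_
        ring

theorem IsForm.add (hf : IsForm T δ f) (hg : IsForm T δ g) : IsForm T δ (f + g) := by
  classical
  intro m hm a
  rcases Finset.mem_union.1 (support_add hm) with h | h
  · exact hf m h a
  · exact hg m h a

theorem IsForm.sub (hf : IsForm T δ f) (hg : IsForm T δ g) : IsForm T δ (f - g) := by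
  classical
  intro m hm a
  rcases Finset.mem_union.1 (support_sub _ f g hm) with h | h
  · exact hf m h a
  · exact hg m h a

theorem IsForm.mul (hf : IsForm T δ f) (hg : IsForm T ε g) : IsForm T (δ + ε) (f * g) := by
  classical
  intro m hm a
  obtain ⟨m1, h1, m2, h2, h3⟩ := Finset.mem_add.1 (support_mul f g hm)
  rw [← h3, basic_add, hf m1 h1 a, hg m2 h2 a]
  rfl

theorem IsForm.C_mul (hf : IsForm T δ f) (c : ℂ) : IsForm T δ (C c * f) := by
  intro m hm a
  apply hf m _ a
  rw [mem_support_iff] at hm ⊢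
  rw [coeff_C_mul] at hm
  exact right_ne_zero_of_mul hm

theorem isForm_X (T : Tower ι V) (v : V) : IsForm T (T.w v) (X v) := by
  classical
  intro m hm a
  rw [support_X, Finset.mem_singleton] at hm
  rw [hm]
  exact basic_single v a

theorem isForm_zero (T : Tower ι V) (δ : ι → ℤ) : IsForm T δ 0 := by
  intro m hm a
  rw [support_zero] at hm
  exact absurd hm (Finset.notMem_empty m)

theorem isForm_one (T : Tower ι V) : IsForm T 0 1 := by
  classical
  intro m hm a
  have h1 : m = 0 := by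
    by_contra h
    rw [mem_support_iff, coeff_one, if_neg (fun h' => h h'.symm)] at hm
    exact hm rfl
  rw [h1]
  simp

theorem IsForm.pow (hf : IsForm T δ f) (k : ℕ) : IsForm T (k • δ) (f ^ k) := by
  induction k with
  | zero => rw [zero_smul, pow_zero]; exact isForm_one T
  | succ k ih => rw [succ_nsmul, pow_succ]; exact ih.mul hf

end forms

variable [Fintype V]

lemma basic_level (T : Tower ι V) (m : V →₀ ℕ) (b : ι) (hb : ∀ v, b < T.lev v → m v = 0) :
    ∑ v, (m v : ℤ) * T.w v b = ∑ v with T.lev v = b, (m v : ℤ) := by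
  classical
  rw [Finset.sum_filter]
  refine Finset.sum_congr rfl fun v _ => ?_
  rcases lt_trichotomy b (T.lev v) with h | h | h
  · rw [hb v h, if_neg h.ne']
    simp
  · rw [if_pos h.symm]
    subst h
    rw [T.w_lev, mul_one]
  · rw [T.w_gt v b h, if_neg h.ne, mul_zero]

/-- The monomials of a degree without coordinates above `a`. -/
theorem mon_top (T : Tower ι V) (m : V →₀ ℕ) (δ : ι → ℤ)
    (hm : ∀ a, ∑ v, (m v : ℤ) * T.w v a = δ a) (a : ι) (ha : ∀ b, a < b → δ b = 0) :
    (∀ v, a < T.lev v → m v = 0) ∧ ∑ v with T.lev v = a, (m v : ℤ) = δ a := by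
  classical
  have h1 : ∀ v, a < T.lev v → m v = 0 := by
    by_contra hcon
    push Not at hcon
    obtain ⟨v0, h2, h3⟩ := hcon
    obtain ⟨v, hv, hmax⟩ := Finset.exists_max_image
      (Finset.univ.filter fun v => a < T.lev v ∧ m v ≠ 0) T.lev
      ⟨v0, Finset.mem_filter.2 ⟨Finset.mem_univ _, h2, h3⟩⟩
    obtain ⟨-, hv1, hv2⟩ := Finset.mem_filter.1 hv
    have h4 : ∀ u, T.lev v < T.lev u → m u = 0 := by
      intro u hu
      by_contra h5
      exact absurd (hmax u (Finset.mem_filter.2 ⟨Finset.mem_univ _, hv1.trans hu, h5⟩))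
        (not_le.2 hu)
    have h5 := basic_level T m (T.lev v) h4
    rw [hm, ha _ hv1] at h5
    have h6 := (Finset.sum_eq_zero_iff_of_nonneg (fun u _ => Int.natCast_nonneg (m u))).1 h5.symm v
      (Finset.mem_filter.2 ⟨Finset.mem_univ _, rfl⟩)
    exact hv2 (Int.natCast_eq_zero.1 h6)
  exact ⟨h1, by rw [← basic_level T m a h1, hm]⟩

/-- The only monomial of degree zero is `1`. -/
theorem mon_zero (T : Tower ι V) (m : V →₀ ℕ) (hm : ∀ a, ∑ v, (m v : ℤ) * T.w v a = 0) :
    m = 0 := by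
  classical
  by_contra hcon
  obtain ⟨v0, h3⟩ := Finsupp.ne_iff.1 hcon
  obtain ⟨v, hv, hmax⟩ := Finset.exists_max_image
    (Finset.univ.filter fun v => m v ≠ 0) T.lev ⟨v0, Finset.mem_filter.2 ⟨Finset.mem_univ _, h3⟩⟩
  obtain ⟨-, hv2⟩ := Finset.mem_filter.1 hv
  have h4 : ∀ u, T.lev v < T.lev u → m u = 0 := by
    intro u hu
    by_contra h5
    exact absurd (hmax u (Finset.mem_filter.2 ⟨Finset.mem_univ _, h5⟩)) (not_le.2 hu)
  have h5 := basic_level T m (T.lev v) h4
  rw [hm] at h5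
  have h6 := (Finset.sum_eq_zero_iff_of_nonneg (fun u _ => Int.natCast_nonneg (m u))).1 h5.symm v
    (Finset.mem_filter.2 ⟨Finset.mem_univ _, rfl⟩)
  exact hv2 (Int.natCast_eq_zero.1 h6)

/-- A form of degree `0` is constant. -/
theorem form_zero {T : Tower ι V} {f : MvPolynomial V ℂ} (h : IsForm T 0 f) :
    f = C (coeff 0 f) := by
  classical
  ext m
  rw [coeff_C]
  split_ifs with h0
  · rw [← h0]
  · by_contra h1
    exact h0 (mon_zero T m (h m (mem_support_iff.2 h1))).symm

/-- No equation of a smooth variety has degree `0`. -/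
theorem IsVar.deg_ne_zero [Fintype ι] [Fintype κ] {T : Tower ι V} {n : ℕ} {δ : κ → ι → ℤ}
    {f : κ → MvPolynomial V ℂ} (h : IsVar T n δ f) (j : κ) : δ j ≠ 0 := by
  intro h0
  have h1 := form_zero (h0 ▸ h.form j)
  obtain ⟨x⟩ := h.conn.toNonempty
  obtain ⟨z, rfl⟩ := Quot.exists_rep x
  have h2 := z.2.2 j
  rw [h1, eval_C] at h2
  have h3 := (h.smooth z.1 z.2).ne_zero j
  apply h3
  funext v
  show eval z.1 (MvPolynomial.pderiv v (f j)) = 0
  rw [h1, pderiv_C, map_zero]

end Pool.Agent.TOW
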