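import Mathlib
import Pool.Agent.Helper85.TOW.Basic

/-!
# TOW RA1: determinantal contraction, algebra
-/

set_option autoImplicit false

namespace Pool.Agent.TOW

open MvPolynomial

variable {ι V κ : Type} [LinearOrder ι] [Fintype V]

theorem del_eval (T : Tower ι V) (i : ι) (c : V → ℂ) (f : MvPolynomial V ℂ)
    (z : {v : V // T.lev v ≠ i} → ℂ) :
    eval z (delPoly T i c f) = eval (fun v => if h : T.lev v ≠ i then z ⟨v, h⟩ else c v) f := by
  induction f using MvPolynomial.induction_on with
  | C a => simp [delPoly]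
  | add p q hp hq => rw [map_add, map_add, map_add, hp, hq]
  | mul_X p v hp =>
    rw [map_mul, map_mul, map_mul, hp, eval_X]
    congr 1
    simp only [delPoly, aeval_X]
    split_ifs <;> simp

theorem del_pderiv (T : Tower ι V) (i : ι) (c : V → ℂ) (f : MvPolynomial V ℂ)
    (v : {v : V // T.lev v ≠ i}) :
    pderiv v (delPoly T i c f) = delPoly T i c (pderiv v.1 f) := by
  classical
  induction f using MvPolynomial.induction_on with
  | C a => simp [delPoly]
  | add p q hp hq => simp only [map_add, hp, hq]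
  | mul_X p u hp =>
    rw [map_mul, pderiv_mul, pderiv_mul, map_add, map_mul, map_mul, hp]
    congr 1
    congr 1
    by_cases h : T.lev u ≠ i
    · have e : delPoly T i c (X u) = X ⟨u, h⟩ := by simp [delPoly, h]
      rw [e, pderiv_X, pderiv_X]
      by_cases huv : u = v.1
      · have : (⟨u, h⟩ : {v : V // T.lev v ≠ i}) = v := Subtype.ext huv
        rw [this, huv]
        simp
      · have h2 : (⟨u, h⟩ : {v : V // T.lev v ≠ i}) ≠ v := fun h' => huv (congrArg Subtype.val h')
        rw [Pi.single_eq_of_ne h2, Pi.single_eq_of_ne huv, map_zero]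
    · have e : delPoly T i c (X u) = C (c u) := by simp [delPoly, h]
      have huv : u ≠ v.1 := fun h' => h (h' ▸ v.2)
      rw [e, pderiv_C, pderiv_X, Pi.single_eq_of_ne huv, map_zero]

/-- the extension of the torus -/
theorem ra1_prod [Fintype ι] (i : ι) (t : {a : ι // a ≠ i} → ℂˣ) (k : ι → ℤ) :
    ∏ a : {a : ι // a ≠ i}, t a ^ k a =
      ∏ a : ι, (if h : a ≠ i then t ⟨a, h⟩ else 1) ^ k a := by
  rw [Fintype.prod_eq_mul_prod_subtype_ne
    (fun a : ι => (if h : a ≠ i then t ⟨a, h⟩ else 1) ^ k a) i]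
  simp only [ne_eq, not_true_eq_false, dite_false, one_zpow, one_mul]
  refine Finset.prod_congr rfl fun a _ => ?_
  rw [dif_pos a.2]

/-- Restriction of forms that have degree zero on the level `i`. -/
theorem del_form {T : Tower ι V} {i : ι} {δ : ι → ℤ} {f : MvPolynomial V ℂ} (hf : IsForm T δ f)
    (pure : ∀ v, T.lev v ≠ i → T.w v i = 0) (h0 : δ i = 0) :
    IsForm (T.del i) (fun a => δ a) (delPoly T i 0 f) := by
  classical
  haveI : Fintype ι := Fintype.ofSurjective T.lev T.surj
  rw [isForm_iff]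
  intro t z
  rw [del_eval, del_eval, ra1_prod i t δ, ← hf.eval_act]
  congr 1
  congr 1
  funext v
  show _ = ((∏ a : ι, (if h : a ≠ i then t ⟨a, h⟩ else 1) ^ T.w v a : ℂˣ) : ℂ) *
    (if h : T.lev v ≠ i then z ⟨v, h⟩ else (0 : V → ℂ) v)
  by_cases h : T.lev v ≠ i
  · rw [dif_pos h, dif_pos h, ← ra1_prod i t (T.w v)]
    rfl
  · rw [dif_neg h, dif_neg h]
    simp

/-- the monomials -/
theorem ra1_mon {T : Tower ι V} {i : ι} {δ : ι → ℤ} {f : MvPolynomial V ℂ} (hf : IsForm T δ f)
    (pure : ∀ v, T.lev v ≠ i → T.w v i = 0) (h0 : δ i = 0) {m : V →₀ ℕ} (hm : m ∈ f.support)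
    {v : V} (hv : T.lev v = i) : m v = 0 := by
  classical
  have h1 := hf m hm i
  rw [h0] at h1
  have h2 : ∀ u ∈ (Finset.univ : Finset V), 0 ≤ (m u : ℤ) * T.w u i := by
    intro u _
    by_cases hu : T.lev u = i
    · subst hu
      rw [T.w_lev, mul_one]
      exact Int.natCast_nonneg _
    · rw [pure u hu, mul_zero]
  have h3 := (Finset.sum_eq_zero_iff_of_nonneg h2).1 h1 v (Finset.mem_univ v)
  subst hv
  rw [T.w_lev, mul_one] at h3
  exact Int.natCast_eq_zero.1 h3

/-- Forms of degree zero on the level `i` do not contain the coordinates of this level. -/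
theorem pure_eval {T : Tower ι V} {i : ι} {δ : ι → ℤ} {f : MvPolynomial V ℂ} (hf : IsForm T δ f)
    (pure : ∀ v, T.lev v ≠ i → T.w v i = 0) (h0 : δ i = 0) (z z' : V → ℂ)
    (hz : ∀ v, T.lev v ≠ i → z v = z' v) : eval z f = eval z' f := by
  classical
  rw [eval_eq', eval_eq']
  refine Finset.sum_congr rfl fun m hm => ?_
  congr 1
  refine Finset.prod_congr rfl fun v _ => ?_
  by_cases hv : T.lev v = i
  · rw [ra1_mon hf pure h0 hm hv, pow_zero, pow_zero]
  · rw [hz v hv]

theorem pure_pderiv {T : Tower ι V} {i : ι} {δ : ι → ℤ} {f : MvPolynomial V ℂ}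
    (hf : IsForm T δ f) (pure : ∀ v, T.lev v ≠ i → T.w v i = 0) (h0 : δ i = 0) (v : V)
    (hv : T.lev v = i) : pderiv v f = 0 := by
  classical
  by_contra hne
  obtain ⟨m, hm⟩ := MvPolynomial.support_nonempty.2 hne
  have h1 : m + Finsupp.single v 1 ∈ f.support := by
    rw [mem_support_iff] at hm ⊢
    rw [coeff_pderiv] at hm
    exact left_ne_zero_of_mul hm
  have h2 := ra1_mon hf pure h0 h1 hv
  rw [Finsupp.add_apply, Finsupp.single_eq_same] at h2
  omega

/-- The shape of the equations of degree one on the level `i`. -/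
theorem ra_coeff {T : Tower ι V} {δ : κ → ι → ℤ} {i : ι} {x y : V} {j1 j2 : κ}
    (H : RAHyp T δ i x y j1 j2) {f : κ → MvPolynomial V ℂ} (hf : ∀ j, IsForm T (δ j) (f j))
    (j : κ) (hj : j = j1 ∨ j = j2) :
    f j = X x * pderiv x (f j) + X y * pderiv y (f j) ∧ (δ j - T.w x) i = 0 ∧
      (δ j - T.w y) i = 0 := by
  classical
  have hd : δ j i = 1 := by
    rcases hj with rfl | rfl
    · exact H.d1
    · exact H.d2
  have hwx : T.w x i = 1 := by
    have := T.w_lev x
    rwa [H.hx] at this
  have hwy : T.w y i = 1 := by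
    have := T.w_lev y
    rwa [H.hy] at this
  refine ⟨?_, ?_, ?_⟩
  · apply MvPolynomial.funext
    intro z
    have h1 := (hf j).euler i z
    rw [hd] at h1
    rw [map_add, map_mul, map_mul, eval_X, eval_X]
    have h2 : ∑ v, (T.w v i : ℂ) * z v * eval z (pderiv v (f j)) =
        z x * eval z (pderiv x (f j)) + z y * eval z (pderiv y (f j)) := by
      have h3 : ∀ v, v ≠ x → v ≠ y → (T.w v i : ℂ) * z v * eval z (pderiv v (f j)) = 0 := by
        intro v h1 h2
        have : T.lev v ≠ i := fun h => (H.only v h).elim h1 h2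
        rw [H.pure v this]
        simp
      rw [Finset.sum_eq_add x y H.hxy (fun v _ hv => h3 v hv.1 hv.2)
        (fun h => absurd (Finset.mem_univ _) h) (fun h => absurd (Finset.mem_univ _) h), hwx, hwy]
      simp
    rw [h2] at h1
    rw [h1]
    simp
  · rw [Pi.sub_apply, hd, hwx, sub_self]
  · rw [Pi.sub_apply, hd, hwy, sub_self]

theorem ra_form [DecidableEq κ] {T : Tower ι V} {δ : κ → ι → ℤ} {i : ι} {x y : V} {j1 j2 : κ}
    (H : RAHyp T δ i x y j1 j2) {f : κ → MvPolynomial V ℂ} (hf : ∀ j, IsForm T (δ j) (f j))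
    (j : {j : κ // j ≠ j2}) :
    IsForm (T.del i) (raDeg T i x y j1 j2 δ j) (raEq T i x y j1 j2 f j) := by
  classical
  by_cases hj : j.1 = j1
  · have h1 := ((hf j1).pderiv x).mul ((hf j2).pderiv y)
    have h2 := ((hf j1).pderiv y).mul ((hf j2).pderiv x)
    have e : δ j1 - T.w y + (δ j2 - T.w x) = δ j1 - T.w x + (δ j2 - T.w y) := by
      funext a
      simp only [Pi.add_apply, Pi.sub_apply]
      ring
    rw [e] at h2
    have h3 := h1.sub h2
    have h4 := (ra_coeff H hf j1 (Or.inl rfl)).2.1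
    have h5 := (ra_coeff H hf j2 (Or.inr rfl)).2.2
    have h6 := del_form h3 H.pure (by rw [Pi.add_apply, h4, h5, add_zero])
    have e1 : raDeg T i x y j1 j2 δ j = fun a : {a : ι // a ≠ i} =>
        (δ j1 - T.w x + (δ j2 - T.w y)) a := by
      funext a
      simp only [raDeg, hj, if_true, Pi.add_apply, Pi.sub_apply]
      ring
    have e2 : raEq T i x y j1 j2 f j = delPoly T i 0
        (pderiv x (f j1) * pderiv y (f j2) - pderiv y (f j1) * pderiv x (f j2)) := by
      simp only [raEq, hj, if_true]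
    rw [e1, e2]
    exact h6
  · have h6 := del_form (hf j.1) H.pure (H.d0 j.1 hj j.2)
    have e1 : raDeg T i x y j1 j2 δ j = fun a : {a : ι // a ≠ i} => δ j.1 a := by
      funext a
      simp only [raDeg, hj, if_false]
    have e2 : raEq T i x y j1 j2 f j = delPoly T i 0 (f j.1) := by
      simp only [raEq, hj, if_false]
    rw [e1, e2]
    exact h6

end Pool.Agent.TOW
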