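import Mathlib
import Pool.Agent.Helper85.TOW.Ra1

/-!
# TOW CLOSED: a quadratic equation on one projective line
-/

set_option autoImplicit false

namespace Pool.Agent.TOW

open MvPolynomial

variable {ι V κ : Type} [LinearOrder ι]

/-- A form of degree `2 e_i` is a quadratic form in `x`, `y`. -/
theorem closed_shape [Fintype V] {T : Tower ι V} {δ : ι → ℤ} {g : MvPolynomial V ℂ}
    (hg : IsForm T δ g) {i : ι} {x y : V}
    (hxy : x ≠ y) (hx : T.lev x = i) (hy : T.lev y = i) (only : ∀ v, T.lev v = i → v = x ∨ v = y)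
    (wx : ∀ a, a ≠ i → T.w x a = 0) (wy : ∀ a, a ≠ i → T.w y a = 0)
    (hδ : δ = T.w x + T.w y) :
    ∃ α β γ : ℂ, g = C α * X x ^ 2 + C β * (X x * X y) + C γ * X y ^ 2 := by
  classical
  have wxi : T.w x i = 1 := by rw [← hx]; exact T.w_lev x
  have wyi : T.w y i = 1 := by rw [← hy]; exact T.w_lev y
  have hδi : δ i = 2 := by rw [hδ, Pi.add_apply, wxi, wyi]; norm_num
  have hδa : ∀ a, a ≠ i → δ a = 0 := by
    intro a ha
    rw [hδ, Pi.add_apply, wx a ha, wy a ha, add_zero]
  have key : ∀ m ∈ g.support, m = Finsupp.single x 2 ∨ m = Finsupp.single x 1 + Finsupp.single y 1 ∨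
      m = Finsupp.single y 2 := by
    intro m hm
    have hm' := hg m hm
    obtain ⟨h1, h2⟩ := mon_top T m δ hm' i (fun b hb => hδa b hb.ne')
    have h3 : ∑ v with T.lev v = i, (m v : ℤ) = m x + m y := by
      have : (Finset.univ.filter fun v => T.lev v = i) = {x, y} := by
        ext v
        simp only [Finset.mem_filter, Finset.mem_univ, true_and, Finset.mem_insert,
          Finset.mem_singleton]
        constructor
        · exact only v
        · rintro (rfl | rfl)
          · exact hx
          · exact hy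
      rw [this, Finset.sum_pair hxy]
    rw [h3, hδi] at h2
    -- the rest of `m`
    have hrest : m - (Finsupp.single x (m x) + Finsupp.single y (m y)) = 0 := by
      refine mon_zero T _ ?_
      intro a
      have e1 : ∀ v, (((m - (Finsupp.single x (m x) + Finsupp.single y (m y)) : V →₀ ℕ) v : ℕ) : ℤ)
          = (m v : ℤ) - (if v = x then (m x : ℤ) else 0) - (if v = y then (m y : ℤ) else 0) := by
        intro v
        rw [Finsupp.tsub_apply, Finsupp.add_apply, Finsupp.single_apply, Finsupp.single_apply]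
        by_cases hvx : v = x
        · subst hvx
          rw [if_pos rfl, if_neg (fun h => hxy h.symm), if_pos rfl, if_neg hxy]
          simp
        · by_cases hvy : v = y
          · subst hvy
            rw [if_neg (fun h => hvx h.symm), if_pos rfl, if_neg hvx, if_pos rfl]
            simp
          · rw [if_neg (fun h => hvx h.symm), if_neg (fun h => hvy h.symm), if_neg hvx, if_neg hvy]
            simp
      simp_rw [e1, sub_mul, Finset.sum_sub_distrib, ite_mul, zero_mul]
      rw [Finset.sum_ite_eq' Finset.univ x, Finset.sum_ite_eq' Finset.univ y, if_pos (Finset.mem_univ _),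
        if_pos (Finset.mem_univ _), hm' a]
      by_cases ha : a = i
      · subst ha
        rw [hδi, wxi, wyi]; linarith
      · rw [hδa a ha, wx a ha, wy a ha]; ring
    have hm2 : m = Finsupp.single x (m x) + Finsupp.single y (m y) := by
      ext v
      have h5 := DFunLike.congr_fun hrest v
      rw [Finsupp.tsub_apply, Finsupp.add_apply, Finsupp.single_apply, Finsupp.single_apply,
        Finsupp.coe_zero, Pi.zero_apply] at h5
      rw [Finsupp.add_apply, Finsupp.single_apply, Finsupp.single_apply]
      by_cases hvx : x = v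
      · subst hvx
        rw [if_pos rfl, if_neg (fun h => hxy h.symm)]; simp
      · by_cases hvy : y = v
        · subst hvy
          rw [if_neg hvx, if_pos rfl]; simp
        · rw [if_neg hvx, if_neg hvy] at h5 ⊢
          omega
    have h4 : m x + m y = 2 := by exact_mod_cast h2
    have h5 : m x = 2 ∧ m y = 0 ∨ m x = 1 ∧ m y = 1 ∨ m x = 0 ∧ m y = 2 := by omega
    rcases h5 with ⟨a1, a2⟩ | ⟨a1, a2⟩ | ⟨a1, a2⟩
    · left; rw [hm2, a1, a2]; simp
    · right; left; rw [a1, a2] at hm2; exact hm2
    · right; right; rw [hm2, a1, a2]; simp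
  have n1 : (Finsupp.single x 2 : V →₀ ℕ) ≠ Finsupp.single x 1 + Finsupp.single y 1 := by
    intro h
    have := DFunLike.congr_fun h y
    simp [Finsupp.single_apply, hxy] at this
  have n2 : (Finsupp.single x 2 : V →₀ ℕ) ≠ Finsupp.single y 2 := by
    intro h
    have := DFunLike.congr_fun h y
    simp [Finsupp.single_apply, hxy] at this
  have n3 : (Finsupp.single x 1 + Finsupp.single y 1 : V →₀ ℕ) ≠ Finsupp.single y 2 := by
    intro h
    have := DFunLike.congr_fun h x
    simp [Finsupp.single_apply, hxy.symm] at this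
  have hx2 : (X x ^ 2 : MvPolynomial V ℂ) = monomial (Finsupp.single x 2) 1 := X_pow_eq_monomial
  have hy2 : (X y ^ 2 : MvPolynomial V ℂ) = monomial (Finsupp.single y 2) 1 := X_pow_eq_monomial
  have hxy1 : (X x * X y : MvPolynomial V ℂ) =
      monomial (Finsupp.single x 1 + Finsupp.single y 1) 1 := by
    rw [X, X, monomial_mul, one_mul]
  refine ⟨coeff (Finsupp.single x 2) g, coeff (Finsupp.single x 1 + Finsupp.single y 1) g,
    coeff (Finsupp.single y 2) g, ?_⟩
  rw [hx2, hy2, hxy1, C_mul_monomial, C_mul_monomial, C_mul_monomial, mul_one, mul_one, mul_one]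
  ext m
  rw [coeff_add, coeff_add, coeff_monomial, coeff_monomial, coeff_monomial]
  by_cases hm : m ∈ g.support
  · rcases key m hm with rfl | rfl | rfl
    · rw [if_pos rfl, if_neg n1.symm, if_neg n2.symm]; ring
    · rw [if_neg n1, if_pos rfl, if_neg n3.symm]; ring
    · rw [if_neg n2, if_neg n3, if_pos rfl]; ring
  · have h0 : coeff m g = 0 := by
      by_contra h; exact hm (mem_support_iff.2 h)
    rw [h0]
    have a1 : (if Finsupp.single x 2 = m then coeff (Finsupp.single x 2) g else 0) = 0 := by
      split_ifs with h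
      · rw [h, h0]
      · rfl
    have a2 : (if Finsupp.single x 1 + Finsupp.single y 1 = m then
        coeff (Finsupp.single x 1 + Finsupp.single y 1) g else 0) = 0 := by
      split_ifs with h
      · rw [h, h0]
      · rfl
    have a3 : (if Finsupp.single y 2 = m then coeff (Finsupp.single y 2) g else 0) = 0 := by
      split_ifs with h
      · rw [h, h0]
      · rfl
    rw [a1, a2, a3]; ring

/-- factorisation of a binary quadratic form with nonzero discriminant -/
theorem closed_factor {α β γ : ℂ} (hD : β ^ 2 - 4 * α * γ ≠ 0) :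
    ∃ a1 b1 a2 b2 c : ℂ, c ≠ 0 ∧ a1 * b2 - a2 * b1 ≠ 0 ∧
      ∀ s t : ℂ, (a1 * s + b1 * t) * (a2 * s + b2 * t) = c * (α * s ^ 2 + β * (s * t) + γ * t ^ 2) := by
  by_cases hα : α = 0
  · subst hα
    refine ⟨0, 1, β, γ, 1, one_ne_zero, ?_, ?_⟩
    · intro h
      apply hD
      have : β = 0 := by linear_combination -h
      rw [this]; ring
    · intro s t; ring
  · obtain ⟨d, hd⟩ := IsAlgClosed.exists_pow_nat_eq (β ^ 2 - 4 * α * γ) (n := 2) (by norm_num)
    have hd0 : d ≠ 0 := by
      rintro rfl
      apply hD; rw [← hd]; ring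
    refine ⟨2 * α, β + d, 2 * α, β - d, 4 * α, mul_ne_zero (by norm_num) hα, ?_, ?_⟩
    · have : 2 * α * (β - d) - 2 * α * (β + d) = -(4 * α * d) := by ring
      rw [this, neg_ne_zero]
      exact mul_ne_zero (mul_ne_zero (by norm_num) hα) hd0
    · intro s t
      linear_combination (-(t ^ 2)) * hd

theorem not_closed [Fintype ι] [Fintype V] [Fintype κ] {T : Tower ι V} {n : ℕ}
    {δ : κ → ι → ℤ} {f : κ → MvPolynomial V ℂ} (h : IsVar T n δ f) {i : ι} {x y : V} {j : κ}
    (hxy : x ≠ y) (hx : T.lev x = i) (hy : T.lev y = i) (only : ∀ v, T.lev v = i → v = x ∨ v = y)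
    (wx : ∀ a, a ≠ i → T.w x a = 0) (wy : ∀ a, a ≠ i → T.w y a = 0)
    (pure : ∀ v, T.lev v ≠ i → T.w v i = 0) (hj : δ j = T.w x + T.w y)
    (d0 : ∀ j', j' ≠ j → δ j' i = 0) : False := by
  classical
  obtain ⟨α, β, γ, hf⟩ := closed_shape (h.form j) hxy hx hy only wx wy hj
  have wxi : T.w x i = 1 := by rw [← hx]; exact T.w_lev x
  have wyi : T.w y i = 1 := by rw [← hy]; exact T.w_lev y
  have hwxy : T.w x = T.w y := by
    funext a
    by_cases ha : a = i
    · rw [ha, wxi, wyi]
    · rw [wx a ha, wy a ha]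
  have hev : ∀ z : V → ℂ, eval z (f j) = α * z x ^ 2 + β * (z x * z y) + γ * z y ^ 2 := by
    intro z
    rw [hf]
    simp only [map_add, map_mul, map_pow, eval_C, eval_X]
  have hne : ∀ z ∈ Pt T, z x ≠ 0 ∨ z y ≠ 0 := by
    intro z hz
    obtain ⟨v, hv, hv0⟩ := hz i
    rcases only v hv with rfl | rfl
    · exact Or.inl hv0
    · exact Or.inr hv0
  obtain ⟨p0⟩ := h.conn.toNonempty
  obtain ⟨⟨z0, hz0⟩, rfl⟩ := Quot.exists_rep p0
  -- the discriminant
  have hD : β ^ 2 - 4 * α * γ ≠ 0 := by
    intro hD
    have h1 := (h.smooth z0 hz0).ne_zero j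
    apply h1
    funext v
    show eval z0 (pderiv v (f j)) = 0
    have hq := hz0.2 j
    rw [hev] at hq
    have hp : 2 * α * z0 x + β * z0 y = 0 := by
      have : (2 * α * z0 x + β * z0 y) ^ 2 = 0 := by
        linear_combination (4 * α) * hq + (z0 y) ^ 2 * hD
      exact pow_eq_zero_iff (two_ne_zero) |>.1 this
    have hr : β * z0 x + 2 * γ * z0 y = 0 := by
      have : (β * z0 x + 2 * γ * z0 y) ^ 2 = 0 := by
        linear_combination (4 * γ) * hq + (z0 x) ^ 2 * hD
      exact pow_eq_zero_iff (two_ne_zero) |>.1 this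
    rw [hf]
    simp only [map_add, Derivation.leibniz, pderiv_C, pderiv_X, smul_eq_mul, map_mul, eval_C, eval_X,
      Derivation.leibniz_pow, mul_zero, add_zero, map_pow]
    by_cases hvx : v = x
    · subst hvx
      simp [Pi.single_apply, hxy.symm]
      linear_combination hp
    · by_cases hvy : v = y
      · subst hvy
        simp [Pi.single_apply, hxy]
        linear_combination hr
      · simp [Pi.single_apply, Ne.symm hvx, Ne.symm hvy]
  obtain ⟨a1, b1, a2, b2, c, hc, hdet, hfac⟩ := closed_factor hD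
  -- the two points
  have hpt : ∀ s t : ℂ, (s ≠ 0 ∨ t ≠ 0) → α * s ^ 2 + β * (s * t) + γ * t ^ 2 = 0 →
      ∃ z : Cone T f, z.1 x = s ∧ z.1 y = t := by
    intro s t hst hq
    let z : V → ℂ := fun v => if v = x then s else if v = y then t else z0 v
    have hzx : z x = s := by simp [z]
    have hzy : z y = t := by simp [z, hxy.symm]
    have hzo : ∀ v, T.lev v ≠ i → z v = z0 v := by
      intro v hv
      have hvx : v ≠ x := by rintro rfl; exact hv hx
      have hvy : v ≠ y := by rintro rfl; exact hv hy
      simp [z, hvx, hvy]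
    refine ⟨⟨z, ?_, ?_⟩, hzx, hzy⟩
    · intro a
      by_cases ha : a = i
      · rcases hst with hs | ht
        · exact ⟨x, by rw [hx, ha], by rw [hzx]; exact hs⟩
        · exact ⟨y, by rw [hy, ha], by rw [hzy]; exact ht⟩
      · obtain ⟨v, hv, hv0⟩ := hz0.1 a
        exact ⟨v, hv, by rw [hzo v (by rw [hv]; exact ha)]; exact hv0⟩
    · intro j'
      by_cases hjj : j' = j
      · subst hjj
        rw [hev, hzx, hzy]; exact hq
      · rw [pure_eval (h.form j') pure (d0 j' hjj) z z0 hzo]
        exact hz0.2 j'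
  have hA : ∀ s t : ℂ, a1 * s + b1 * t = 0 ∨ a2 * s + b2 * t = 0 →
      α * s ^ 2 + β * (s * t) + γ * t ^ 2 = 0 := by
    intro s t hst
    have h1 := hfac s t
    have h2 : c * (α * s ^ 2 + β * (s * t) + γ * t ^ 2) = 0 := by
      rw [← h1]
      rcases hst with h3 | h3
      · rw [h3, zero_mul]
      · rw [h3, mul_zero]
    exact (mul_eq_zero.1 h2).resolve_left hc
  obtain ⟨z1, hz1x, hz1y⟩ := hpt b1 (-a1) (by
    by_contra hcon
    push Not at hcon
    obtain ⟨c1, c2⟩ := hcon
    apply hdet
    have : a1 = 0 := by linear_combination -c2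
    rw [this, c1]; ring) (hA _ _ (Or.inl (by ring)))
  obtain ⟨z2, hz2x, hz2y⟩ := hpt b2 (-a2) (by
    by_contra hcon
    push Not at hcon
    obtain ⟨c1, c2⟩ := hcon
    apply hdet
    have : a2 = 0 := by linear_combination -c2
    rw [this, c1]; ring) (hA _ _ (Or.inr (by ring)))
  -- the clopen set
  let S : Set (Cone T f) := {z | a1 * z.1 x + b1 * z.1 y = 0}
  have hcx : Continuous fun z : Cone T f => z.1 x := (continuous_apply x).comp continuous_subtype_val
  have hcy : Continuous fun z : Cone T f => z.1 y := (continuous_apply y).comp continuous_subtype_val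
  have hS1 : IsClosed S :=
    isClosed_eq ((continuous_const.mul hcx).add (continuous_const.mul hcy)) continuous_const
  have hS2 : Sᶜ = {z : Cone T f | a2 * z.1 x + b2 * z.1 y = 0} := by
    ext z
    constructor
    · intro hz
      have hq := z.2.2 j
      rw [hev] at hq
      have h1 := hfac (z.1 x) (z.1 y)
      rw [hq, mul_zero] at h1
      exact (mul_eq_zero.1 h1).resolve_left hz
    · intro hz hz'
      have e1 : a1 * z.1 x + b1 * z.1 y = 0 := hz'
      have e2 : a2 * z.1 x + b2 * z.1 y = 0 := hz
      have e3 : (a1 * b2 - a2 * b1) * z.1 x = 0 := by linear_combination b2 * e1 - b1 * e2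
      have e4 : (a1 * b2 - a2 * b1) * z.1 y = 0 := by linear_combination a1 * e2 - a2 * e1
      have f3 := (mul_eq_zero.1 e3).resolve_left hdet
      have f4 := (mul_eq_zero.1 e4).resolve_left hdet
      rcases hne z.1 z.2.1 with h5 | h5
      · exact h5 f3
      · exact h5 f4
  have hS3 : IsClosed Sᶜ := by
    rw [hS2]
    exact isClosed_eq ((continuous_const.mul hcx).add (continuous_const.mul hcy)) continuous_const
  have hclopen : IsClopen S := ⟨hS1, isClosed_compl_iff.1 hS3⟩
  let φ : Cone T f → Bool := fun z => decide (z ∈ S)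
  have hφ : Continuous φ := by
    have : φ = S.boolIndicator := by
      funext z
      by_cases hz : z ∈ S
      · simp [φ, hz, (Set.mem_iff_boolIndicator S z).1 hz]
      · simp [φ, hz, (Set.notMem_iff_boolIndicator S z).1 hz]
    rw [this]
    exact (continuous_boolIndicator_iff_isClopen S).2 hclopen
  have hinv : ∀ u v : Cone T f, SameOrbit T f u v → φ u = φ v := by
    rintro u v ⟨t, ht⟩
    have hvx : v.1 x = ((∏ a, t a ^ T.w x a : ℂˣ) : ℂ) * u.1 x := congrFun ht x
    have hvy : v.1 y = ((∏ a, t a ^ T.w x a : ℂˣ) : ℂ) * u.1 y := by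
      have := congrFun ht y
      rw [hwxy]; exact this
    have hiff : v ∈ S ↔ u ∈ S := by
      show a1 * v.1 x + b1 * v.1 y = 0 ↔ a1 * u.1 x + b1 * u.1 y = 0
      have e : a1 * v.1 x + b1 * v.1 y =
          ((∏ a, t a ^ T.w x a : ℂˣ) : ℂ) * (a1 * u.1 x + b1 * u.1 y) := by
        rw [hvx, hvy]; ring
      rw [e, mul_eq_zero]
      constructor
      · intro h1
        exact h1.resolve_left (Units.ne_zero _)
      · exact Or.inr
    simp only [φ, hiff]
  let ψ : XSpace T f → Bool := Quot.lift φ hinv
  have hψ : Continuous ψ := continuous_quot_lift hinv hφ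
  haveI := h.conn
  have hconst := PreconnectedSpace.constant (by infer_instance : PreconnectedSpace (XSpace T f)) hψ
    (x := Quot.mk _ z1) (y := Quot.mk _ z2)
  have h1 : φ z1 = true := by
    have : z1 ∈ S := by
      show a1 * z1.1 x + b1 * z1.1 y = 0
      rw [hz1x, hz1y]; ring
    simp [φ, this]
  have h2 : φ z2 = false := by
    have : z2 ∉ S := by
      intro h3
      have h4 : a1 * z2.1 x + b1 * z2.1 y = 0 := h3
      rw [hz2x, hz2y] at h4
      apply hdet
      linear_combination h4
    simp [φ, this]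
  have h3 : φ z1 = φ z2 := hconst
  rw [h1, h2] at h3
  exact Bool.noConfusion h3

end Pool.Agent.TOW
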