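import Mathlib

/-!
# TOW COUNT: all but few edges are far from the vertices of large degree
-/

set_option autoImplicit false

namespace Pool.Agent.TOW

open MvPolynomial

/-- The number of the elements in fibres which do not have size two. -/
theorem count_one {V A : Type} [Fintype V] [Fintype A] [DecidableEq A] (l : V → A)
    (hl : ∀ a, 2 ≤ (Finset.univ.filter fun v => l v = a).card) :
    (((Finset.univ.filter fun u => (Finset.univ.filter fun v => l v = l u).card ≠ 2).card : ℕ) : ℤ)
      ≤ 3 * ((Fintype.card V : ℤ) - 2 * Fintype.card A) := by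
  have h1 := Finset.card_eq_sum_card_fiberwise
    (s := Finset.univ.filter fun u => (Finset.univ.filter fun v => l v = l u).card ≠ 2)
    (t := (Finset.univ : Finset A)) (f := l) (fun v _ => Finset.mem_univ _)
  have h2 := Finset.card_eq_sum_card_fiberwise
    (s := (Finset.univ : Finset V)) (t := (Finset.univ : Finset A)) (f := l)
    (fun v _ => Finset.mem_univ _)
  rw [Finset.card_univ] at h2
  rw [h1, h2]
  push_cast
  have h3 : (3 : ℤ) * (∑ b : A, ((Finset.univ.filter fun v => l v = b).card : ℤ)
      - 2 * Fintype.card A) = ∑ b : A, 3 * (((Finset.univ.filter fun v => l v = b).card : ℤ) - 2) := by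
    rw [← Finset.mul_sum, Finset.sum_sub_distrib, Finset.sum_const, Finset.card_univ, nsmul_eq_mul]
    ring
  rw [h3]
  refine Finset.sum_le_sum fun a _ => ?_
  have ha := hl a
  by_cases h : (Finset.univ.filter fun v => l v = a).card = 2
  · have h4 : ((Finset.univ.filter fun u => (Finset.univ.filter fun v => l v = l u).card ≠ 2).filter
        fun x => l x = a) = ∅ := by
      rw [Finset.filter_eq_empty_iff]
      intro x hx hxa
      rw [Finset.mem_filter] at hx
      rw [hxa] at hx
      exact hx.2 h
    rw [h4, h]; simp
  · have h4 : ((Finset.univ.filter fun u => (Finset.univ.filter fun v => l v = l u).card ≠ 2).filter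
        fun x => l x = a).card ≤ (Finset.univ.filter fun v => l v = a).card := by
      apply Finset.card_le_card
      intro x hx
      rw [Finset.mem_filter] at hx ⊢
      exact ⟨Finset.mem_univ _, hx.2⟩
    omega

/-- One more step from a set. -/
theorem count_step {V A K : Type} [Fintype V] [DecidableEq V] [DecidableEq A] [DecidableEq K]
    (l : V → A) (β : V → K) (S : Finset V) :
    ∃ S' : Finset V, S ⊆ S' ∧ S'.card ≤ 3 * S.card ∧
      ∀ v w, w ∈ S → (l v = l w ∨ β v = β w) →
        ((Finset.univ.filter fun u => l u = l v).card = 2 ∧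
        (Finset.univ.filter fun u => β u = β v).card = 2) → v ∈ S' := by
  let P : V → Finset V := fun w => Finset.univ.filter fun v =>
    v ≠ w ∧ l v = l w ∧ (Finset.univ.filter fun u => l u = l v).card = 2
  let Q : V → Finset V := fun w => Finset.univ.filter fun v =>
    v ≠ w ∧ β v = β w ∧ (Finset.univ.filter fun u => β u = β v).card = 2
  have hP : ∀ w, (P w).card ≤ 1 := by
    intro w
    rw [Finset.card_le_one]
    intro v hv v' hv'
    by_contra hne
    simp only [P, Finset.mem_filter, Finset.mem_univ, true_and] at hv hv'
    have h3 : ({w, v, v'} : Finset V) ⊆ Finset.univ.filter fun u => l u = l v := by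
      intro u hu
      simp only [Finset.mem_insert, Finset.mem_singleton] at hu
      rw [Finset.mem_filter]
      refine ⟨Finset.mem_univ _, ?_⟩
      rcases hu with h | h | h
      · rw [h, hv.2.1]
      · rw [h]
      · rw [h, hv'.2.1, hv.2.1]
    have h4 := Finset.card_le_card h3
    rw [hv.2.2, Finset.card_insert_of_notMem (by
      simp only [Finset.mem_insert, Finset.mem_singleton, not_or]
      exact ⟨fun h => hv.1 h.symm, fun h => hv'.1 h.symm⟩), Finset.card_pair hne] at h4
    omega
  have hQ : ∀ w, (Q w).card ≤ 1 := by
    intro w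
    rw [Finset.card_le_one]
    intro v hv v' hv'
    by_contra hne
    simp only [Q, Finset.mem_filter, Finset.mem_univ, true_and] at hv hv'
    have h3 : ({w, v, v'} : Finset V) ⊆ Finset.univ.filter fun u => β u = β v := by
      intro u hu
      simp only [Finset.mem_insert, Finset.mem_singleton] at hu
      rw [Finset.mem_filter]
      refine ⟨Finset.mem_univ _, ?_⟩
      rcases hu with h | h | h
      · rw [h, hv.2.1]
      · rw [h]
      · rw [h, hv'.2.1, hv.2.1]
    have h4 := Finset.card_le_card h3
    rw [hv.2.2, Finset.card_insert_of_notMem (by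
      simp only [Finset.mem_insert, Finset.mem_singleton, not_or]
      exact ⟨fun h => hv.1 h.symm, fun h => hv'.1 h.symm⟩), Finset.card_pair hne] at h4
    omega
  refine ⟨S ∪ S.biUnion (fun w => P w ∪ Q w), Finset.subset_union_left, ?_, ?_⟩
  · have h1 : (S.biUnion (fun w => P w ∪ Q w)).card ≤ S.card * 2 := by
      apply Finset.card_biUnion_le_card_mul
      intro w _
      exact (Finset.card_union_le _ _).trans (by have := hP w; have := hQ w; omega)
    exact (Finset.card_union_le _ _).trans (by omega)
  · intro v w hw hvw hv
    by_cases hne : v = w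
    · rw [hne]; exact Finset.mem_union_left _ hw
    · apply Finset.mem_union_right
      rw [Finset.mem_biUnion]
      refine ⟨w, hw, ?_⟩
      rcases hvw with h | h
      · apply Finset.mem_union_left
        simp only [P, Finset.mem_filter, Finset.mem_univ, true_and]
        exact ⟨hne, h, hv.1⟩
      · apply Finset.mem_union_right
        simp only [Q, Finset.mem_filter, Finset.mem_univ, true_and]
        exact ⟨hne, h, hv.2⟩

theorem count {V A K : Type} [Fintype V] [Fintype A] [Fintype K] [DecidableEq A] [DecidableEq K]
    (l : V → A) (β : V → K)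
    (hl : ∀ a, 2 ≤ (Finset.univ.filter fun v => l v = a).card)
    (hβ : ∀ j, 2 ≤ (Finset.univ.filter fun v => β v = j).card) (n : ℕ)
    (hn : Fintype.card V = n + Fintype.card A + Fintype.card K) (hV : 162 * n < Fintype.card V) :
    ∃ x : V, ∀ a b c : V, (l x = l a ∨ β x = β a) → (l a = l b ∨ β a = β b) →
      (l b = l c ∨ β b = β c) → (Finset.univ.filter fun v => l v = l c).card = 2 ∧
        (Finset.univ.filter fun v => β v = β c).card = 2 := by
  classical
  set S0 : Finset V := (Finset.univ.filter fun u => (Finset.univ.filter fun v => l v = l u).card ≠ 2)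
    ∪ (Finset.univ.filter fun u => (Finset.univ.filter fun v => β v = β u).card ≠ 2) with hS0
  have hc0 : S0.card ≤ 6 * n := by
    have h1 := count_one l hl
    have h2 := count_one β hβ
    have h3 := Finset.card_union_le
      (Finset.univ.filter fun u => (Finset.univ.filter fun v => l v = l u).card ≠ 2)
      (Finset.univ.filter fun u => (Finset.univ.filter fun v => β v = β u).card ≠ 2)
    rw [← hS0] at h3
    have h4 : (Fintype.card V : ℤ) = n + Fintype.card A + Fintype.card K := by exact_mod_cast hn
    omega
  have hgood : ∀ v, v ∉ S0 → (Finset.univ.filter fun u => l u = l v).card = 2 ∧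
        (Finset.univ.filter fun u => β u = β v).card = 2 := by
    intro v hv
    rw [hS0, Finset.mem_union, not_or, Finset.mem_filter, Finset.mem_filter] at hv
    simpa using hv
  obtain ⟨S1, h01, hc1, hs1⟩ := count_step l β S0
  obtain ⟨S2, h12, hc2, hs2⟩ := count_step l β S1
  obtain ⟨S3, h23, hc3, hs3⟩ := count_step l β S2
  have hlt : S3.card < (Finset.univ : Finset V).card := by
    rw [Finset.card_univ]; omega
  obtain ⟨x, _, hx⟩ := Finset.exists_mem_notMem_of_card_lt_card hlt
  refine ⟨x, fun a b c hxa hab hbc => ?_⟩
  have hx0 : x ∉ S0 := fun h => hx (h23 (h12 (h01 h)))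
  have ha2 : a ∉ S2 := fun h => hx (hs3 x a h hxa (hgood x hx0))
  have ha0 : a ∉ S0 := fun h => ha2 (h12 (h01 h))
  have hb1 : b ∉ S1 := fun h => ha2 (hs2 a b h hab (hgood a ha0))
  have hb0 : b ∉ S0 := fun h => hb1 (h01 h)
  have hc : c ∉ S0 := fun h => hb1 (hs1 b c h hbc (hgood b hb0))
  exact hgood c hc

end Pool.Agent.TOW
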