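import Mathlib
import Pool.Agent.Helper85.TOW.Basic

/-!
# TOW NORM: change of the basis of the Picard group
-/

set_option autoImplicit false

namespace Pool.Agent.TOW

open MvPolynomial

variable {ι V κ : Type} [LinearOrder ι] [Fintype ι] [Fintype V] [Fintype κ]

omit [Fintype V] in
theorem norm_act (T : Tower ι V) (a : ι) (M : ι → ℤ) (hM : ∀ b, a ≤ b → M b = 0) (t : ι → ℂˣ)
    (z : V → ℂ) : T.act t z =
      (T.shear a M hM).act (t * Pi.mulSingle a (∏ b, t b ^ M b)) z := by
  classical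
  funext v
  have h1 : ∏ b, (t * (Pi.mulSingle a (∏ b, t b ^ M b) : ι → ℂˣ)) b ^ (T.shear a M hM).w v b =
      ∏ b, t b ^ T.w v b := by
    have hwa : (T.shear a M hM).w v a = T.w v a := by
      show T.w v a - T.w v a * M a = T.w v a
      rw [hM a le_rfl]; ring
    simp only [Pi.mul_apply, mul_zpow, Finset.prod_mul_distrib]
    have h2 : ∏ b, (Pi.mulSingle a (∏ b, t b ^ M b) : ι → ℂˣ) b ^ (T.shear a M hM).w v b =
        (∏ b, t b ^ M b) ^ T.w v a := by
      rw [Finset.prod_eq_single a]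
      · rw [Pi.mulSingle_eq_same, hwa]
      · intro b _ hb
        rw [Pi.mulSingle_eq_of_ne hb, one_zpow]
      · intro h
        exact absurd (Finset.mem_univ a) h
    rw [h2, ← Finset.prod_zpow, ← Finset.prod_mul_distrib]
    refine Finset.prod_congr rfl fun b _ => ?_
    rw [← zpow_mul, ← zpow_add]
    congr 1
    show T.w v b - T.w v a * M b + M b * T.w v a = T.w v b
    ring
  show ((∏ b, t b ^ T.w v b : ℂˣ) : ℂ) * z v = _
  rw [← h1]
  rfl

omit [Fintype V] in
theorem norm_act' (T : Tower ι V) (a : ι) (M : ι → ℤ) (hM : ∀ b, a ≤ b → M b = 0) (t : ι → ℂˣ)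
    (z : V → ℂ) : (T.shear a M hM).act t z =
      T.act (t * Pi.mulSingle a (∏ b, t b ^ M b)⁻¹) z := by
  classical
  rw [norm_act T a M hM]
  congr 1
  have h1 : ∀ b, (t * (Pi.mulSingle a (∏ b, t b ^ M b)⁻¹ : ι → ℂˣ)) b ^ M b = t b ^ M b := by
    intro b
    by_cases hb : b = a
    · rw [hb, hM a le_rfl, zpow_zero, zpow_zero]
    · rw [Pi.mul_apply, Pi.mulSingle_eq_of_ne hb, mul_one]
  rw [Finset.prod_congr rfl fun b _ => h1 b, mul_assoc, ← Pi.mulSingle_mul, inv_mul_cancel,
    Pi.mulSingle_one, mul_one]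

omit [Fintype ι] in
theorem norm_form {T : Tower ι V} {δ : ι → ℤ} {g : MvPolynomial V ℂ} (h : IsForm T δ g) (a : ι)
    (M : ι → ℤ) (hM : ∀ b, a ≤ b → M b = 0) :
    IsForm (T.shear a M hM) (fun b => δ b - δ a * M b) g := by
  intro m hm b
  show ∑ v, (m v : ℤ) * (T.w v b - T.w v a * M b) = δ b - δ a * M b
  rw [← h m hm b, ← h m hm a, Finset.sum_mul, ← Finset.sum_sub_distrib]
  exact Finset.sum_congr rfl fun v _ => by ring

omit [Fintype V] [Fintype κ] in
theorem norm_homeo (T : Tower ι V) (f : κ → MvPolynomial V ℂ) (a : ι) (M : ι → ℤ)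
    (hM : ∀ b, a ≤ b → M b = 0) :
    Nonempty (XSpace T f ≃ₜ XSpace (T.shear a M hM) f) := by
  refine quot_homeo2 (fun x => (⟨x.1, x.2⟩ : Cone (T.shear a M hM) f))
    (fun x => (⟨x.1, x.2⟩ : Cone T f)) ?_ ?_ ?_ ?_ ?_ ?_
  · exact Continuous.subtype_mk continuous_subtype_val _
  · exact Continuous.subtype_mk continuous_subtype_val _
  · rintro x y ⟨t, ht⟩
    exact ⟨_, ht.trans (norm_act T a M hM t x.1)⟩
  · rintro x y ⟨t, ht⟩
    exact ⟨_, ht.trans (norm_act' T a M hM t x.1)⟩
  · intro x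
    exact ⟨1, (act_one T _).symm⟩
  · intro x
    exact ⟨1, (act_one (T.shear a M hM) _).symm⟩

theorem shear_isVar {T : Tower ι V} {n : ℕ} {δ : κ → ι → ℤ} {f : κ → MvPolynomial V ℂ}
    (h : IsVar T n δ f) (a : ι) (M : ι → ℤ) (hM : ∀ b, a ≤ b → M b = 0) :
    IsVar (T.shear a M hM) n (fun j b => δ j b - δ j a * M b) f ∧
      Nonempty (XSpace T f ≃ₜ XSpace (T.shear a M hM) f) := by
  obtain ⟨φ⟩ := norm_homeo T f a M hM
  refine ⟨⟨fun j z hz => ?_, fun j => norm_form (h.form j) a M hM, h.smooth, ?_, fun b => ?_,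
    h.dim⟩, ⟨φ⟩⟩
  · obtain ⟨g, hg, hg0⟩ := h.free j z hz
    exact ⟨g, norm_form hg a M hM, hg0⟩
  · have := h.conn
    exact φ.surjective.connectedSpace φ.continuous
  · show ∑ j, (δ j b - δ j a * M b) = ∑ v, (T.w v b - T.w v a * M b)
    rw [Finset.sum_sub_distrib, Finset.sum_sub_distrib, ← Finset.sum_mul, ← Finset.sum_mul,
      h.canonical b, h.canonical a]

theorem exists_norm {T : Tower ι V} {n : ℕ} {δ : κ → ι → ℤ} {f : κ → MvPolynomial V ℂ}
    (h : IsVar T n δ f) : ∃ (T' : Tower ι V) (δ' : κ → ι → ℤ), T'.IsNorm ∧ IsVar T' n δ' f ∧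
      Nonempty (XSpace T f ≃ₜ XSpace T' f) := by
  classical
  have key : ∀ s : Finset ι, ∃ (T' : Tower ι V) (δ' : κ → ι → ℤ), IsVar T' n δ' f ∧
      Nonempty (XSpace T f ≃ₜ XSpace T' f) ∧ (∀ v b, T'.lev v ∈ s → b < T'.lev v → T'.w v b ≤ 0) ∧
      ∀ a ∈ s, ∀ b, b < a → ∃ v, T'.lev v = a ∧ T'.w v b = 0 := by
    intro s
    induction s using Finset.induction_on_max with
    | empty => exact ⟨T, δ, h, ⟨Homeomorph.refl _⟩, by simp, by simp⟩
    | insert a s hs ih =>
      obtain ⟨T', δ', h1, ⟨φ⟩, h2, h3⟩ := ih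
      have hne : (Finset.univ.filter fun v => T'.lev v = a).Nonempty := by
        obtain ⟨v, hv⟩ := T'.surj a
        exact ⟨v, by simp [hv]⟩
      let M : ι → ℤ := fun b =>
        if b < a then (Finset.univ.filter fun v => T'.lev v = a).sup' hne (fun v => T'.w v b) else 0
      have hM : ∀ b, a ≤ b → M b = 0 := fun b hb => if_neg (not_lt.2 hb)
      obtain ⟨h4, ⟨ψ⟩⟩ := shear_isVar h1 a M hM
      have hlow : ∀ v, T'.lev v < a → ∀ b, (T'.shear a M hM).w v b = T'.w v b := by
        intro v hv b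
        show T'.w v b - T'.w v a * M b = T'.w v b
        rw [T'.w_gt v a hv]; ring
      have htop : ∀ v, T'.lev v = a → ∀ b, (T'.shear a M hM).w v b = T'.w v b - M b := by
        intro v hv b
        show T'.w v b - T'.w v a * M b = T'.w v b - M b
        have : T'.w v a = 1 := by rw [← hv]; exact T'.w_lev v
        rw [this]; ring
      refine ⟨T'.shear a M hM, _, h4, ⟨φ.trans ψ⟩, ?_, ?_⟩
      · intro v b hv hb
        change T'.lev v ∈ insert a s at hv
        change b < T'.lev v at hb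
        rcases Finset.mem_insert.1 hv with hv | hv
        · rw [htop v hv, sub_nonpos]
          rw [hv] at hb
          show T'.w v b ≤ if b < a then _ else _
          rw [if_pos hb]
          exact Finset.le_sup' (fun v => T'.w v b) (by simp [hv])
        · rw [hlow v (hs _ hv)]
          exact h2 v b hv hb
      · intro c hc b hb
        rcases Finset.mem_insert.1 hc with rfl | hc
        · obtain ⟨v, hv, hv2⟩ := Finset.exists_mem_eq_sup' hne (fun v => T'.w v b)
          have hv' : T'.lev v = c := by simpa using hv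
          refine ⟨v, hv', ?_⟩
          rw [htop v hv', sub_eq_zero]
          show T'.w v b = if b < c then _ else _
          rw [if_pos hb]
          exact hv2.symm
        · obtain ⟨v, hv, hv2⟩ := h3 c hc b hb
          refine ⟨v, hv, ?_⟩
          rw [hlow v (by rw [hv]; exact hs _ hc)]
          exact hv2
  obtain ⟨T', δ', h1, h2, h3, h4⟩ := key Finset.univ
  exact ⟨T', δ', ⟨fun v b hb => h3 v b (Finset.mem_univ _) hb,
    fun a b hb => h4 a (Finset.mem_univ _) b hb⟩, h1, h2⟩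

end Pool.Agent.TOW
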