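import Mathlib
import Pool.Agent.Helper85.TOW.Norm

/-!
# TOW DROP: levels with one coordinate
-/

set_option autoImplicit false

namespace Pool.Agent.TOW

open MvPolynomial

variable {ι V κ : Type} [LinearOrder ι] [Fintype ι] [Fintype V] [Fintype κ]

/-- extension by `1` on the level `i` -/
def dropExt (T : Tower ι V) (i : ι) (z : {v : V // T.lev v ≠ i} → ℂ) : V → ℂ :=
  fun v => if h : T.lev v ≠ i then z ⟨v, h⟩ else 1

omit [Fintype ι] [Fintype V] in
lemma dropExt_ne (T : Tower ι V) (i : ι) (z : {v : V // T.lev v ≠ i} → ℂ)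
    (v : {v : V // T.lev v ≠ i}) : dropExt T i z v.1 = z v := dif_pos v.2

omit [Fintype ι] [Fintype V] in
lemma dropExt_eq (T : Tower ι V) (i : ι) (z : {v : V // T.lev v ≠ i} → ℂ)
    {v : V} (hv : T.lev v = i) : dropExt T i z v = 1 := dif_neg (not_not.2 hv)

omit [Fintype ι] [Fintype V] in
lemma drop_eval (T : Tower ι V) (i : ι) (f : MvPolynomial V ℂ)
    (z : {v : V // T.lev v ≠ i} → ℂ) :
    eval z (delPoly T i 1 f) = eval (dropExt T i z) f := by
  induction f using MvPolynomial.induction_on with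
  | C a => simp [delPoly]
  | add p q hp hq => rw [map_add, map_add, map_add, hp, hq]
  | mul_X p v hp =>
    rw [map_mul, map_mul, map_mul, hp, eval_X]
    congr 1
    show eval z (aeval _ (X v)) = _
    rw [aeval_X]
    unfold dropExt
    split_ifs with h
    · rw [eval_X]
    · simp

omit [Fintype ι] [Fintype V] in
lemma drop_pderiv (T : Tower ι V) (i : ι) (f : MvPolynomial V ℂ)
    (v : {v : V // T.lev v ≠ i}) :
    pderiv v (delPoly T i 1 f) = delPoly T i 1 (pderiv v.1 f) := by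
  classical
  induction f using MvPolynomial.induction_on with
  | C a => simp [delPoly]
  | add p q hp hq => rw [map_add, map_add, map_add, map_add, hp, hq]
  | mul_X p u hp =>
    rw [map_mul, Derivation.leibniz, Derivation.leibniz, map_add, smul_eq_mul, smul_eq_mul,
      smul_eq_mul, smul_eq_mul, map_mul, map_mul, hp]
    congr 2
    have h1 : delPoly T i 1 (X u) = if h : T.lev u ≠ i then X ⟨u, h⟩ else C ((1 : V → ℂ) u) := by
      show aeval _ (X u) = _
      rw [aeval_X]
    rw [h1, pderiv_X]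
    split_ifs with h
    · rw [pderiv_X]
      by_cases huv : u = v.1
      · subst huv
        simp
      · have h2 : (⟨u, h⟩ : {v : V // T.lev v ≠ i}) ≠ v := fun h3 => huv (congrArg Subtype.val h3)
        rw [Pi.single_eq_of_ne h2, Pi.single_eq_of_ne huv, map_zero]
    · rw [pderiv_C]
      have huv : u ≠ v.1 := fun h3 => v.2 (by rw [← h3]; exact not_not.1 h)
      rw [Pi.single_eq_of_ne huv, map_zero]

omit [Fintype ι] [Fintype V] in
lemma drop_pt (T : Tower ι V) (i : ι) (z : {v : V // T.lev v ≠ i} → ℂ) :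
    dropExt T i z ∈ Pt T ↔ z ∈ Pt (T.del i) := by
  constructor
  · intro h a
    obtain ⟨v, hv, hz⟩ := h a.1
    have h1 : T.lev v ≠ i := by rw [hv]; exact a.2
    refine ⟨⟨v, h1⟩, Subtype.ext hv, ?_⟩
    rwa [← dropExt_ne T i z ⟨v, h1⟩]
  · intro h a
    by_cases ha : a = i
    · obtain ⟨v, hv⟩ := T.surj i
      exact ⟨v, by rw [hv, ha], by rw [dropExt_eq T i z hv]; exact one_ne_zero⟩
    · obtain ⟨v, hv, hz⟩ := h ⟨a, ha⟩
      refine ⟨v.1, congrArg Subtype.val hv, ?_⟩
      rwa [dropExt_ne T i z v]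

omit [Fintype ι] [Fintype V] [Fintype κ] in
lemma drop_cone (T : Tower ι V) (i : ι) (f : κ → MvPolynomial V ℂ)
    (z : {v : V // T.lev v ≠ i} → ℂ) :
    dropExt T i z ∈ Cone T f ↔ z ∈ Cone (T.del i) (fun j => delPoly T i 1 (f j)) := by
  show (_ ∧ _) ↔ (_ ∧ _)
  rw [drop_pt]
  simp only [drop_eval]

/-- extension of a torus element by `1` -/
def dropT (i : ι) (t : {a : ι // a ≠ i} → ℂˣ) : ι → ℂˣ :=
  fun a => if h : a ≠ i then t ⟨a, h⟩ else 1

omit [Fintype V] in
lemma drop_act (T : Tower ι V) (u : V) (hu : ∀ v, T.lev v = T.lev u → v = u)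
    (hw : ∀ b, b ≠ T.lev u → T.w u b = 0) (r : ι → ℂˣ) (hr : r (T.lev u) = 1)
    (z : {v : V // T.lev v ≠ T.lev u} → ℂ) :
    T.act r (dropExt T (T.lev u) z) =
      dropExt T (T.lev u) ((T.del (T.lev u)).act (fun a => r a.1) z) := by
  funext v
  show ((∏ a, r a ^ T.w v a : ℂˣ) : ℂ) * dropExt T (T.lev u) z v = _
  by_cases hv : T.lev v = T.lev u
  · rw [dropExt_eq _ _ _ hv, dropExt_eq _ _ _ hv, mul_one]
    have hvu := hu v hv
    subst hvu
    rw [Finset.prod_eq_one, Units.val_one]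
    intro a _
    by_cases ha : a = T.lev v
    · rw [ha, hr, one_zpow]
    · rw [hw a ha, zpow_zero]
  · rw [dropExt_ne T (T.lev u) z ⟨v, hv⟩, dropExt_ne T (T.lev u) _ ⟨v, hv⟩]
    show _ = ((∏ a : {a : ι // a ≠ T.lev u}, r a.1 ^ T.w v a.1 : ℂˣ) : ℂ) * z ⟨v, hv⟩
    rw [Fintype.prod_eq_mul_prod_subtype_ne (fun a => r a ^ T.w v a) (T.lev u), hr, one_zpow,
      one_mul]

/-- the normalisation -/
noncomputable def dropN (T : Tower ι V) (u : V) (z : V → ℂ) : V → ℂ :=
  fun v => (z u)⁻¹ ^ T.w v (T.lev u) * z v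

omit [Fintype V] in
lemma dropN_act (T : Tower ι V) (u : V) (z : V → ℂ) (hz : z u ≠ 0) :
    dropN T u z = T.act (Pi.mulSingle (T.lev u) (Units.mk0 (z u) hz)⁻¹) z := by
  classical
  funext v
  show _ = ((∏ a, (Pi.mulSingle (T.lev u) (Units.mk0 (z u) hz)⁻¹ : ι → ℂˣ) a ^ T.w v a : ℂˣ) : ℂ) *
    z v
  rw [Finset.prod_eq_single (T.lev u)]
  · rw [Pi.mulSingle_eq_same]
    unfold dropN
    congr 1
    rw [Units.val_zpow_eq_zpow_val, Units.val_inv_eq_inv_val, Units.val_mk0]
  · intro b _ hb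
    rw [Pi.mulSingle_eq_of_ne hb, one_zpow]
  · intro h
    exact absurd (Finset.mem_univ _) h

omit [Fintype ι] [Fintype V] in
lemma dropN_ext (T : Tower ι V) (u : V) (hu : ∀ v, T.lev v = T.lev u → v = u) (z : V → ℂ)
    (hz : z u ≠ 0) :
    dropExt T (T.lev u) (fun v => dropN T u z v.1) = dropN T u z := by
  funext v
  by_cases hv : T.lev v = T.lev u
  · rw [dropExt_eq _ _ _ hv]
    have hvu := hu v hv
    subst hvu
    unfold dropN
    rw [T.w_lev, zpow_one, inv_mul_cancel₀ hz]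
  · rw [dropExt_ne T (T.lev u) _ ⟨v, hv⟩]

omit [Fintype ι] [Fintype V] in
lemma dropN_of_ext (T : Tower ι V) (u : V) (z : {v : V // T.lev v ≠ T.lev u} → ℂ) :
    dropN T u (dropExt T (T.lev u) z) = dropExt T (T.lev u) z := by
  funext v
  unfold dropN
  rw [dropExt_eq T (T.lev u) z (rfl : T.lev u = T.lev u), inv_one, one_zpow, one_mul]

lemma drop_form {T : Tower ι V} {δ : ι → ℤ} {f : MvPolynomial V ℂ} (hf : IsForm T δ f) (u : V)
    (hu : ∀ v, T.lev v = T.lev u → v = u) (hw : ∀ b, b ≠ T.lev u → T.w u b = 0) :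
    IsForm (T.del (T.lev u)) (fun a => δ a) (delPoly T (T.lev u) 1 f) := by
  rw [isForm_iff]
  intro t z
  have h1 : dropT (T.lev u) t (T.lev u) = 1 := dif_neg (not_not.2 rfl)
  have h2 : (fun a : {a : ι // a ≠ T.lev u} => dropT (T.lev u) t a.1) = t := by
    funext a
    exact dif_pos a.2
  have h3 := drop_act T u hu hw (dropT (T.lev u) t) h1 z
  rw [h2] at h3
  rw [drop_eval, drop_eval, ← h3, hf.eval_act]
  congr 2
  rw [Fintype.prod_eq_mul_prod_subtype_ne (fun a => dropT (T.lev u) t a ^ δ a) (T.lev u), h1,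
    one_zpow, one_mul]
  refine Finset.prod_congr rfl fun a _ => ?_
  rw [← congrFun h2 a]

omit [Fintype ι] [Fintype V] [Fintype κ] in
lemma drop_ne {T : Tower ι V} {f : κ → MvPolynomial V ℂ} (u : V)
    (hu : ∀ v, T.lev v = T.lev u → v = u) (z : Cone T f) : z.1 u ≠ 0 := by
  obtain ⟨v, hv, hz⟩ := z.2.1 (T.lev u)
  rwa [← hu v hv]

omit [Fintype κ] in
lemma drop_homeo {T : Tower ι V} {δ : κ → ι → ℤ} {f : κ → MvPolynomial V ℂ}
    (hf : ∀ j, IsForm T (δ j) (f j)) (u : V)
    (hu : ∀ v, T.lev v = T.lev u → v = u) (hw : ∀ b, b ≠ T.lev u → T.w u b = 0) :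
    Nonempty (XSpace T f ≃ₜ
        XSpace (T.del (T.lev u)) (fun j => delPoly T (T.lev u) 1 (f j))) := by
  classical
  have hN : ∀ z : Cone T f, dropN T u z.1 ∈ Cone T f := by
    intro z
    have hz := drop_ne u hu z
    refine ⟨?_, fun j => ?_⟩
    · rw [dropN_act T u z.1 hz, act_pt]
      exact z.2.1
    · rw [dropN_act T u z.1 hz, (hf j).eval_act, z.2.2 j, mul_zero]
  have hF : ∀ z : Cone T f, (fun v : {v : V // T.lev v ≠ T.lev u} => dropN T u z.1 v.1) ∈
      Cone (T.del (T.lev u)) (fun j => delPoly T (T.lev u) 1 (f j)) := by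
    intro z
    rw [← drop_cone, dropN_ext T u hu z.1 (drop_ne u hu z)]
    exact hN z
  refine quot_homeo2 (fun z => ⟨_, hF z⟩)
    (fun z => ⟨dropExt T (T.lev u) z.1, (drop_cone T (T.lev u) f z.1).2 z.2⟩) ?_ ?_ ?_ ?_ ?_ ?_
  · refine Continuous.subtype_mk (continuous_pi fun v => ?_) _
    have h1 : Continuous fun z : Cone T f => (z.1 u)⁻¹ :=
      ((continuous_apply u).comp continuous_subtype_val).inv₀ fun z => drop_ne u hu z
    have h2 : Continuous fun z : Cone T f => (z.1 u)⁻¹ ^ T.w v.1 (T.lev u) :=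
      h1.zpow₀ _ fun z => Or.inl (inv_ne_zero (drop_ne u hu z))
    exact h2.mul ((continuous_apply v.1).comp continuous_subtype_val)
  · refine Continuous.subtype_mk (continuous_pi fun v => ?_) _
    unfold dropExt
    split_ifs with h
    · exact (continuous_apply (⟨v, h⟩ : {v : V // T.lev v ≠ T.lev u})).comp continuous_subtype_val
    · exact continuous_const
  · rintro x y ⟨t, ht⟩
    have hx := drop_ne u hu x
    have hy := drop_ne u hu y
    set r : ι → ℂˣ := Pi.mulSingle (T.lev u) (Units.mk0 (y.1 u) hy)⁻¹ *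
      (t * (Pi.mulSingle (T.lev u) (Units.mk0 (x.1 u) hx)⁻¹)⁻¹) with hr
    have h1 : dropN T u y.1 = T.act r (dropN T u x.1) := by
      rw [hr, act_mul, act_mul, dropN_act T u x.1 hx, dropN_act T u y.1 hy, ← act_mul T _⁻¹,
        inv_mul_cancel, act_one, ← ht]
    have h2 : r (T.lev u) = 1 := by
      have h3 := congrFun h1 u
      rw [← dropN_ext T u hu x.1 hx, ← dropN_ext T u hu y.1 hy] at h3
      change _ = ((∏ a, r a ^ T.w u a : ℂˣ) : ℂ) * _ at h3
      rw [dropExt_eq _ _ _ rfl, dropExt_eq _ _ _ rfl, mul_one,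
        Finset.prod_eq_single (T.lev u)] at h3
      · rw [T.w_lev, zpow_one] at h3
        exact Units.ext h3.symm
      · intro b _ hb
        rw [hw b hb, zpow_zero]
      · intro h
        exact absurd (Finset.mem_univ _) h
    refine ⟨fun a => r a.1, ?_⟩
    rw [← dropN_ext T u hu x.1 hx, drop_act T u hu hw r h2] at h1
    funext v
    have h4 := congrFun h1 v.1
    rw [dropExt_ne] at h4
    exact h4
  · rintro x y ⟨t, ht⟩
    have h1 : dropT (T.lev u) t (T.lev u) = 1 := dif_neg (not_not.2 rfl)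
    have h2 : (fun a : {a : ι // a ≠ T.lev u} => dropT (T.lev u) t a.1) = t := by
      funext a
      exact dif_pos a.2
    refine ⟨dropT (T.lev u) t, ?_⟩
    show dropExt T (T.lev u) y.1 = T.act _ (dropExt T (T.lev u) x.1)
    rw [drop_act T u hu hw _ h1, h2, ht]
  · intro x
    have hx := drop_ne u hu x
    refine ⟨(Pi.mulSingle (T.lev u) (Units.mk0 (x.1 u) hx)⁻¹)⁻¹, ?_⟩
    show x.1 = T.act _ (dropExt T (T.lev u) _)
    rw [dropN_ext T u hu x.1 hx, dropN_act T u x.1 hx, ← act_mul, inv_mul_cancel, act_one]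
  · intro y
    refine ⟨1, ?_⟩
    rw [act_one]
    funext v
    show y.1 v = dropN T u (dropExt T (T.lev u) y.1) v.1
    rw [dropN_of_ext, dropExt_ne]

omit [Fintype ι] in
lemma drop_smooth {T : Tower ι V} {δ : κ → ι → ℤ} {f : κ → MvPolynomial V ℂ}
    (hf : ∀ j, IsForm T (δ j) (f j)) (hs : Smooth T f) (u : V)
    (hu : ∀ v, T.lev v = T.lev u → v = u) :
    Smooth (T.del (T.lev u)) (fun j => delPoly T (T.lev u) 1 (f j)) := by
  classical
  intro z hz
  have hz' := (drop_cone T (T.lev u) f z).2 hz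
  have h1 := hs _ hz'
  rw [Fintype.linearIndependent_iff] at h1 ⊢
  intro y hy
  apply h1 y
  have h2 : ∀ v, v ≠ u → ∑ j, y j * eval (dropExt T (T.lev u) z) (pderiv v (f j)) = 0 := by
    intro v hv
    have hv' : T.lev v ≠ T.lev u := fun h => hv (hu v h)
    have h3 := congrFun hy ⟨v, hv'⟩
    simp only [Finset.sum_apply, Pi.smul_apply, smul_eq_mul, Pi.zero_apply] at h3
    rw [← h3]
    refine Finset.sum_congr rfl fun j _ => ?_
    rw [drop_pderiv, drop_eval]
  funext v
  simp only [Finset.sum_apply, Pi.smul_apply, smul_eq_mul, Pi.zero_apply]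
  by_cases hv : v = u
  · subst hv
    -- Euler
    have h4 : ∀ j, eval (dropExt T (T.lev v) z) (pderiv v (f j)) =
        -∑ w ∈ Finset.univ.erase v, (T.w w (T.lev v) : ℂ) * dropExt T (T.lev v) z w *
          eval (dropExt T (T.lev v) z) (pderiv w (f j)) := by
      intro j
      have h5 := (hf j).euler (T.lev v) (dropExt T (T.lev v) z)
      rw [hz'.2 j, mul_zero, ← Finset.add_sum_erase _ _ (Finset.mem_univ v), T.w_lev,
        dropExt_eq T (T.lev v) z rfl, Int.cast_one, one_mul, one_mul] at h5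
      exact eq_neg_of_add_eq_zero_left h5
    rw [Finset.sum_congr rfl fun j _ => by rw [h4 j]]
    simp only [mul_neg, Finset.mul_sum, Finset.sum_neg_distrib]
    rw [Finset.sum_comm, neg_eq_zero]
    refine Finset.sum_eq_zero fun w hw => ?_
    have h6 := h2 w (Finset.ne_of_mem_erase hw)
    calc ∑ j, y j * ((T.w w (T.lev v) : ℂ) * dropExt T (T.lev v) z w *
          eval (dropExt T (T.lev v) z) (pderiv w (f j))) =
        ((T.w w (T.lev v) : ℂ) * dropExt T (T.lev v) z w) *
          ∑ j, y j * eval (dropExt T (T.lev v) z) (pderiv w (f j)) := by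
          rw [Finset.mul_sum]
          exact Finset.sum_congr rfl fun j _ => by ring
      _ = 0 := by rw [h6, mul_zero]
  · exact h2 v hv

lemma drop_card {A : Type} [Fintype A] [DecidableEq A] (x : A) :
    Fintype.card {a : A // a ≠ x} + 1 = Fintype.card A := by
  have h1 := Fintype.card_subtype_compl (fun a : A => a = x)
  rw [Fintype.card_subtype_eq] at h1
  have : 0 < Fintype.card A := Fintype.card_pos_iff.2 ⟨x⟩
  have h2 : Fintype.card {a : A // a ≠ x} = Fintype.card A - 1 := h1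
  omega

/-- A level with only one coordinate can be dropped. -/
theorem drop {T : Tower ι V} {n : ℕ} {δ : κ → ι → ℤ} {f : κ → MvPolynomial V ℂ}
    (h : IsVar T n δ f) (u : V) (hu : ∀ v, T.lev v = T.lev u → v = u)
    (hw : ∀ b, b ≠ T.lev u → T.w u b = 0) :
    IsVar (T.del (T.lev u)) n (fun j a => δ j a) (fun j => delPoly T (T.lev u) 1 (f j)) ∧
      Nonempty (XSpace T f ≃ₜ
        XSpace (T.del (T.lev u)) (fun j => delPoly T (T.lev u) 1 (f j))) := by
  classical
  have hh := drop_homeo h.form u hu hw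
  obtain ⟨φ⟩ := hh
  refine ⟨⟨fun j z hz => ?_, fun j => drop_form (h.form j) u hu hw,
    drop_smooth h.form h.smooth u hu, ?_, fun a => ?_, ?_⟩, ⟨φ⟩⟩
  · obtain ⟨g, hg, hg0⟩ := h.free j _ ((drop_pt T (T.lev u) z).2 hz)
    exact ⟨delPoly T (T.lev u) 1 g, drop_form hg u hu hw, by rwa [drop_eval]⟩
  · have := h.conn
    exact φ.surjective.connectedSpace φ.continuous
  · rw [h.canonical a.1]
    show _ = ∑ v : {v : V // T.lev v ≠ T.lev u}, T.w v.1 a.1
    rw [← Fintype.sum_subtype_add_sum_subtype (fun v => T.lev v ≠ T.lev u) (fun v => T.w v a.1)]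
    rw [add_eq_left]
    refine Finset.sum_eq_zero fun v _ => ?_
    rw [hu v.1 (not_not.1 v.2)]
    exact hw a.1 a.2
  · have h1 := h.dim
    have h2 : Fintype.card {v : V // T.lev v ≠ T.lev u} + 1 = Fintype.card V := by
      have h3 : Fintype.card {v : V // T.lev v ≠ T.lev u} = Fintype.card {v : V // v ≠ u} := by
        apply Fintype.card_congr
        exact Equiv.subtypeEquivRight fun v => not_congr ⟨hu v, fun h => by rw [h]⟩
      rw [h3]
      exact drop_card u
    have h4 : Fintype.card {a : ι // a ≠ T.lev u} + 1 = Fintype.card ι := drop_card (T.lev u)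
    omega

theorem step_drop {T : Tower ι V} {n : ℕ} {δ : κ → ι → ℤ} {f : κ → MvPolynomial V ℂ}
    (h : IsVar T n δ f) (u : V) (hu : ∀ v, T.lev v = T.lev u → v = u)
    (X : Type) [TopologicalSpace X]
    (hX : Nonempty (X ≃ₜ XSpace T f)) : ∃ N < Fintype.card V, Real n N X := by
  classical
  obtain ⟨φ⟩ := hX
  let M : ι → ℤ := fun b => if b < T.lev u then T.w u b else 0
  have hM : ∀ b, T.lev u ≤ b → M b = 0 := fun b hb => if_neg (not_lt.2 hb)
  obtain ⟨h1, ⟨ψ⟩⟩ := shear_isVar h (T.lev u) M hM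
  have hw : ∀ b, b ≠ (T.shear (T.lev u) M hM).lev u → (T.shear (T.lev u) M hM).w u b = 0 := by
    intro b hb
    change b ≠ T.lev u at hb
    show T.w u b - T.w u (T.lev u) * M b = 0
    rw [T.w_lev, one_mul]
    show T.w u b - (if b < T.lev u then T.w u b else 0) = 0
    split_ifs with hlt
    · ring
    · rw [T.w_gt u b (lt_of_le_of_ne (not_lt.1 hlt) (Ne.symm hb))]
      ring
  obtain ⟨h2, ⟨χ⟩⟩ := drop h1 u hu hw
  refine ⟨Fintype.card {v : V // (T.shear (T.lev u) M hM).lev v ≠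
    (T.shear (T.lev u) M hM).lev u}, ?_, ?_⟩
  · exact Fintype.card_subtype_lt (x := u) (fun h => h rfl)
  · exact ⟨_, _, _, inferInstance, inferInstance, inferInstance, inferInstance, _, _, _, h2, rfl,
      ⟨(φ.trans ψ).trans χ⟩⟩

end Pool.Agent.TOW
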