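import Mathlib
import Pool.Agent.Helper85.TOW.Basic

/-!
# TOW ELIM1: elimination of a variable, algebra
-/

set_option autoImplicit false

namespace Pool.Agent.TOW

open MvPolynomial

variable {ι V κ : Type} [LinearOrder ι]

/-- A monomial of degree `w v` containing `v` is `x_v`. -/
theorem elim1_mon [Fintype V] (T : Tower ι V) (v : V) (m : V →₀ ℕ)
    (hm : ∀ a, ∑ u, (m u : ℤ) * T.w u a = T.w v a) (hv : m v ≠ 0) : m = Finsupp.single v 1 := by
  classical
  have hle : Finsupp.single v 1 ≤ m := by
    rw [Finsupp.single_le_iff]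
    omega
  have h0 : m - Finsupp.single v 1 = 0 := by
    refine mon_zero T _ fun a => ?_
    have h1 : ∀ u, (((m - Finsupp.single v 1 : V →₀ ℕ) u : ℕ) : ℤ) * T.w u a =
        (m u : ℤ) * T.w u a - (if v = u then T.w v a else 0) := by
      intro u
      rw [Finsupp.tsub_apply, Nat.cast_sub (hle u), sub_mul]
      congr 1
      by_cases h : v = u
      · rw [if_pos h, ← h, Finsupp.single_eq_same]
        simp
      · rw [if_neg h, Finsupp.single_eq_of_ne' h]
        simp
    rw [Finset.sum_congr rfl fun u _ => h1 u, Finset.sum_sub_distrib, hm a,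
      Finset.sum_ite_eq, if_pos (Finset.mem_univ v), sub_self]
  have := tsub_add_cancel_of_le hle
  rw [h0, zero_add] at this
  exact this.symm

/-- A monomial of degree `w v` contains a coordinate of the level of `v`. -/
theorem elim1_lev [Fintype V] (T : Tower ι V) (v : V) (m : V →₀ ℕ)
    (hm : ∀ a, ∑ u, (m u : ℤ) * T.w u a = T.w v a) : ∃ u, T.lev u = T.lev v ∧ m u ≠ 0 := by
  classical
  obtain ⟨-, h⟩ := mon_top T m (T.w v) hm (T.lev v) fun b hb => T.w_gt v b hb
  rw [T.w_lev] at h
  by_contra hcon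
  push Not at hcon
  have : ∑ u with T.lev u = T.lev v, (m u : ℤ) = 0 := by
    refine Finset.sum_eq_zero fun u hu => ?_
    rw [hcon u (Finset.mem_filter.1 hu).2, Nat.cast_zero]
  rw [this] at h
  exact zero_ne_one h

/-- An equation of degree `w v` whose coefficient at `x_v` is nonzero. -/
theorem elim_shape [Fintype ι] [Fintype V] [Fintype κ] {T : Tower ι V} {n : ℕ} {δ : κ → ι → ℤ}
    {f : κ → MvPolynomial V ℂ} (h : IsVar T n δ f) (j : κ) (v : V) (hj : δ j = T.w v)
    (hc : coeff (Finsupp.single v 1) (f j) ≠ 0) :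
    (∃ u, u ≠ v ∧ T.lev u = T.lev v) ∧
    ∃ (c : ℂ) (g : MvPolynomial {u : V // u ≠ v} ℂ), c ≠ 0 ∧
      f j = C c * (X v - rename Subtype.val g) ∧ IsForm T (T.w v) (rename Subtype.val g) ∧
      ∀ z : {u : V // u ≠ v} → ℂ, (∀ u, T.lev u.1 = T.lev v → z u = 0) → eval z g = 0 := by
  classical
  set c := coeff (Finsupp.single v 1) (f j) with hcdef
  have hform : IsForm T (T.w v) (f j) := hj ▸ h.form j
  set p : MvPolynomial V ℂ := X v - C c⁻¹ * f j with hp
  have hpform : IsForm T (T.w v) p := (isForm_X T v).sub (hform.C_mul c⁻¹)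
  have hpv : ∀ m ∈ p.support, m v = 0 := by
    intro m hm
    by_contra hmv
    have h1 := elim1_mon T v m (hpform m hm) hmv
    rw [mem_support_iff] at hm
    apply hm
    rw [h1, hp, coeff_sub, coeff_C_mul, coeff_X, ← hcdef, inv_mul_cancel₀ hc, if_pos rfl, sub_self]
  have hfj : f j = C c * (X v - p) := by
    rw [hp, sub_sub_cancel, ← mul_assoc, ← C_mul, mul_inv_cancel₀ hc, C_1, one_mul]
  have hvars : (↑p.vars : Set V) ⊆ Set.range (Subtype.val : {u : V // u ≠ v} → V) := by
    intro u hu
    rw [Subtype.range_val]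
    rintro rfl
    obtain ⟨m, hm, hmu⟩ := (mem_vars_iff_mem_support _).1 (Finset.mem_coe.1 hu)
    exact (Finsupp.mem_support_iff.1 hmu) (hpv m hm)
  obtain ⟨g, hg⟩ := exists_rename_eq_of_vars_subset_range p _ Subtype.val_injective hvars
  have heval : ∀ Z : V → ℂ, (∀ u, u ≠ v → T.lev u = T.lev v → Z u = 0) → eval Z p = 0 := by
    intro Z hZ
    rw [eval_eq']
    refine Finset.sum_eq_zero fun m hm => ?_
    obtain ⟨u, hu, hmu⟩ := elim1_lev T v m (hpform m hm)
    have huv : u ≠ v := by
      rintro rfl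
      exact hmu (hpv m hm)
    rw [Finset.prod_eq_zero (Finset.mem_univ u) (by rw [hZ u huv hu, zero_pow hmu]), mul_zero]
  refine ⟨?_, c, g, hc, by rw [hg]; exact hfj, by rw [hg]; exact hpform, fun z hz => ?_⟩
  · by_contra hcon
    push Not at hcon
    obtain ⟨⟨z, hz⟩⟩ := h.conn.toNonempty
    obtain ⟨u, hu, hzu⟩ := hz.1 (T.lev v)
    have huv : u = v := by
      by_contra hne
      exact hcon u hne hu
    rw [huv] at hzu
    have h1 := hz.2 j
    rw [hfj, eval_mul, eval_C, eval_sub, eval_X, heval z fun u hu hu' => absurd hu' (hcon u hu),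
      sub_zero] at h1
    exact (mul_ne_zero hc hzu) h1
  · have h1 := heval (fun u => if h : u ≠ v then z ⟨u, h⟩ else 0) (by
      intro u hu hu'
      simp only [dif_pos hu]
      exact hz ⟨u, hu⟩ hu')
    rw [← hg, eval_rename] at h1
    rw [← h1]
    congr 2
    funext u
    simp only [Function.comp, dif_pos u.2]

open Classical in
theorem elim_eval [Fintype V] (v : V) (g : MvPolynomial {u : V // u ≠ v} ℂ)
    (f : MvPolynomial V ℂ) (z : {u : V // u ≠ v} → ℂ) :
    eval z (elimPoly v g f) = eval (fun u => if h : u = v then eval z g else z ⟨u, h⟩) f := by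
  rw [elimPoly, aeval_def, algebraMap_eq, ← eval_assoc]
  congr 2
  funext u
  by_cases hu : u = v
  · simp only [Function.comp, dif_pos hu]
  · simp only [Function.comp, dif_neg hu, eval_X]

open Classical in
theorem elim_pderiv [Fintype V] (v : V) (g : MvPolynomial {u : V // u ≠ v} ℂ)
    (f : MvPolynomial V ℂ) (u : {u : V // u ≠ v}) :
    pderiv u (elimPoly v g f) =
      elimPoly v g (pderiv u.1 f) + pderiv u g * elimPoly v g (pderiv v f) := by
  induction f using MvPolynomial.induction_on with
  | C a =>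
    have h1 : elimPoly v g (C a) = C a := by
      rw [elimPoly, aeval_C, algebraMap_eq]
    rw [h1]
    simp
  | add p q hp hq =>
    simp only [map_add, hp, hq]
    ring
  | mul_X p n hp =>
    by_cases hn : n = v
    · subst hn
      have h1 : elimPoly n g (X n) = g := by
        rw [elimPoly, aeval_X, dif_pos rfl]
      have h2 : (pderiv u.1) (X n : MvPolynomial V ℂ) = 0 := pderiv_X_of_ne u.2.symm
      simp only [map_mul, Derivation.leibniz, smul_eq_mul, map_add, h1, h2, hp, pderiv_X_self,
        map_one, map_zero]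
      ring
    · have h1 : elimPoly v g (X n) = X ⟨n, hn⟩ := by
        rw [elimPoly, aeval_X, dif_neg hn]
      have h2 : (pderiv v) (X n : MvPolynomial V ℂ) = 0 := pderiv_X_of_ne hn
      by_cases hu : u = ⟨n, hn⟩
      · subst hu
        simp only [map_mul, Derivation.leibniz, smul_eq_mul, map_add, h1, h2, hp, pderiv_X_self,
          map_one, map_zero]
        ring
      · have h3 : (pderiv u) (X (⟨n, hn⟩ : {u : V // u ≠ v}) : MvPolynomial _ ℂ) = 0 :=
          pderiv_X_of_ne fun h => hu h.symm
        have h4 : (pderiv u.1) (X n : MvPolynomial V ℂ) = 0 :=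
          pderiv_X_of_ne fun h => hu (Subtype.ext h.symm)
        simp only [map_mul, Derivation.leibniz, smul_eq_mul, map_add, h1, h2, h3, h4, hp,
          map_zero]
        ring

open Classical in
theorem elim_form [Fintype ι] [Fintype V] {T : Tower ι V} {v : V}
    (h : ∃ u, u ≠ v ∧ T.lev u = T.lev v) {g : MvPolynomial {u : V // u ≠ v} ℂ}
    (hg : IsForm T (T.w v) (rename Subtype.val g)) {δ : ι → ℤ} {f : MvPolynomial V ℂ}
    (hf : IsForm T δ f) : IsForm (T.erase v h) δ (elimPoly v g f) := by
  rw [isForm_iff]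
  intro t z
  rw [elim_eval, elim_eval, ← hf.eval_act]
  congr 2
  funext u
  by_cases hu : u = v
  · subst hu
    have h1 := hg.eval_act t (fun w => if h : w = u then 0 else z ⟨w, h⟩)
    rw [eval_rename, eval_rename] at h1
    have h2 : (T.act t (fun w => if h : w = u then 0 else z ⟨w, h⟩)) ∘ Subtype.val =
        (T.erase u h).act t z := by
      funext w
      show _ * (if h : w.1 = u then 0 else z ⟨w.1, h⟩) = _
      rw [dif_neg w.2]
      rfl
    have h3 : ((fun w => if h : w = u then 0 else z ⟨w, h⟩) ∘ Subtype.val :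
        {w : V // w ≠ u} → ℂ) = z := by
      funext w
      show (if h : w.1 = u then 0 else z ⟨w.1, h⟩) = _
      rw [dif_neg w.2]
    rw [h2, h3] at h1
    simp only [Tower.act, dite_true] at h1 ⊢
    exact h1
  · simp only [Tower.act, dif_neg hu]
    rfl

open Classical in
theorem elim_free [Fintype ι] [Fintype V] {T : Tower ι V} {v : V}
    (h : ∃ u, u ≠ v ∧ T.lev u = T.lev v) {δ : ι → ℤ} (hδ : Free T δ) :
    Free (T.erase v h) δ := by
  intro z hz
  obtain ⟨F, hF, hF0⟩ := hδ (fun w => if h : w = v then 0 else z ⟨w, h⟩) (by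
    intro a
    obtain ⟨u, hu, hzu⟩ := hz a
    refine ⟨u.1, hu, ?_⟩
    show (if h : u.1 = v then 0 else z ⟨u.1, h⟩) ≠ 0
    rw [dif_neg u.2]
    exact hzu)
  refine ⟨elimPoly v 0 F, elim_form h ?_ hF, ?_⟩
  · rw [map_zero]
    exact isForm_zero T _
  · rw [elim_eval]
    simpa using hF0

end Pool.Agent.TOW
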