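import Mathlib
import Pool.Agent.Helper85.TOW.Basic
import Pool.Agent.Helper18.CYT.Alg1
import Pool.Agent.Helper18.CYT.Alg2

/-!
# TOW LINE: finitely many bad parameters on a line
-/

set_option autoImplicit false

namespace Pool.Agent.TOW

open MvPolynomial

variable {ι V κ : Type} [LinearOrder ι]

/-- The equations and the dependence of the gradients, over a ring `R` with `ψ : ℂ → R` and the
parameter `X`. -/
def line_Sys [Fintype κ] (f0 f1 : κ → MvPolynomial V ℂ) {R : Type}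
    [CommRing R] (ψ : ℂ →+* R) (X : R) (z : V → R) (y : κ → R) : Prop :=
  (∀ j, (1 - X) * eval₂ ψ z (f0 j) + X * eval₂ ψ z (f1 j) = 0) ∧
    ∀ v, ∑ j, y j * ((1 - X) * eval₂ ψ z (pderiv v (f0 j)) + X * eval₂ ψ z (pderiv v (f1 j))) = 0

theorem line_Sys_map [Fintype κ] {f0 f1 : κ → MvPolynomial V ℂ}
    {R S : Type} [CommRing R] [CommRing S] {ψ : ℂ →+* R} {X : R} {z : V → R} {y : κ → R}
    (φ : R →+* S) (h : line_Sys f0 f1 ψ X z y) :
    line_Sys f0 f1 (φ.comp ψ) (φ X) (fun v => φ (z v)) (fun j => φ (y j)) := by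
  have key : ∀ g : MvPolynomial V ℂ, eval₂ (φ.comp ψ) (fun v => φ (z v)) g = φ (eval₂ ψ z g) :=
    fun g => (eval₂_comp_left φ ψ z g).symm
  refine ⟨fun j => ?_, fun v => ?_⟩
  · rw [key, key]
    have := congrArg φ (h.1 j)
    simpa using this
  · have := congrArg φ (h.2 v)
    simpa [key] using this

theorem line_Sys_of_map [Fintype κ] {f0 f1 : κ → MvPolynomial V ℂ}
    {R S : Type} [CommRing R] [CommRing S] {ψ : ℂ →+* R} {X : R} {z : V → R} {y : κ → R}
    (φ : R →+* S) (hφ : Function.Injective φ)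
    (h : line_Sys f0 f1 (φ.comp ψ) (φ X) (fun v => φ (z v)) (fun j => φ (y j))) :
    line_Sys f0 f1 ψ X z y := by
  have key : ∀ g : MvPolynomial V ℂ, eval₂ (φ.comp ψ) (fun v => φ (z v)) g = φ (eval₂ ψ z g) :=
    fun g => (eval₂_comp_left φ ψ z g).symm
  refine ⟨fun j => hφ ?_, fun v => hφ ?_⟩
  · have := h.1 j
    rw [key, key] at this
    simpa using this
  · have := h.2 v
    simpa [key] using this

theorem line_Sys_scale [Fintype ι] [Fintype V] [Fintype κ] {T : Tower ι V} {δ : κ → ι → ℤ}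
    {f0 f1 : κ → MvPolynomial V ℂ}
    (h0 : ∀ j, IsForm T (δ j) (f0 j)) (h1 : ∀ j, IsForm T (δ j) (f1 j))
    {F : Type} [Field F] {ψ : ℂ →+* F} {X : F} {z : V → F} {y : κ → F}
    (h : line_Sys f0 f1 ψ X z y) (t : ι → Fˣ) (d : F) :
    line_Sys f0 f1 ψ X (T.act t z) (fun j => d * (y j * ((∏ a, t a ^ δ j a : Fˣ) : F)⁻¹)) := by
  let _ : Algebra ℂ F := ψ.toAlgebra
  have hP : ∀ j, ((∏ a, t a ^ δ j a : Fˣ) : F) ≠ 0 := fun j => Units.ne_zero _
  have hw : ∀ v, ((∏ a, t a ^ T.w v a : Fˣ) : F) ≠ 0 := fun v => Units.ne_zero _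
  have hsub : ∀ j v, ((∏ a, t a ^ T.w v a : Fˣ) : F) * ((∏ a, t a ^ (δ j - T.w v) a : Fˣ) : F) =
      ((∏ a, t a ^ δ j a : Fˣ) : F) := by
    intro j v
    rw [← Units.val_mul, ← Finset.prod_mul_distrib]
    congr 1
    refine Finset.prod_congr rfl fun a _ => ?_
    rw [← zpow_add, Pi.sub_apply]
    congr 1
    ring
  have e0 : ∀ j, eval₂ ψ (T.act t z) (f0 j) =
      ((∏ a, t a ^ δ j a : Fˣ) : F) * eval₂ ψ z (f0 j) := fun j => (h0 j).aeval_act (K := F) t z
  have e1 : ∀ j, eval₂ ψ (T.act t z) (f1 j) =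
      ((∏ a, t a ^ δ j a : Fˣ) : F) * eval₂ ψ z (f1 j) := fun j => (h1 j).aeval_act (K := F) t z
  have d0 : ∀ j v, ((∏ a, t a ^ T.w v a : Fˣ) : F) * eval₂ ψ (T.act t z) (pderiv v (f0 j)) =
      ((∏ a, t a ^ δ j a : Fˣ) : F) * eval₂ ψ z (pderiv v (f0 j)) := fun j v => by
    have := ((h0 j).pderiv v).aeval_act (K := F) t z
    change eval₂ ψ (T.act t z) (pderiv v (f0 j)) = _ * eval₂ ψ z (pderiv v (f0 j)) at this
    rw [this, ← mul_assoc, hsub]
  have d1 : ∀ j v, ((∏ a, t a ^ T.w v a : Fˣ) : F) * eval₂ ψ (T.act t z) (pderiv v (f1 j)) =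
      ((∏ a, t a ^ δ j a : Fˣ) : F) * eval₂ ψ z (pderiv v (f1 j)) := fun j v => by
    have := ((h1 j).pderiv v).aeval_act (K := F) t z
    change eval₂ ψ (T.act t z) (pderiv v (f1 j)) = _ * eval₂ ψ z (pderiv v (f1 j)) at this
    rw [this, ← mul_assoc, hsub]
  refine ⟨fun j => ?_, fun v => ?_⟩
  · rw [e0, e1]
    linear_combination ((∏ a, t a ^ δ j a : Fˣ) : F) * h.1 j
  · refine (mul_eq_zero.1 ?_).resolve_left (hw v)
    rw [Finset.mul_sum]
    have : ∀ j, ((∏ a, t a ^ T.w v a : Fˣ) : F) * (d * (y j * ((∏ a, t a ^ δ j a : Fˣ) : F)⁻¹) *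
        ((1 - X) * eval₂ ψ (T.act t z) (pderiv v (f0 j)) +
          X * eval₂ ψ (T.act t z) (pderiv v (f1 j)))) =
        d * (y j * ((1 - X) * eval₂ ψ z (pderiv v (f0 j)) + X * eval₂ ψ z (pderiv v (f1 j)))) := by
      intro j
      have a0 := d0 j v
      have a1 := d1 j v
      have hPj := hP j
      generalize ((∏ a, t a ^ δ j a : Fˣ) : F) = P at *
      field_simp
      linear_combination (1 - X) * d * y j * a0 + X * d * y j * a1
    rw [Finset.sum_congr rfl fun j _ => this j, ← Finset.mul_sum, h.2 v, mul_zero]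

/-- Normalisation of the coordinates, level by level. -/
theorem line_norm [Fintype ι] [Fintype V] (T : Tower ι V) {F : Type} [Field F]
    (O : ValuationSubring F) (z : V → F) (hz : ∀ a, ∃ v, T.lev v = a ∧ z v ≠ 0) :
    ∃ t : ι → Fˣ, (∀ v, T.act t z v ∈ O) ∧ ∀ a, ∃ v, T.lev v = a ∧ T.act t z v = 1 := by
  classical
  have key : ∀ s : Finset ι, ∃ t : ι → Fˣ, (∀ v, T.lev v ∈ s → T.act t z v ∈ O) ∧
      ∀ a ∈ s, ∃ v, T.lev v = a ∧ T.act t z v = 1 := by
    intro s
    induction s using Finset.induction_on_max with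
    | empty => exact ⟨1, fun v hv => absurd hv (Finset.notMem_empty _),
        fun a ha => absurd ha (Finset.notMem_empty _)⟩
    | insert a s hs ih =>
      obtain ⟨t, ht1, ht2⟩ := ih
      have hne : (fun v : {v : V // T.lev v = a} => T.act t z v.1) ≠ 0 := by
        obtain ⟨v, hv1, hv2⟩ := hz a
        intro h0
        have h1 := congrFun h0 ⟨v, hv1⟩
        have h2 : ((∏ a, t a ^ T.w v a : Fˣ) : F) * z v = 0 := h1
        rcases mul_eq_zero.1 h2 with h3 | h3
        · exact Units.ne_zero _ h3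
        · exact hv2 h3
      obtain ⟨c, hc0, hc1, ⟨u, hu⟩, hc2⟩ := CYT.norm_vec O _ hne
      let t' : ι → Fˣ := Function.update 1 a (Units.mk0 c hc0)
      have hprod : ∀ v, ∏ b, t' b ^ T.w v b = (Units.mk0 c hc0) ^ T.w v a := by
        intro v
        rw [Finset.prod_eq_single a]
        · simp [t']
        · intro b _ hb
          simp [t', hb]
        · intro h4
          exact absurd (Finset.mem_univ _) h4
      have hact : ∀ v, T.act (t' * t) z v = (((Units.mk0 c hc0) ^ T.w v a : Fˣ) : F) *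
          T.act t z v := by
        intro v
        rw [act_mul]
        show ((∏ b, t' b ^ T.w v b : Fˣ) : F) * T.act t z v = _
        rw [hprod]
      have h1 : ∀ v, T.lev v = a → T.act (t' * t) z v = c * T.act t z v := by
        intro v hv
        rw [hact, ← hv, T.w_lev, zpow_one]
        rfl
      have h2 : ∀ v, T.lev v < a → T.act (t' * t) z v = T.act t z v := by
        intro v hv
        rw [hact, T.w_gt v a hv, zpow_zero, Units.val_one, one_mul]
      refine ⟨t' * t, ?_, ?_⟩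
      · intro v hv
        rcases Finset.mem_insert.1 hv with hv | hv
        · rw [h1 v hv]
          exact hc1 ⟨v, hv⟩
        · rw [h2 v (hs _ hv)]
          exact ht1 v hv
      · intro b hb
        rcases Finset.mem_insert.1 hb with hb | hb
        · refine ⟨u, hu.trans hb.symm, ?_⟩
          rw [h1 u hu]
          exact hc2
        · obtain ⟨v, hv1, hv2⟩ := ht2 b hb
          refine ⟨v, hv1, ?_⟩
          rw [h2 v (hv1 ▸ hs _ hb)]
          exact hv2
  obtain ⟨t, ht1, ht2⟩ := key Finset.univ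
  exact ⟨t, fun v => ht1 v (Finset.mem_univ _), fun a => ht2 a (Finset.mem_univ _)⟩

/-- The system of polynomials. -/
noncomputable def line_poly [Fintype κ] (f0 f1 : κ → MvPolynomial V ℂ)
    {A : Type} [CommRing A] (g : ℂ →+* A) (X : A) (a : ι → V) (j0 : κ) :
    (κ ⊕ V) ⊕ (ι ⊕ Unit) → MvPolynomial (V ⊕ κ) A
  | Sum.inl (Sum.inl j) =>
      C (1 - X) * rename Sum.inl (map g (f0 j)) + C X * rename Sum.inl (map g (f1 j))
  | Sum.inl (Sum.inr v) => ∑ j, MvPolynomial.X (Sum.inr j) *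
      (C (1 - X) * rename Sum.inl (map g (pderiv v (f0 j))) +
        C X * rename Sum.inl (map g (pderiv v (f1 j))))
  | Sum.inr (Sum.inl i) => MvPolynomial.X (Sum.inl (a i)) - 1
  | Sum.inr (Sum.inr _) => MvPolynomial.X (Sum.inr j0) - 1

omit [LinearOrder ι] in
theorem line_poly_iff [Fintype κ] (f0 f1 : κ → MvPolynomial V ℂ)
    {A : Type} [CommRing A] (g : ℂ →+* A) (X : A) (a : ι → V) (j0 : κ)
    {R : Type} [CommRing R] (φ : A →+* R) (x : V ⊕ κ → R) :
    (∀ α, eval₂ φ x (line_poly f0 f1 g X a j0 α) = 0) ↔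
      line_Sys f0 f1 (φ.comp g) (φ X) (fun v => x (Sum.inl v)) (fun j => x (Sum.inr j)) ∧
        (∀ i, x (Sum.inl (a i)) = 1) ∧ x (Sum.inr j0) = 1 := by
  have key : ∀ f : MvPolynomial V ℂ, eval₂ φ x (rename Sum.inl (map g f)) =
      eval₂ (φ.comp g) (fun v => x (Sum.inl v)) f := by
    intro f
    rw [eval₂_rename, eval₂_map]; rfl
  constructor
  · intro h
    refine ⟨⟨fun j => ?_, fun v => ?_⟩, fun i => ?_, ?_⟩
    · have := h (Sum.inl (Sum.inl j))
      simpa [line_poly, key] using this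
    · have := h (Sum.inl (Sum.inr v))
      simpa [line_poly, key, eval₂_sum] using this
    · have := h (Sum.inr (Sum.inl i))
      simpa [line_poly, sub_eq_zero] using this
    · have := h (Sum.inr (Sum.inr ()))
      simpa [line_poly, sub_eq_zero] using this
  · rintro ⟨⟨h1, h2⟩, h3, h4⟩ ((j | v) | (i | _))
    · simpa [line_poly, key] using h1 j
    · simpa [line_poly, key, eval₂_sum] using h2 v
    · simpa [line_poly, sub_eq_zero] using h3 i
    · simpa [line_poly, sub_eq_zero] using h4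

theorem finite_bad [Fintype ι] [Fintype V] [Fintype κ] (T : Tower ι V) (δ : κ → ι → ℤ)
    (f0 f1 : κ → MvPolynomial V ℂ) (h0 : ∀ j, IsForm T (δ j) (f0 j))
    (h1 : ∀ j, IsForm T (δ j) (f1 j)) (hs : Smooth T f0) :
    {s : ℂ | ¬ Smooth T (lineEq f0 f1 s)}.Finite := by
  classical
  by_contra hinf
  have hinf : {s : ℂ | ¬ Smooth T (lineEq f0 f1 s)}.Infinite := hinf
  -- bad parameters give normalised solutions
  have hbad : ∀ s ∈ {s : ℂ | ¬ Smooth T (lineEq f0 f1 s)}, ∃ (p : (ι → V) × κ),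
      (∀ i, T.lev (p.1 i) = i) ∧ ∃ (x : V ⊕ κ → ℂ),
        line_Sys f0 f1 (RingHom.id ℂ) s (fun v => x (Sum.inl v))
        (fun j => x (Sum.inr j)) ∧ (∀ i, x (Sum.inl (p.1 i)) = 1) ∧ x (Sum.inr p.2) = 1 := by
    intro s hsb
    simp only [Set.mem_ofPred_eq, Smooth, not_forall] at hsb
    obtain ⟨z, hz, hlin⟩ := hsb
    rw [Fintype.linearIndependent_iff] at hlin
    push Not at hlin
    obtain ⟨y, hy, j0, hj0⟩ := hlin
    have hev : ∀ g : MvPolynomial V ℂ, eval₂ (RingHom.id ℂ) z g = eval z g := fun g => rfl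
    have hS : line_Sys f0 f1 (RingHom.id ℂ) s z y := by
      refine ⟨fun j => ?_, fun v => ?_⟩
      · have := hz.2 j
        simpa [lineEq, hev] using this
      · have := congrFun hy v
        simp only [Finset.sum_apply, Pi.smul_apply, smul_eq_mul, Pi.zero_apply] at this
        rw [← this]
        refine Finset.sum_congr rfl fun j _ => ?_
        simp [lineEq, hev, Derivation.leibniz]
    obtain ⟨t, -, ht⟩ := line_norm T (⊤ : ValuationSubring ℂ) z hz.1
    choose a ha1 ha2 using ht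
    have hP : ((∏ b, t b ^ δ j0 b : ℂˣ) : ℂ) ≠ 0 := Units.ne_zero _
    have hS' := line_Sys_scale h0 h1 hS t (y j0 * ((∏ b, t b ^ δ j0 b : ℂˣ) : ℂ)⁻¹)⁻¹
    refine ⟨(a, j0), ha1, Sum.elim _ _, hS', fun i => ?_, ?_⟩
    · simp only [Sum.elim_inl]
      exact ha2 i
    · simp only [Sum.elim_inr]
      exact inv_mul_cancel₀ (mul_ne_zero hj0 (inv_ne_zero hP))
  obtain ⟨⟨a, j0⟩, hp0⟩ : ∃ p : (ι → V) × κ, {s : ℂ | (∀ i, T.lev (p.1 i) = i) ∧
      ∃ x : V ⊕ κ → ℂ,
      line_Sys f0 f1 (RingHom.id ℂ) s (fun v => x (Sum.inl v)) (fun j => x (Sum.inr j)) ∧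
        (∀ i, x (Sum.inl (p.1 i)) = 1) ∧ x (Sum.inr p.2) = 1}.Infinite := by
    by_contra hcon
    refine hinf ((Set.finite_iUnion fun p => not_not.1 fun h => hcon ⟨p, h⟩).subset
      fun s hs => ?_)
    obtain ⟨p, h, x, h'⟩ := hbad s hs
    exact Set.mem_iUnion.2 ⟨p, h, x, h'⟩
  have hlev : ∀ i, T.lev (a i) = i := by
    obtain ⟨s, hs⟩ := hp0.nonempty
    exact hs.1
  -- a generic solution
  let K := FractionRing (Polynomial ℂ)
  let F := AlgebraicClosure K
  have hF : Function.Injective (algebraMap (Polynomial ℂ) F) := by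
    rw [IsScalarTower.algebraMap_eq (Polynomial ℂ) K F]
    exact (algebraMap K F).injective.comp (IsFractionRing.injective (Polynomial ℂ) K)
  obtain ⟨x, hx⟩ := CYT.exists_generic_solution (F := F) hF
    (line_poly f0 f1 (Polynomial.C : ℂ →+* Polynomial ℂ) Polynomial.X a j0) (by
      refine hp0.mono ?_
      rintro s ⟨-, x, hx1, hx2, hx3⟩
      refine ⟨x, ?_⟩
      rw [line_poly_iff]
      refine ⟨?_, hx2, hx3⟩
      have e1 : (Polynomial.evalRingHom s).comp Polynomial.C = RingHom.id ℂ := by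
        ext c; simp
      rw [e1]
      simpa using hx1)
  have hx' : ∀ α, eval₂ (algebraMap (Polynomial ℂ) F) x
      (line_poly f0 f1 (Polynomial.C : ℂ →+* Polynomial ℂ) Polynomial.X a j0 α) = 0 := hx
  rw [line_poly_iff] at hx'
  obtain ⟨hxS, hxa, hxj⟩ := hx'
  obtain ⟨O, hO, hO0⟩ := CYT.exists_place hF 0
  -- normalise
  obtain ⟨t, htO, ht1⟩ := line_norm T O (fun v => x (Sum.inl v)) fun i => ⟨a i, hlev i, by
    show x (Sum.inl (a i)) ≠ 0
    rw [hxa i]
    exact one_ne_zero⟩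
  choose a' ha1 ha' using ht1
  have hPc : ∀ j, ((∏ b, t b ^ δ j b : Fˣ) : F) ≠ 0 := fun j => Units.ne_zero _
  obtain ⟨d, hd0, hdO, j1, hj1⟩ := CYT.norm_vec O
    (fun j => x (Sum.inr j) * ((∏ b, t b ^ δ j b : Fˣ) : F)⁻¹) fun h => by
      have := congrFun h j0
      simp only [hxj, one_mul, Pi.zero_apply] at this
      exact inv_ne_zero (hPc j0) this
  have hS2 := line_Sys_scale h0 h1 hxS t d
  -- pass to the valuation ring
  let ψO : ℂ →+* O := ((algebraMap (Polynomial ℂ) F).comp Polynomial.C).codRestrict O.toSubring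
    fun s => hO _
  have hS3 : line_Sys f0 f1 ψO (⟨algebraMap (Polynomial ℂ) F Polynomial.X, hO _⟩ : O)
      (fun v => ⟨T.act t (fun v => x (Sum.inl v)) v, htO v⟩) (fun j => ⟨_, hdO j⟩) :=
    line_Sys_of_map O.subtype Subtype.val_injective hS2
  have hS4 := line_Sys_map (IsLocalRing.residue O) hS3
  have hX0 : IsLocalRing.residue O (⟨algebraMap (Polynomial ℂ) F Polynomial.X, hO _⟩ : O) = 0 := by
    rw [IsLocalRing.residue_eq_zero_iff]
    rw [map_zero, sub_zero] at hO0
    exact ValuationSubring.mem_nonunits_iff_exists_mem_maximalIdeal.1 hO0 |>.2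
  rw [hX0] at hS4
  let _ : Algebra ℂ (IsLocalRing.ResidueField O) := ((IsLocalRing.residue O).comp ψO).toAlgebra
  obtain ⟨w, hw⟩ := CYT.exists_complex_solution (F := IsLocalRing.ResidueField O)
    (line_poly f0 f1 (RingHom.id ℂ) 0 a' j1)
    ⟨Sum.elim _ _, (line_poly_iff f0 f1 (RingHom.id ℂ) 0 a' j1
      (algebraMap ℂ (IsLocalRing.ResidueField O)) _).2 ⟨by
        rw [map_zero]
        exact hS4, fun i => by
          simp only [Sum.elim_inl]
          have : (⟨T.act t (fun v => x (Sum.inl v)) (a' i), htO (a' i)⟩ : O) = 1 :=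
            Subtype.ext (ha' i)
          rw [this]
          exact map_one (IsLocalRing.residue O), by
          simp only [Sum.elim_inr]
          have : (⟨d * (x (Sum.inr j1) * ((∏ b, t b ^ δ j1 b : Fˣ) : F)⁻¹), hdO j1⟩ : O) = 1 :=
            Subtype.ext hj1
          rw [this]
          exact map_one (IsLocalRing.residue O)⟩⟩
  have hw' : ∀ α, eval₂ (RingHom.id ℂ) w (line_poly f0 f1 (RingHom.id ℂ) 0 a' j1 α) = 0 := hw
  rw [line_poly_iff] at hw'
  obtain ⟨⟨hw1, hw2⟩, hw3, hw4⟩ := hw'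
  have hcone : (fun v => w (Sum.inl v)) ∈ Cone T f0 := by
    refine ⟨fun i => ⟨a' i, ha1 i, ?_⟩, fun j => ?_⟩
    · show w (Sum.inl (a' i)) ≠ 0
      rw [hw3 i]; exact one_ne_zero
    · have := hw1 j
      simp only [map_zero, sub_zero, one_mul, zero_mul, add_zero] at this
      exact this
  have hind := Fintype.linearIndependent_iff.1 (hs _ hcone) (fun j => w (Sum.inr j)) (by
    funext v
    have := hw2 v
    simp only [map_zero, sub_zero, one_mul, zero_mul, add_zero] at this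
    simp only [Finset.sum_apply, Pi.smul_apply, smul_eq_mul, Pi.zero_apply]
    exact this) j1
  rw [hw4] at hind
  exact one_ne_zero hind

end Pool.Agent.TOW
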