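import Mathlib
import Pool.Agent.Helper85.TOW.Basic

/-!
# TOW SLICE: the slice of the action of the positive reals (Kempf-Ness)
-/

set_option autoImplicit false

namespace Pool.Agent.TOW

open MvPolynomial

variable {ι V : Type} [LinearOrder ι] [Fintype ι] [Fintype V]

/-- the exponent -/
private noncomputable def Lw (T : Tower ι V) (v : V) (u : ι → ℝ) : ℝ := ∑ b, (T.w v b : ℝ) * u b

private theorem norm_act (T : Tower ι V) (t : ι → ℂˣ) (z : V → ℂ) (v : V) :
    ‖T.act t z v‖ = Real.exp (Lw T v fun b => Real.log ‖(t b : ℂ)‖) * ‖z v‖ := by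
  unfold Tower.act Lw
  rw [norm_mul, Units.coe_prod, norm_prod, Real.exp_sum]
  congr 1
  refine Finset.prod_congr rfl fun b _ => ?_
  have h : 0 < ‖(t b : ℂ)‖ := norm_pos_iff.2 (t b).ne_zero
  rw [Units.val_zpow_eq_zpow_val, norm_zpow, mul_comm, Real.exp_mul, Real.exp_log h,
    Real.rpow_intCast]

private theorem norm_actU (T : Tower ι V) (u : ι → ℝ) (z : V → ℂ) (v : V) :
    ‖T.act (fun a => expU (u a)) z v‖ = Real.exp (Lw T v u) * ‖z v‖ := by
  rw [norm_act]
  have : (fun b => Real.log ‖((expU (u b) : ℂˣ) : ℂ)‖) = u := by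
    funext b
    simp only [expU, Units.val_mk0]
    rw [Complex.norm_real, Real.norm_eq_abs, abs_of_pos (Real.exp_pos _), Real.log_exp]
  rw [this]

private theorem sliceU (T : Tower ι V) (u : ι → ℝ) (z : V → ℂ) :
    OnSlice T (T.act (fun a => expU (u a)) z) ↔
      ∀ a, ∑ v, (T.w v a : ℝ) * (‖z v‖ ^ 2 * Real.exp (2 * Lw T v u)) = 1 := by
  unfold OnSlice
  refine forall_congr' fun a => ?_
  have : ∀ v, (T.w v a : ℝ) * ‖T.act (fun a => expU (u a)) z v‖ ^ 2 =
      (T.w v a : ℝ) * (‖z v‖ ^ 2 * Real.exp (2 * Lw T v u)) := by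
    intro v
    rw [norm_actU, mul_pow, two_mul, Real.exp_add]
    ring
  simp only [this]

theorem slice_pt {T : Tower ι V} (hT : T.IsNorm) (z : V → ℂ) (h : OnSlice T z) : z ∈ Pt T := by
  intro a
  by_contra hcon
  push Not at hcon
  have h1 : ∑ v, (T.w v a : ℝ) * ‖z v‖ ^ 2 ≤ 0 := by
    refine Finset.sum_nonpos fun v _ => ?_
    rcases lt_trichotomy (T.lev v) a with hv | hv | hv
    · rw [T.w_gt v a hv]; simp
    · rw [hcon v hv]; simp
    · have := hT.nonpos v a hv
      have h2 : (T.w v a : ℝ) ≤ 0 := by exact_mod_cast this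
      exact mul_nonpos_of_nonpos_of_nonneg h2 (sq_nonneg _)
  rw [h a] at h1
  linarith

theorem slice_bdd {T : Tower ι V} (hT : T.IsNorm) : ∃ M : ℝ, ∀ z : V → ℂ,
    (∀ a, |∑ v, (T.w v a : ℝ) * ‖z v‖ ^ 2 - 1| ≤ 1) → ∀ v, ‖z v‖ ≤ M := by
  have key : ∀ a, ∃ M : ℝ, 0 ≤ M ∧ ∀ z : V → ℂ,
      (∀ a, |∑ v, (T.w v a : ℝ) * ‖z v‖ ^ 2 - 1| ≤ 1) → ∀ v, T.lev v = a → ‖z v‖ ≤ M := by
    intro a
    induction a using WellFoundedGT.induction with
    | ind a ih =>
      choose! M hM0 hM using ih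
      refine ⟨1 + (2 + ∑ u, |(T.w u a : ℝ)| * M (T.lev u) ^ 2), ?_, ?_⟩
      · have : 0 ≤ ∑ u, |(T.w u a : ℝ)| * M (T.lev u) ^ 2 :=
          Finset.sum_nonneg fun u _ => mul_nonneg (abs_nonneg _) (sq_nonneg _)
        linarith
      · intro z hz v hv
        classical
        have h1 := (abs_le.1 (hz a)).2
        -- split the sum
        have h2 : ‖z v‖ ^ 2 ≤ ∑ u, ((T.w u a : ℝ) * ‖z u‖ ^ 2 +
            |(T.w u a : ℝ)| * M (T.lev u) ^ 2) := by
          have h3 : ∀ u ∈ Finset.univ, 0 ≤ (T.w u a : ℝ) * ‖z u‖ ^ 2 +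
              |(T.w u a : ℝ)| * M (T.lev u) ^ 2 := by
            intro u _
            have h5 : 0 ≤ |(T.w u a : ℝ)| * M (T.lev u) ^ 2 :=
              mul_nonneg (abs_nonneg _) (sq_nonneg _)
            rcases lt_trichotomy (T.lev u) a with hu | hu | hu
            · rw [T.w_gt u a hu]; simp
            · have h6 : T.w u a = 1 := by rw [← hu]; exact T.w_lev u
              rw [h6]
              push_cast
              have : 0 ≤ |(1 : ℝ)| * M (T.lev u) ^ 2 := mul_nonneg (abs_nonneg _) (sq_nonneg _)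
              nlinarith [sq_nonneg ‖z u‖]
            · have h6 : ‖z u‖ ≤ M (T.lev u) := hM (T.lev u) hu z hz u rfl
              have h7 : ‖z u‖ ^ 2 ≤ M (T.lev u) ^ 2 :=
                pow_le_pow_left₀ (norm_nonneg _) h6 2
              have h8 : -|(T.w u a : ℝ)| ≤ (T.w u a : ℝ) := neg_abs_le _
              have h9 : -|(T.w u a : ℝ)| * ‖z u‖ ^ 2 ≤ (T.w u a : ℝ) * ‖z u‖ ^ 2 :=
                mul_le_mul_of_nonneg_right h8 (sq_nonneg _)
              have h10 : |(T.w u a : ℝ)| * ‖z u‖ ^ 2 ≤ |(T.w u a : ℝ)| * M (T.lev u) ^ 2 :=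
                mul_le_mul_of_nonneg_left h7 (abs_nonneg _)
              linarith
          have h4 := Finset.single_le_sum h3 (Finset.mem_univ v)
          have h6 : T.w v a = 1 := by rw [← hv]; exact T.w_lev v
          have h5 : 0 ≤ |(T.w v a : ℝ)| * M (T.lev v) ^ 2 :=
              mul_nonneg (abs_nonneg _) (sq_nonneg _)
          simp only [h6, Int.cast_one, one_mul] at h4 h5
          linarith
        rw [Finset.sum_add_distrib] at h2
        nlinarith [norm_nonneg (z v), sq_nonneg (‖z v‖ - 1)]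
  choose M hM0 hM using key
  refine ⟨∑ a, M a, fun z hz v => ?_⟩
  exact (hM (T.lev v) z hz v rfl).trans
    (Finset.single_le_sum (fun a _ => hM0 a) (Finset.mem_univ (T.lev v)))

private theorem Lw_lev (T : Tower ι V) (v : V) (u : ι → ℝ) :
    Lw T v u = u (T.lev v) + ∑ b with b < T.lev v, (T.w v b : ℝ) * u b := by
  unfold Lw
  rw [← Finset.sum_filter_add_sum_filter_not Finset.univ (fun b => b < T.lev v), add_comm]
  congr 1
  rw [Finset.sum_eq_single (T.lev v)]
  · rw [T.w_lev]; simp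
  · intro b hb hbv
    simp only [Finset.mem_filter, Finset.mem_univ, true_and, not_lt] at hb
    rw [T.w_gt v b (lt_of_le_of_ne hb (Ne.symm hbv))]
    simp
  · intro h
    exact absurd (by simp) h

theorem slice_unique {T : Tower ι V} (z : V → ℂ) (hz : z ∈ Pt T) (t : ι → ℂˣ) (h : OnSlice T z)
    (h' : OnSlice T (T.act t z)) : ∀ a, ‖(t a : ℂ)‖ = 1 := by
  set d : ι → ℝ := fun b => Real.log ‖(t b : ℂ)‖ with hd
  have hL : ∀ v, z v ≠ 0 → Lw T v d = 0 := by
    have h1 : ∑ v, Lw T v d * (‖z v‖ ^ 2 * (Real.exp (2 * Lw T v d) - 1)) = 0 := by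
      have h2 : ∀ a, ∑ v, (T.w v a : ℝ) * (‖z v‖ ^ 2 * (Real.exp (2 * Lw T v d) - 1)) = 0 := by
        intro a
        have h3 : ∀ v, (T.w v a : ℝ) * (‖z v‖ ^ 2 * (Real.exp (2 * Lw T v d) - 1)) =
            (T.w v a : ℝ) * ‖T.act t z v‖ ^ 2 - (T.w v a : ℝ) * ‖z v‖ ^ 2 := by
          intro v
          rw [norm_act, mul_pow, two_mul, Real.exp_add]
          ring
        simp only [h3]
        rw [Finset.sum_sub_distrib, h a, h' a, sub_self]
      have h4 : ∑ a, d a * ∑ v, (T.w v a : ℝ) * (‖z v‖ ^ 2 * (Real.exp (2 * Lw T v d) - 1)) = 0 :=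
        Finset.sum_eq_zero fun a _ => by rw [h2 a, mul_zero]
      rw [← h4]
      simp only [Finset.mul_sum]
      rw [Finset.sum_comm]
      refine Finset.sum_congr rfl fun v _ => ?_
      generalize ‖z v‖ ^ 2 * (Real.exp (2 * Lw T v d) - 1) = X
      rw [Lw, Finset.sum_mul]
      refine Finset.sum_congr rfl fun b _ => ?_
      ring
    have h5 : ∀ v ∈ Finset.univ, 0 ≤ Lw T v d * (‖z v‖ ^ 2 * (Real.exp (2 * Lw T v d) - 1)) := by
      intro v _
      rcases le_total 0 (Lw T v d) with h6 | h6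
      · have : 1 ≤ Real.exp (2 * Lw T v d) := Real.one_le_exp (by linarith)
        exact mul_nonneg h6 (mul_nonneg (sq_nonneg _) (by linarith))
      · have : Real.exp (2 * Lw T v d) ≤ 1 := Real.exp_le_one_iff.2 (by linarith)
        exact mul_nonneg_of_nonpos_of_nonpos h6
          (mul_nonpos_of_nonneg_of_nonpos (sq_nonneg _) (by linarith))
    have h6 := (Finset.sum_eq_zero_iff_of_nonneg h5).1 h1
    intro v hv
    have h7 := h6 v (Finset.mem_univ v)
    rcases mul_eq_zero.1 h7 with h8 | h8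
    · exact h8
    · rcases mul_eq_zero.1 h8 with h9 | h9
      · exact absurd (pow_eq_zero_iff (two_ne_zero)|>.1 h9) (norm_ne_zero_iff.2 hv)
      · have : Real.exp (2 * Lw T v d) = 1 := by linarith
        rw [Real.exp_eq_one_iff] at this
        linarith
  have hd0 : ∀ a, d a = 0 := by
    intro a
    induction a using WellFoundedLT.induction with
    | ind a ih =>
      obtain ⟨v, hv, hz0⟩ := hz a
      have h1 := hL v hz0
      rw [Lw_lev, hv] at h1
      rw [Finset.sum_eq_zero (fun b hb => by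
        rw [ih b (Finset.mem_filter.1 hb).2, mul_zero])] at h1
      linarith
  intro a
  have h1 := hd0 a
  have hpos : 0 < ‖(t a : ℂ)‖ := norm_pos_iff.2 (t a).ne_zero
  simp only [hd] at h1
  rw [Real.log_eq_zero] at h1
  rcases h1 with h1 | h1 | h1 <;> linarith

/-- coefficients -/
private theorem exists_k (c : ι → ι → ℝ) (hc : ∀ a b, 0 ≤ c a b) :
    ∃ k : ι → ℝ, (∀ a, 1 ≤ k a) ∧ ∀ b, k b = 1 + ∑ a with b < a, k a * c a b := by
  classical
  let k : ι → ℝ := WellFounded.fix (r := fun a b : ι => b < a) wellFounded_gt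
    (fun b ih => 1 + ∑ a : ι, if h : b < a then ih a h * c a b else 0)
  have hk : ∀ b, k b = 1 + ∑ a with b < a, k a * c a b := by
    intro b
    have := WellFounded.fix_eq (r := fun a b : ι => b < a) (wellFounded_gt)
      (fun b ih => 1 + ∑ a : ι, if h : b < a then ih a h * c a b else (0 : ℝ)) b
    change k b = _ at this
    rw [this]
    congr 1
    rw [Finset.sum_filter]
    refine Finset.sum_congr rfl fun a _ => ?_
    by_cases h : b < a
    · simp only [h, if_true, dif_pos]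
      rfl
    · simp [h]
  refine ⟨k, ?_, hk⟩
  intro a
  induction a using WellFoundedGT.induction with
  | ind a ih =>
    rw [hk a]
    have : 0 ≤ ∑ a' with a < a', k a' * c a' a :=
      Finset.sum_nonneg fun b hb => mul_nonneg
        (le_trans zero_le_one (ih b (Finset.mem_filter.1 hb).2)) (hc _ _)
    linarith

/-- one variable -/
private theorem one_var {A k : ℝ} (hA : 0 < A) (hk : 0 < k) (C : ℝ) :
    ∃ R : ℝ, ∀ y : ℝ, A * Real.exp (2 * y) - k * y ≤ C → |y| ≤ R := by
  refine ⟨|C| / k + (|C| + k) / (2 * A) + 1, fun y hy => ?_⟩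
  have hC := le_abs_self C
  have hC0 := abs_nonneg C
  have h1 : 0 ≤ |C| / k := by positivity
  have h2 : 0 ≤ (|C| + k) / (2 * A) := by positivity
  rcases le_total 0 y with h0 | h0
  · rw [abs_of_nonneg h0]
    have h3 := Real.quadratic_le_exp_of_nonneg (x := 2 * y) (by linarith)
    have h4 : 2 * y ^ 2 ≤ Real.exp (2 * y) := by nlinarith
    have h5 : A * (2 * y ^ 2) ≤ A * Real.exp (2 * y) := mul_le_mul_of_nonneg_left h4 hA.le
    by_cases hy1 : y ≤ 1
    · linarith
    · push Not at hy1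
      have h6 : y ≤ (|C| + k) / (2 * A) := by
        rw [le_div_iff₀ (by positivity)]
        have h7 : y * (2 * A) * y ≤ (|C| + k) * y := by nlinarith
        exact le_of_mul_le_mul_right h7 (by linarith)
      linarith
  · rw [abs_of_nonpos h0]
    have h3 : 0 ≤ A * Real.exp (2 * y) := by positivity
    have h4 : -y ≤ |C| / k := by
      rw [le_div_iff₀ hk]
      linarith
    linarith

private theorem one_low {A k : ℝ} (hA : 0 < A) (hk : 0 < k) :
    ∃ m : ℝ, ∀ y : ℝ, m ≤ A * Real.exp (2 * y) - k * y := by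
  refine ⟨-(k ^ 2 / (8 * A)), fun y => ?_⟩
  have h1 : 0 ≤ k ^ 2 / (8 * A) := by positivity
  rcases le_total 0 y with h0 | h0
  · have h3 := Real.quadratic_le_exp_of_nonneg (x := 2 * y) (by linarith)
    have h4 : 2 * y ^ 2 ≤ Real.exp (2 * y) := by nlinarith
    have h5 : A * (2 * y ^ 2) ≤ A * Real.exp (2 * y) := mul_le_mul_of_nonneg_left h4 hA.le
    have h6 : A * (2 * y ^ 2) - k * y + k ^ 2 / (8 * A) = 2 * A * (y - k / (4 * A)) ^ 2 := by
      field_simp
      ring
    have h7 : 0 ≤ 2 * A * (y - k / (4 * A)) ^ 2 := by positivity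
    linarith
  · have h3 : 0 ≤ A * Real.exp (2 * y) := by positivity
    have h4 : 0 ≤ -(k * y) := by nlinarith
    linarith

private theorem bdd_u {T : Tower ι V} (v : ι → V) (hv : ∀ a, T.lev (v a) = a) (R : ι → ℝ) :
    ∀ a, ∃ S : ℝ, ∀ u : ι → ℝ, (∀ b, |Lw T (v b) u| ≤ R b) → |u a| ≤ S := by
  intro a
  induction a using WellFoundedLT.induction with
  | ind a ih =>
    choose! S hS using ih
    refine ⟨R a + ∑ b with b < a, |(T.w (v a) b : ℝ)| * S b, fun u hu => ?_⟩
    have h1 := Lw_lev T (v a) u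
    rw [hv a] at h1
    have h2 : u a = Lw T (v a) u - ∑ b with b < a, (T.w (v a) b : ℝ) * u b := by linarith
    rw [h2]
    refine (abs_sub _ _).trans (add_le_add (hu a) ?_)
    refine (Finset.abs_sum_le_sum_abs _ _).trans (Finset.sum_le_sum fun b hb => ?_)
    rw [abs_mul]
    exact mul_le_mul_of_nonneg_left (hS b (Finset.mem_filter.1 hb).2 u hu) (abs_nonneg _)

private theorem coer {T : Tower ι V} (hT : T.IsNorm) (v : ι → V) (hv : ∀ a, T.lev (v a) = a)
    (δ : ι → ℝ) (hδ : ∀ a, 0 < δ a) (C : ℝ) : ∃ R : ℝ, ∀ u : ι → ℝ,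
    ∑ a, δ a * Real.exp (2 * Lw T (v a) u) - ∑ a, u a ≤ C → ∀ a, |u a| ≤ R := by
  obtain ⟨k, hk1, hk⟩ := exists_k (fun a b => if b < a then -(T.w (v a) b : ℝ) else 0) (by
    intro a b
    by_cases h : b < a
    · simp only [h, if_true]
      have := hT.nonpos (v a) b (by rw [hv a]; exact h)
      have : (T.w (v a) b : ℝ) ≤ 0 := by exact_mod_cast this
      linarith
    · simp [h])
  have hsum : ∀ u : ι → ℝ, ∑ a, k a * Lw T (v a) u = ∑ a, u a := by
    intro u
    have h1 : ∀ a, k a * Lw T (v a) u = k a * u a + ∑ b, (if b < a then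
        k a * (T.w (v a) b : ℝ) * u b else 0) := by
      intro a
      rw [Lw_lev, hv a, mul_add, Finset.mul_sum, Finset.sum_filter]
      congr 1
      refine Finset.sum_congr rfl fun b _ => ?_
      split_ifs
      · ring
      · rfl
    simp only [h1]
    rw [Finset.sum_add_distrib, Finset.sum_comm, ← Finset.sum_add_distrib]
    refine Finset.sum_congr rfl fun b _ => ?_
    have h2 := hk b
    rw [Finset.sum_filter] at h2
    have h3 : ∑ a, (if b < a then k a * (T.w (v a) b : ℝ) * u b else 0) =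
        -(∑ a, (if b < a then k a * (if b < a then -(T.w (v a) b : ℝ) else 0) else 0)) * u b := by
      rw [← Finset.sum_neg_distrib, Finset.sum_mul]
      refine Finset.sum_congr rfl fun a _ => ?_
      split_ifs
      · ring
      · ring
    rw [h3]
    have h4 : (∑ a, (if b < a then k a * (if b < a then -(T.w (v a) b : ℝ) else 0) else 0)) =
        k b - 1 := by linarith
    rw [h4]
    ring
  have hk0 : ∀ a, 0 < k a := fun a => lt_of_lt_of_le zero_lt_one (hk1 a)
  choose m hm using fun a => one_low (hδ a) (hk0 a)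
  choose R hR using fun a => one_var (hδ a) (hk0 a) (C - ∑ b, m b + m a)
  choose S hS using bdd_u v hv R
  refine ⟨∑ a, |S a|, fun u hu a => ?_⟩
  have hy : ∀ b, |Lw T (v b) u| ≤ R b := by
    intro b
    refine hR b _ ?_
    have h1 : ∀ b ∈ Finset.univ, 0 ≤ δ b * Real.exp (2 * Lw T (v b) u) - k b * Lw T (v b) u - m b :=
      fun b _ => by have := hm b (Lw T (v b) u); linarith
    have h2 := Finset.single_le_sum h1 (Finset.mem_univ b)
    rw [Finset.sum_sub_distrib, Finset.sum_sub_distrib, hsum u] at h2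
    linarith
  refine (hS a u hy).trans ((le_abs_self _).trans ?_)
  exact Finset.single_le_sum (fun b _ => abs_nonneg (S b)) (Finset.mem_univ a)

/-- the Kempf-Ness function -/
private noncomputable def Phi (T : Tower ι V) (z : V → ℂ) (u : ι → ℝ) : ℝ :=
  (∑ v, 1 / 2 * (‖z v‖ ^ 2 * Real.exp (2 * Lw T v u))) - ∑ a, u a

private theorem Lw_cont (T : Tower ι V) (v : V) : Continuous (Lw T v) := by
  unfold Lw
  fun_prop

private theorem Phi_cont (T : Tower ι V) (z : V → ℂ) : Continuous (Phi T z) := by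
  unfold Phi
  have := fun v => Lw_cont T v
  fun_prop

private theorem Phi_ge (T : Tower ι V) (z : V → ℂ) (u : ι → ℝ) (v : ι → V)
    (hv : ∀ a, T.lev (v a) = a) (δ : ι → ℝ) (hδ : ∀ a, δ a ≤ 1 / 2 * ‖z (v a)‖ ^ 2) :
    ∑ a, δ a * Real.exp (2 * Lw T (v a) u) - ∑ a, u a ≤ Phi T z u := by
  classical
  unfold Phi
  refine sub_le_sub_right ?_ _
  have hinj : Function.Injective v := fun a b hab => by rw [← hv a, ← hv b, hab]
  have h1 : ∑ a, 1 / 2 * (‖z (v a)‖ ^ 2 * Real.exp (2 * Lw T (v a) u)) ≤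
      ∑ v, 1 / 2 * (‖z v‖ ^ 2 * Real.exp (2 * Lw T v u)) := by
    rw [← Finset.sum_image (s := Finset.univ) (g := v)
      (f := fun v => 1 / 2 * (‖z v‖ ^ 2 * Real.exp (2 * Lw T v u))) (fun a _ b _ h => hinj h)]
    exact Finset.sum_le_sum_of_subset_of_nonneg (Finset.subset_univ _)
      (fun v _ _ => by positivity)
  refine le_trans (Finset.sum_le_sum fun a _ => ?_) h1
  have := mul_le_mul_of_nonneg_right (hδ a) (Real.exp_pos (2 * Lw T (v a) u)).le
  linarith

private theorem Phi_coer {T : Tower ι V} (hT : T.IsNorm) (v : ι → V) (hv : ∀ a, T.lev (v a) = a)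
    (δ : ι → ℝ) (hδ : ∀ a, 0 < δ a) (C : ℝ) : ∃ R : ℝ, ∀ (z : V → ℂ) (u : ι → ℝ),
    (∀ a, δ a ≤ 1 / 2 * ‖z (v a)‖ ^ 2) → Phi T z u ≤ C → ∀ a, |u a| ≤ R := by
  obtain ⟨R, hR⟩ := coer hT v hv δ hδ C
  exact ⟨R, fun z u h1 h2 => hR u ((Phi_ge T z u v hv δ h1).trans h2)⟩

private theorem Phi_min {T : Tower ι V} (hT : T.IsNorm) (z : V → ℂ) (hz : z ∈ Pt T) :
    ∃ u, ∀ u', Phi T z u ≤ Phi T z u' := by
  choose v hv hz0 using hz
  obtain ⟨R, hR⟩ := Phi_coer hT v hv (fun a => 1 / 2 * ‖z (v a)‖ ^ 2)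
    (fun a => by have := norm_pos_iff.2 (hz0 a); positivity) (Phi T z 0)
  refine (Phi_cont T z).exists_forall_le' 0 ?_
  have hc : IsCompact (Set.pi Set.univ fun _ : ι => Set.Icc (-R) R) :=
    isCompact_univ_pi fun _ => isCompact_Icc
  filter_upwards [hc.compl_mem_cocompact] with u hu
  by_contra hcon
  push Not at hcon
  refine hu fun a _ => ?_
  exact abs_le.1 (hR z u (fun a => le_rfl) hcon.le a)

private theorem Phi_crit {T : Tower ι V} (z : V → ℂ) (u : ι → ℝ)
    (hu : ∀ u', Phi T z u ≤ Phi T z u') (a : ι) :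
    ∑ v, (T.w v a : ℝ) * (‖z v‖ ^ 2 * Real.exp (2 * Lw T v u)) = 1 := by
  classical
  have hL : ∀ (v : V) (s : ℝ), Lw T v (Function.update u a (u a + s)) =
      Lw T v u + (T.w v a : ℝ) * s := by
    intro v s
    unfold Lw
    rw [← sub_eq_iff_eq_add', ← Finset.sum_sub_distrib, Finset.sum_eq_single a]
    · rw [Function.update_self]; ring
    · intro b _ hb
      rw [Function.update_of_ne hb]; ring
    · intro h; exact absurd (Finset.mem_univ a) h
  have hS : ∀ s : ℝ, ∑ b, Function.update u a (u a + s) b = ∑ b, u b + s := by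
    intro s
    rw [← sub_eq_iff_eq_add', ← Finset.sum_sub_distrib, Finset.sum_eq_single a]
    · rw [Function.update_self]; ring
    · intro b _ hb
      rw [Function.update_of_ne hb]; ring
    · intro h; exact absurd (Finset.mem_univ a) h
  have hf : ∀ s : ℝ, Phi T z (Function.update u a (u a + s)) =
      (∑ v, 1 / 2 * (‖z v‖ ^ 2 * Real.exp (2 * (Lw T v u + (T.w v a : ℝ) * s)))) -
        (∑ b, u b + s) := by
    intro s
    unfold Phi
    rw [hS]
    simp only [hL]
  have hmin : IsLocalMin (fun s : ℝ => (∑ v, 1 / 2 * (‖z v‖ ^ 2 *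
      Real.exp (2 * (Lw T v u + (T.w v a : ℝ) * s)))) - (∑ b, u b + s)) 0 := by
    refine Filter.Eventually.of_forall fun s => ?_
    have h1 := hu (Function.update u a (u a + s))
    have h2 := hf 0
    rw [add_zero, Function.update_eq_self] at h2
    rw [hf s, h2] at h1
    exact h1
  have hder : HasDerivAt (fun s : ℝ => (∑ v, 1 / 2 * (‖z v‖ ^ 2 *
      Real.exp (2 * (Lw T v u + (T.w v a : ℝ) * s)))) - (∑ b, u b + s))
      ((∑ v, 1 / 2 * (‖z v‖ ^ 2 * (Real.exp (2 * (Lw T v u + (T.w v a : ℝ) * 0)) *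
        (2 * ((T.w v a : ℝ) * 1))))) - 1) 0 := by
    refine HasDerivAt.sub ?_ ?_
    · refine HasDerivAt.fun_sum fun v _ => ?_
      refine HasDerivAt.const_mul _ (HasDerivAt.const_mul _ (HasDerivAt.exp ?_))
      refine HasDerivAt.const_mul _ ?_
      exact (((hasDerivAt_id (0 : ℝ)).const_mul (T.w v a : ℝ))).const_add _
    · exact (hasDerivAt_id (0 : ℝ)).const_add _
  have h0 := hmin.hasDerivAt_eq_zero hder
  have h1 : ∑ v, (T.w v a : ℝ) * (‖z v‖ ^ 2 * Real.exp (2 * Lw T v u)) =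
      (∑ v, 1 / 2 * (‖z v‖ ^ 2 * (Real.exp (2 * (Lw T v u + (T.w v a : ℝ) * 0)) *
        (2 * ((T.w v a : ℝ) * 1))))) := by
    refine Finset.sum_congr rfl fun v _ => ?_
    rw [mul_zero, add_zero]
    ring
  rw [h1]
  linarith

/-- Every orbit meets the slice. -/
theorem slice_exists {T : Tower ι V} (hT : T.IsNorm) : ∃ u : Pt T → ι → ℝ, Continuous u ∧
    ∀ z, OnSlice T (T.act (fun a => expU (u z a)) z.1) := by
  choose u hu using fun z : Pt T => Phi_min hT z.1 z.2
  have hsl : ∀ z : Pt T, OnSlice T (T.act (fun a => expU (u z a)) z.1) :=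
    fun z => (sliceU T (u z) z.1).2 (Phi_crit z.1 (u z) (hu z))
  refine ⟨u, ?_, hsl⟩
  rw [continuous_iff_continuousAt]
  intro z0
  -- local boundedness
  choose v hv hz0 using z0.2
  have hδ : ∀ a, 0 < 1 / 4 * ‖z0.1 (v a)‖ ^ 2 := fun a => by
    have := norm_pos_iff.2 (hz0 a)
    positivity
  obtain ⟨R, hR⟩ := Phi_coer hT v hv (fun a => 1 / 4 * ‖z0.1 (v a)‖ ^ 2) hδ (Phi T z0.1 0 + 1)
  have hcoord : ∀ w : V, Continuous fun z : Pt T => z.1 w := fun w =>
    (continuous_apply w).comp continuous_subtype_val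
  have hev : ∀ᶠ z : Pt T in nhds z0, ∀ a, |u z a| ≤ R := by
    have h1 : ∀ᶠ z : Pt T in nhds z0, ∀ a, 1 / 4 * ‖z0.1 (v a)‖ ^ 2 ≤ 1 / 2 * ‖z.1 (v a)‖ ^ 2 := by
      rw [Filter.eventually_all]
      intro a
      have hc : ContinuousAt (fun z : Pt T => 1 / 2 * ‖z.1 (v a)‖ ^ 2) z0 :=
        (continuous_const.mul ((hcoord (v a)).norm.pow 2)).continuousAt
      have h2 : 1 / 4 * ‖z0.1 (v a)‖ ^ 2 < 1 / 2 * ‖z0.1 (v a)‖ ^ 2 := by
        have := norm_pos_iff.2 (hz0 a)
        have : 0 < ‖z0.1 (v a)‖ ^ 2 := by positivity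
        linarith
      filter_upwards [hc.eventually (lt_mem_nhds h2)] with z hz
      exact le_of_lt hz
    have h3 : ∀ᶠ z : Pt T in nhds z0, Phi T z.1 0 < Phi T z0.1 0 + 1 := by
      have hc : Continuous fun z : Pt T => Phi T z.1 0 := by
        unfold Phi
        refine Continuous.sub (continuous_finsetSum _ fun w _ => ?_) continuous_const
        exact continuous_const.mul (((hcoord w).norm.pow 2).mul continuous_const)
      exact hc.continuousAt.eventually (gt_mem_nhds (lt_add_one _))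
    filter_upwards [h1, h3] with z hz1 hz3
    exact hR z.1 (u z) hz1 ((hu z 0).trans hz3.le)
  have hcomp : IsCompact (Set.pi Set.univ fun _ : ι => Set.Icc (-R) R) :=
    isCompact_univ_pi fun _ => isCompact_Icc
  unfold ContinuousAt
  rw [Filter.tendsto_iff_ultrafilter]
  intro g hg
  have hmem : (Set.pi Set.univ fun _ : ι => Set.Icc (-R) R) ∈ g.map u := by
    rw [Ultrafilter.mem_map]
    exact Filter.mem_of_superset (hg hev) fun z hz a _ => abs_le.1 (hz a)
  obtain ⟨p, _, hp⟩ := hcomp.ultrafilter_le_nhds (g.map u) (Filter.le_principal_iff.2 hmem)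
  have hp' : Filter.Tendsto u g (nhds p) := hp
  -- the limit is a solution
  have hlim : ∀ a, ∑ w, (T.w w a : ℝ) * (‖z0.1 w‖ ^ 2 * Real.exp (2 * Lw T w p)) = 1 := by
    intro a
    have h1 : Filter.Tendsto (fun z : Pt T => ∑ w, (T.w w a : ℝ) *
        (‖z.1 w‖ ^ 2 * Real.exp (2 * Lw T w (u z)))) g
        (nhds (∑ w, (T.w w a : ℝ) * (‖z0.1 w‖ ^ 2 * Real.exp (2 * Lw T w p)))) := by
      refine tendsto_finsetSum _ fun w _ => Filter.Tendsto.const_mul _ (Filter.Tendsto.mul ?_ ?_)
      · exact (((hcoord w).norm.pow 2).tendsto z0).mono_left hg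
      · refine (Real.continuous_exp.tendsto _).comp (Filter.Tendsto.const_mul _ ?_)
        exact ((Lw_cont T w).tendsto p).comp hp'
    have h2 : Filter.Tendsto (fun z : Pt T => ∑ w, (T.w w a : ℝ) *
        (‖z.1 w‖ ^ 2 * Real.exp (2 * Lw T w (u z)))) g (nhds 1) := by
      refine tendsto_const_nhds.congr fun z => ?_
      exact ((sliceU T (u z) z.1).1 (hsl z) a).symm
    exact tendsto_nhds_unique h1 h2
  have hps : OnSlice T (T.act (fun a => expU (p a)) z0.1) := (sliceU T p z0.1).2 hlim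
  have hpu : p = u z0 := by
    have hact : T.act (fun a => expU (p a - u z0 a)) (T.act (fun a => expU (u z0 a)) z0.1) =
        T.act (fun a => expU (p a)) z0.1 := by
      rw [← act_mul]
      congr 1
      funext a
      ext
      simp only [Pi.mul_apply, expU, Units.val_mul, Units.val_mk0]
      rw [← Complex.ofReal_mul, ← Real.exp_add, sub_add_cancel]
    have h1 := slice_unique (T.act (fun a => expU (u z0 a)) z0.1) ((act_pt T _ _).2 z0.2)
      (fun a => expU (p a - u z0 a)) (hsl z0) (by rw [hact]; exact hps)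
    funext a
    have h2 := h1 a
    simp only [expU, Units.val_mk0] at h2
    rw [Complex.norm_real, Real.norm_eq_abs, abs_of_pos (Real.exp_pos _), Real.exp_eq_one_iff] at h2
    linarith
  rw [hpu] at hp'
  exact hp'

end Pool.Agent.TOW
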