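import Mathlib
import Pool.Agent.Helper85.TOW.Slice
import Pool.Agent.Helper85.TOW.Line
import Pool.Agent.Helper18.CYT.Gen
import Pool.Agent.Helper18.CYT.Path

/-!
# TOW SAME: varieties with the same data are homeomorphic; perturbations
-/

set_option autoImplicit false

namespace Pool.Agent.TOW

open MvPolynomial Matrix

variable {ι V κ : Type} [LinearOrder ι]

/-- the weights of the coordinate `r` of the torus -/
noncomputable def same_T [DecidableEq V] (T : Tower ι V) (r : ι) : Matrix V V ℂ :=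
  diagonal fun v => (T.w v r : ℂ)

section
variable [Fintype V] [DecidableEq V]

theorem same_T_mulVec (T : Tower ι V) (r : ι) (A : V → ℂ) (v : V) :
    (same_T T r *ᵥ A) v = (T.w v r : ℂ) * A v := by
  rw [same_T, mulVec_diagonal]

omit [Fintype V] in
theorem same_T_star (T : Tower ι V) (r : ι) : (same_T T r)ᴴ = same_T T r := by
  rw [same_T, diagonal_conjTranspose]
  congr 1
  funext v
  show star ((T.w v r : ℤ) : ℂ) = _
  rw [Complex.star_def]
  exact map_intCast _ _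

theorem same_constr (T : Tower ι V) (r : ι) (A : V → ℂ) :
    CYT.constr (same_T T) (fun _ => 1) r A = ((∑ v, (T.w v r : ℝ) * ‖A v‖ ^ 2 : ℝ) : ℂ) - 1 := by
  unfold CYT.constr
  congr 1
  push_cast
  refine Finset.sum_congr rfl fun v _ => ?_
  rw [same_T_mulVec]
  show star (A v) * ((T.w v r : ℂ) * A v) = (T.w v r : ℂ) * (‖A v‖ : ℂ) ^ 2
  rw [← Complex.conj_mul' (A v)]
  rw [Complex.star_def]
  ring

theorem same_slice (T : Tower ι V) (A : V → ℂ) :
    OnSlice T A ↔ ∀ r, CYT.constr (same_T T) (fun _ => 1) r A = 0 := by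
  refine forall_congr' fun r => ?_
  rw [same_constr, sub_eq_zero]
  norm_cast

theorem same_euler {T : Tower ι V} {δ : ι → ℤ}
    {f : MvPolynomial V ℂ} (h : IsForm T δ f) (r : ι) (A : V → ℂ) :
    ∑ v, (same_T T r *ᵥ A) v * eval A (pderiv v f) = (δ r : ℂ) * eval A f := by
  rw [← h.euler r A]
  refine Finset.sum_congr rfl fun v _ => ?_
  rw [same_T_mulVec]

end

/-- The part of the cone in the slice. -/
abbrev Same_L [Fintype V] [DecidableEq V] (T : Tower ι V) (f : κ → MvPolynomial V ℂ) : Type :=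
  {A : V → ℂ // (∀ r, CYT.constr (same_T T) (fun _ => 1) r A = 0) ∧ ∀ j, eval A (f j) = 0}

theorem same_norm_act [Fintype ι] (T : Tower ι V) (t : ι → ℂˣ) (ht : ∀ a, ‖(t a : ℂ)‖ = 1)
    (v : V) : ‖((∏ a, t a ^ T.w v a : ℂˣ) : ℂ)‖ = 1 := by
  rw [Units.coe_prod, norm_prod]
  refine Finset.prod_eq_one fun a _ => ?_
  rw [Units.val_zpow_eq_zpow_val, norm_zpow, ht, _root_.one_zpow]

theorem same_slice_act [Fintype ι] [Fintype V] (T : Tower ι V) (t : ι → ℂˣ)
    (ht : ∀ a, ‖(t a : ℂ)‖ = 1) (A : V → ℂ) (hA : OnSlice T A) : OnSlice T (T.act t A) := by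
  intro a
  rw [← hA a]
  refine Finset.sum_congr rfl fun v _ => ?_
  have : ‖T.act t A v‖ = ‖A v‖ := by
    show ‖((∏ a, t a ^ T.w v a : ℂˣ) : ℂ) * A v‖ = _
    rw [norm_mul, same_norm_act T t ht, one_mul]
  rw [this]

/-- On the slices. -/
theorem same_sphere [Fintype ι] [Fintype V] [Fintype κ] [DecidableEq V] {T : Tower ι V}
    (hT : T.IsNorm)
    (δ : κ → ι → ℤ) (f0 f1 : κ → MvPolynomial V ℂ) (h0 : ∀ j, IsForm T (δ j) (f0 j))
    (h1 : ∀ j, IsForm T (δ j) (f1 j)) (hs0 : Smooth T f0) (hs1 : Smooth T f1) :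
    ∃ h : Same_L T f0 ≃ₜ Same_L T f1, ∀ t : ι → ℂˣ, (∀ a, ‖(t a : ℂ)‖ = 1) →
      ∀ x y : Same_L T f0, y.1 = T.act t x.1 → (h y).1 = T.act t (h x).1 := by
  classical
  have hfin := finite_bad T δ f0 f1 h0 h1 hs0
  have hl0 : lineEq f0 f1 0 = f0 := by funext j; simp [lineEq]
  have hl1 : lineEq f0 f1 1 = f1 := by funext j; simp [lineEq]
  obtain ⟨σ, hσ, hσ0, hσ1, hσB⟩ := CYT.exists_path {s : ℂ | ¬ Smooth T (lineEq f0 f1 s)} hfin
    (by
      intro h
      apply h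
      show Smooth T (lineEq f0 f1 0)
      rw [hl0]
      exact hs0)
    (by
      intro h
      apply h
      show Smooth T (lineEq f0 f1 1)
      rw [hl1]
      exact hs1)
  obtain ⟨h, hh⟩ := CYT.same_gen (same_T T) (fun _ => 1) f0 f1 (fun r j => (δ j r : ℂ))
    (fun r j => (δ j r : ℂ)) (fun r j A => same_euler (h0 j) r A)
    (fun r j A => same_euler (h1 j) r A)
    (fun r j A => by rw [same_T_star]; exact same_euler (h0 j) r A)
    (fun r j A => by rw [same_T_star]; exact same_euler (h1 j) r A)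
    (by
      obtain ⟨M, hM⟩ := slice_bdd hT
      refine ⟨M, fun A hA v => hM A (fun a => ?_) v⟩
      have h2 := hA a
      rw [same_constr] at h2
      have h3 : (((∑ v, (T.w v a : ℝ) * ‖A v‖ ^ 2 : ℝ) : ℂ) - 1) =
          ((∑ v, (T.w v a : ℝ) * ‖A v‖ ^ 2 - 1 : ℝ) : ℂ) := by push_cast; ring
      rw [h3, Complex.norm_real, Real.norm_eq_abs] at h2
      exact h2) σ hσ hσ0 hσ1
    (by
      intro t A hA hf
      have hsm : Smooth T (lineEq f0 f1 (σ t)) := by
        by_contra hn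
        exact hσB t hn
      exact hsm A ⟨slice_pt hT A ((same_slice T A).2 hA), hf⟩)
  refine ⟨h, fun t ht x y hxy => ?_⟩
  have hu : (diagonal fun v : V => ((∏ a, t a ^ T.w v a : ℂˣ) : ℂ))ᴴ *
      (diagonal fun v : V => ((∏ a, t a ^ T.w v a : ℂˣ) : ℂ)) = 1 := by
    rw [diagonal_conjTranspose, diagonal_mul_diagonal, ← diagonal_one]
    congr 1
    funext v
    show star ((∏ a, t a ^ T.w v a : ℂˣ) : ℂ) * ((∏ a, t a ^ T.w v a : ℂˣ) : ℂ) = 1
    have := Complex.conj_mul' ((∏ a, t a ^ T.w v a : ℂˣ) : ℂ)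
    rw [same_norm_act T t ht] at this
    simpa using this
  have hχ : (diagonal fun j : κ => ((∏ a, t a ^ δ j a : ℂˣ) : ℂ))ᴴ *
      (diagonal fun j : κ => ((∏ a, t a ^ δ j a : ℂˣ) : ℂ)) = 1 := by
    rw [diagonal_conjTranspose, diagonal_mul_diagonal, ← diagonal_one]
    congr 1
    funext j
    show star ((∏ a, t a ^ δ j a : ℂˣ) : ℂ) * ((∏ a, t a ^ δ j a : ℂˣ) : ℂ) = 1
    have h4 : ‖((∏ a, t a ^ δ j a : ℂˣ) : ℂ)‖ = 1 := by
      rw [Units.coe_prod, norm_prod]
      refine Finset.prod_eq_one fun a _ => ?_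
      rw [Units.val_zpow_eq_zpow_val, norm_zpow, ht, _root_.one_zpow]
    have := Complex.conj_mul' ((∏ a, t a ^ δ j a : ℂˣ) : ℂ)
    rw [h4] at this
    simpa using this
  have hact : ∀ z : V → ℂ, (diagonal fun v : V => ((∏ a, t a ^ T.w v a : ℂˣ) : ℂ)) *ᵥ z =
      T.act t z := by
    intro z
    funext v
    rw [mulVec_diagonal]
    rfl
  have hev : ∀ (f : κ → MvPolynomial V ℂ), (∀ j, IsForm T (δ j) (f j)) →
      ∀ z j, eval ((diagonal fun v : V => ((∏ a, t a ^ T.w v a : ℂˣ) : ℂ)) *ᵥ z) (f j) =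
        ((diagonal fun j : κ => ((∏ a, t a ^ δ j a : ℂˣ) : ℂ)) *ᵥ fun k => eval z (f k)) j := by
    intro f hf z j
    rw [hact, mulVec_diagonal]
    exact (hf j).eval_act t z
  have h8 := hh _ _ hu hχ (hev f0 h0) (hev f1 h1)
    (by
      intro A
      refine Finset.sum_congr rfl fun r _ => ?_
      rw [hact, same_constr, same_constr]
      congr 3
      congr 1
      refine Finset.sum_congr rfl fun v _ => ?_
      have : ‖T.act t A v‖ = ‖A v‖ := by
        show ‖((∏ a, t a ^ T.w v a : ℂˣ) : ℂ) * A v‖ = _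
        rw [norm_mul, same_norm_act T t ht, one_mul]
      rw [this])
    x y (by rw [hact, hxy])
  rw [← h8, hact]

/-- Two points of the slice define the same point. -/
def Same_R [Fintype ι] [Fintype V] [DecidableEq V] (T : Tower ι V) (f : κ → MvPolynomial V ℂ)
    (x y : Same_L T f) : Prop := ∃ t : ι → ℂˣ, y.1 = T.act t x.1

theorem same_quot [Fintype ι] [Fintype V] [DecidableEq V] {T : Tower ι V} (hT : T.IsNorm)
    (δ : κ → ι → ℤ) (f : κ → MvPolynomial V ℂ) (hf : ∀ j, IsForm T (δ j) (f j)) :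
    Nonempty (XSpace T f ≃ₜ Quot (Same_R T f)) := by
  obtain ⟨u, hu, hu'⟩ := slice_exists hT
  have hcont : Continuous fun z : Cone T f =>
      T.act (fun a => expU (u ⟨z.1, z.2.1⟩ a)) z.1 := by
    refine continuous_pi fun v => ?_
    show Continuous fun z : Cone T f =>
      ((∏ a, (expU (u ⟨z.1, z.2.1⟩ a)) ^ T.w v a : ℂˣ) : ℂ) * z.1 v
    refine Continuous.mul ?_ ((continuous_apply v).comp continuous_subtype_val)
    have h1 : ∀ z : Cone T f, ((∏ a, (expU (u ⟨z.1, z.2.1⟩ a)) ^ T.w v a : ℂˣ) : ℂ) =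
        ∏ a, ((Real.exp (u ⟨z.1, z.2.1⟩ a * T.w v a) : ℝ) : ℂ) := by
      intro z
      rw [Units.coe_prod]
      refine Finset.prod_congr rfl fun a _ => ?_
      rw [Units.val_zpow_eq_zpow_val]
      show ((Real.exp (u ⟨z.1, z.2.1⟩ a) : ℝ) : ℂ) ^ T.w v a = _
      rw [← Complex.ofReal_zpow, ← _root_.Real.rpow_intCast, ← _root_.Real.exp_mul]
    simp only [h1]
    refine continuous_finsetProd _ fun a _ => ?_
    refine Complex.continuous_ofReal.comp (Real.continuous_exp.comp ?_)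
    refine Continuous.mul ?_ continuous_const
    have h2 : Continuous fun z : Cone T f => u ⟨z.1, z.2.1⟩ :=
      hu.comp (continuous_subtype_val.subtype_mk _)
    exact (continuous_apply a).comp h2
  let F : Cone T f → Same_L T f := fun z =>
    ⟨T.act (fun a => expU (u ⟨z.1, z.2.1⟩ a)) z.1, (same_slice T _).1 (hu' ⟨z.1, z.2.1⟩),
      fun j => by rw [(hf j).eval_act, z.2.2 j, mul_zero]⟩
  let G : Same_L T f → Cone T f := fun x =>
    ⟨x.1, slice_pt hT x.1 ((same_slice T _).2 x.2.1), x.2.2⟩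
  refine quot_homeo2 F G (hcont.subtype_mk _) (continuous_subtype_val.subtype_mk _) ?_ ?_ ?_ ?_
  · rintro x y ⟨t, hxy⟩
    refine ⟨(fun a => expU (u ⟨y.1, y.2.1⟩ a)) * t * (fun a => expU (u ⟨x.1, x.2.1⟩ a))⁻¹, ?_⟩
    show T.act (fun a => expU (u ⟨y.1, y.2.1⟩ a)) y.1 =
      T.act _ (T.act (fun a => expU (u ⟨x.1, x.2.1⟩ a)) x.1)
    rw [← act_mul, inv_mul_cancel_right, act_mul, ← hxy]
  · rintro x y ⟨t, hxy⟩
    exact ⟨t, hxy⟩
  · intro x
    refine ⟨(fun a => expU (u ⟨x.1, x.2.1⟩ a))⁻¹, ?_⟩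
    show x.1 = T.act _ (T.act (fun a => expU (u ⟨x.1, x.2.1⟩ a)) x.1)
    rw [← act_mul, inv_mul_cancel, act_one]
  · intro y
    refine ⟨(fun a => expU (u ⟨(G y).1, (G y).2.1⟩ a))⁻¹, ?_⟩
    show y.1 = T.act _ (T.act (fun a => expU (u ⟨(G y).1, (G y).2.1⟩ a)) (G y).1)
    rw [← act_mul, inv_mul_cancel, act_one]

theorem same_type [Fintype ι] [Fintype V] [Fintype κ] {T : Tower ι V} (hT : T.IsNorm)
    (δ : κ → ι → ℤ) (f0 f1 : κ → MvPolynomial V ℂ) (h0 : ∀ j, IsForm T (δ j) (f0 j))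
    (h1 : ∀ j, IsForm T (δ j) (f1 j)) (hs0 : Smooth T f0) (hs1 : Smooth T f1) :
    Nonempty (XSpace T f0 ≃ₜ XSpace T f1) := by
  classical
  obtain ⟨e0⟩ := same_quot hT δ f0 h0
  obtain ⟨e1⟩ := same_quot hT δ f1 h1
  obtain ⟨h, hh⟩ := same_sphere hT δ f0 f1 h0 h1 hs0 hs1
  have hphase : ∀ (f : κ → MvPolynomial V ℂ) (x y : Same_L T f) (t : ι → ℂˣ),
      y.1 = T.act t x.1 → ∀ a, ‖(t a : ℂ)‖ = 1 := by
    intro f x y t hxy
    refine slice_unique x.1 (slice_pt hT x.1 ((same_slice T _).2 x.2.1)) t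
      ((same_slice T _).2 x.2.1) ?_
    rw [← hxy]
    exact (same_slice T _).2 y.2.1
  have hq : Nonempty (Quot (Same_R T f0) ≃ₜ Quot (Same_R T f1)) := by
    refine quot_homeo2 h h.symm h.continuous h.symm.continuous ?_ ?_ ?_ ?_
    · rintro x y ⟨t, hxy⟩
      exact ⟨t, hh t (hphase f0 x y t hxy) x y hxy⟩
    · rintro x y ⟨t, hxy⟩
      have ht := hphase f1 x y t hxy
      let y' : Same_L T f0 := ⟨T.act t (h.symm x).1, (same_slice T _).1
        (same_slice_act T t ht _ ((same_slice T _).2 (h.symm x).2.1)),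
        fun j => by rw [(h0 j).eval_act, (h.symm x).2.2 j, mul_zero]⟩
      have h2 := hh t ht (h.symm x) y' rfl
      rw [h.apply_symm_apply, ← hxy] at h2
      have h3 : h y' = y := Subtype.ext h2
      refine ⟨t, ?_⟩
      rw [← h3, h.symm_apply_apply]
    · intro x
      refine ⟨1, ?_⟩
      rw [h.symm_apply_apply, act_one]
    · intro x
      refine ⟨1, ?_⟩
      rw [h.apply_symm_apply, act_one]
  obtain ⟨e⟩ := hq
  exact ⟨e0.trans (e.trans e1.symm)⟩

theorem pert [Fintype ι] [Fintype V] [Fintype κ] {T : Tower ι V} (hT : T.IsNorm) {n : ℕ}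
    {δ : κ → ι → ℤ} {f : κ → MvPolynomial V ℂ} (h : IsVar T n δ f)
    (f1 : κ → MvPolynomial V ℂ) (h1 : ∀ j, IsForm T (δ j) (f1 j)) (B : Set ℂ) (hB : B.Finite) :
    ∃ s, s ∉ B ∧ IsVar T n δ (lineEq f f1 s) ∧
      Nonempty (XSpace T f ≃ₜ XSpace T (lineEq f f1 s)) := by
  obtain ⟨s, hs⟩ := (hB.union (finite_bad T δ f f1 h.form h1 h.smooth)).infinite_compl.nonempty
  have hs1 : s ∉ B := fun h' => hs (Or.inl h')
  have hs2 : Smooth T (lineEq f f1 s) := by
    by_contra h'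
    exact hs (Or.inr h')
  have hform : ∀ j, IsForm T (δ j) (lineEq f f1 s j) := fun j =>
    ((h.form j).C_mul (1 - s)).add ((h1 j).C_mul s)
  obtain ⟨e⟩ := same_type hT δ f (lineEq f f1 s) h.form hform h.smooth hs2
  refine ⟨s, hs1, ⟨h.free, hform, hs2, ?_, h.canonical, h.dim⟩, ⟨e⟩⟩
  have := h.conn
  exact e.surjective.connectedSpace e.continuous

end Pool.Agent.TOW
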