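import Mathlib
import Pool.Agent.Helper85.TOW.Elim1
import Pool.Agent.Helper85.TOW.Same

/-!
# TOW ELIM2: elimination of a variable, geometry
-/

set_option autoImplicit false

namespace Pool.Agent.TOW

open MvPolynomial

variable {ι V κ : Type} [LinearOrder ι] [Fintype ι] [Fintype V] [Fintype κ]

open Classical in
/-- The point of the old variety over a point of the new one. -/
noncomputable def elim2Ext (v : V) (g : MvPolynomial {u : V // u ≠ v} ℂ)
    (z : {u : V // u ≠ v} → ℂ) : V → ℂ := fun u => if h : u = v then eval z g else z ⟨u, h⟩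

omit [Fintype V] in
theorem elim2Ext_self (v : V) (g : MvPolynomial {u : V // u ≠ v} ℂ)
    (z : {u : V // u ≠ v} → ℂ) : elim2Ext v g z v = eval z g := by
  rw [elim2Ext, dif_pos rfl]

omit [Fintype V] in
theorem elim2Ext_ne (v : V) (g : MvPolynomial {u : V // u ≠ v} ℂ)
    (z : {u : V // u ≠ v} → ℂ) (u : {u : V // u ≠ v}) : elim2Ext v g z u.1 = z u := by
  rw [elim2Ext, dif_neg u.2]

omit [Fintype V] in
theorem elim2Ext_comp (v : V) (g : MvPolynomial {u : V // u ≠ v} ℂ)
    (z : {u : V // u ≠ v} → ℂ) : elim2Ext v g z ∘ Subtype.val = z := by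
  funext u
  exact elim2Ext_ne v g z u

omit [Fintype V] in
theorem elim2Ext_val (v : V) (g : MvPolynomial {u : V // u ≠ v} ℂ)
    (z : V → ℂ) (hz : z v = eval (z ∘ Subtype.val) g) : elim2Ext v g (z ∘ Subtype.val) = z := by
  funext u
  by_cases hu : u = v
  · subst hu
    rw [elim2Ext_self, hz]
  · exact elim2Ext_ne v g _ ⟨u, hu⟩

theorem elim2_eval (v : V) (g : MvPolynomial {u : V // u ≠ v} ℂ)
    (f : MvPolynomial V ℂ) (z : {u : V // u ≠ v} → ℂ) :
    eval z (elimPoly v g f) = eval (elim2Ext v g z) f := elim_eval v g f z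

omit [Fintype V] in
theorem elim2Ext_continuous (v : V) (g : MvPolynomial {u : V // u ≠ v} ℂ) :
    Continuous (elim2Ext v g) := by
  refine continuous_pi fun u => ?_
  by_cases hu : u = v
  · subst hu
    simp only [elim2Ext_self]
    exact MvPolynomial.continuous_eval g
  · have : (fun z => elim2Ext v g z u) = fun z => z ⟨u, hu⟩ := by
      funext z
      exact elim2Ext_ne v g z ⟨u, hu⟩
    rw [this]
    exact continuous_apply _

theorem elim2_act {T : Tower ι V} {v : V} (h : ∃ u, u ≠ v ∧ T.lev u = T.lev v)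
    {g : MvPolynomial {u : V // u ≠ v} ℂ} (hg : IsForm T (T.w v) (rename Subtype.val g))
    (t : ι → ℂˣ) (z : {u : V // u ≠ v} → ℂ) :
    elim2Ext v g ((T.erase v h).act t z) = T.act t (elim2Ext v g z) := by
  funext u
  by_cases hu : u = v
  · subst hu
    have h1 := hg.eval_act t (elim2Ext u g z)
    rw [eval_rename, eval_rename] at h1
    have h2 : (T.act t (elim2Ext u g z)) ∘ Subtype.val = (T.erase u h).act t z := by
      funext w
      show _ * elim2Ext u g z w.1 = _
      rw [elim2Ext_ne]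
      rfl
    rw [h2, elim2Ext_comp] at h1
    rw [elim2Ext_self, h1]
    show _ = _ * elim2Ext u g z u
    rw [elim2Ext_self]
  · rw [elim2Ext_ne v g _ ⟨u, hu⟩]
    show _ = _ * elim2Ext v g z u
    rw [elim2Ext_ne v g _ ⟨u, hu⟩]
    rfl

omit [Fintype ι] in
theorem elim2_smooth {T : Tower ι V} {f : κ → MvPolynomial V ℂ} (hs : Smooth T f) (j : κ) (v : V)
    (hv : ∃ u, u ≠ v ∧ T.lev u = T.lev v) (c : ℂ) (g : MvPolynomial {u : V // u ≠ v} ℂ)
    (hc : c ≠ 0) (hf : f j = C c * (X v - rename Subtype.val g))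
    (hcone : ∀ z ∈ Cone (T.erase v hv) (fun i : {i : κ // i ≠ j} => elimPoly v g (f i.1)),
      elim2Ext v g z ∈ Cone T f) :
    Smooth (T.erase v hv) (fun i : {i : κ // i ≠ j} => elimPoly v g (f i.1)) := by
  classical
  intro z hz
  have hlin := hs _ (hcone z hz)
  rw [Fintype.linearIndependent_iff] at hlin ⊢
  intro y hy i
  set Z := elim2Ext v g z with hZ
  set S := ∑ i, y i * eval Z (pderiv v (f i.1)) with hS
  have hgv : pderiv v (rename Subtype.val g : MvPolynomial V ℂ) = 0 := by
    refine pderiv_eq_zero_of_notMem_vars fun hmem => ?_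
    obtain ⟨w, -, hw⟩ := Finset.mem_image.1 (vars_rename _ _ hmem)
    exact w.2 hw
  have hjv : eval Z (pderiv v (f j)) = c := by
    rw [hf, pderiv_C_mul, map_sub, pderiv_X_self, hgv, sub_zero, mul_one, eval_C]
  have hju : ∀ u : {u : V // u ≠ v}, eval Z (pderiv u.1 (f j)) = - (c * eval z (pderiv u g)) := by
    intro u
    rw [hf, pderiv_C_mul, map_sub, pderiv_X_of_ne u.2.symm, zero_sub,
      pderiv_rename Subtype.val_injective, eval_mul, eval_C, eval_neg, eval_rename, hZ,
      elim2Ext_comp]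
    ring
  have hy' : ∀ u : {u : V // u ≠ v},
      ∑ i, y i * eval Z (pderiv u.1 (f i.1)) + eval z (pderiv u g) * S = 0 := by
    intro u
    have h1 := congrFun hy u
    rw [Finset.sum_apply, Pi.zero_apply] at h1
    rw [← h1, hS, Finset.mul_sum, ← Finset.sum_add_distrib]
    refine Finset.sum_congr rfl fun i _ => ?_
    rw [Pi.smul_apply, smul_eq_mul, elim_pderiv, eval_add, eval_mul, elim2_eval, elim2_eval, ← hZ]
    ring
  have key := hlin (fun i => if h : i = j then - (c⁻¹ * S) else y ⟨i, h⟩) (by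
    funext u
    rw [Finset.sum_apply, Pi.zero_apply, Fintype.sum_eq_add_sum_subtype_ne _ j]
    have h2 : ∑ i : {i : κ // i ≠ j},
        ((if h : i.1 = j then - (c⁻¹ * S) else y ⟨i.1, h⟩) •
          fun u : V => eval Z (pderiv u (f i.1))) u = ∑ i, y i * eval Z (pderiv u (f i.1)) := by
      refine Finset.sum_congr rfl fun i _ => ?_
      rw [dif_neg i.2]
      rfl
    rw [h2, dif_pos rfl, Pi.smul_apply, smul_eq_mul]
    by_cases hu : u = v
    · subst hu
      rw [hjv, ← hS, neg_mul, mul_right_comm, inv_mul_cancel₀ hc, one_mul, neg_add_cancel]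
    · have h3 := hy' ⟨u, hu⟩
      have h4 := hju ⟨u, hu⟩
      simp only at h3 h4
      rw [h4, ← h3]
      field_simp
      ring)
  have := key i.1
  rwa [dif_neg i.2] at this

/-- The point of the old variety over a point of the new one is a homeomorphism; smoothness is
preserved. -/
theorem elim {T : Tower ι V} {n : ℕ} {δ : κ → ι → ℤ} {f : κ → MvPolynomial V ℂ}
    (h : IsVar T n δ f) (j : κ) (v : V) (hj : δ j = T.w v)
    (hc : coeff (Finsupp.single v 1) (f j) ≠ 0) (X : Type) [TopologicalSpace X]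
    (hX : Nonempty (X ≃ₜ XSpace T f)) : ∃ N < Fintype.card V, Real n N X := by
  classical
  obtain ⟨hv, c, g, hc0, hf, hg, hg0⟩ := elim_shape h j v hj hc
  set T' := T.erase v hv with hT'
  set f' : {i : κ // i ≠ j} → MvPolynomial {u : V // u ≠ v} ℂ := fun i => elimPoly v g (f i.1)
    with hf'
  -- on the variety, `x_v` is `g`
  have hzv : ∀ z ∈ Cone T f, z v = eval (z ∘ Subtype.val) g := by
    intro z hz
    have h1 := hz.2 j
    rw [hf, eval_mul, eval_C, eval_sub, eval_X, eval_rename] at h1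
    exact sub_eq_zero.1 ((mul_eq_zero.1 h1).resolve_left hc0)
  have hF : ∀ z ∈ Cone T f, z ∘ Subtype.val ∈ Cone T' f' := by
    intro z hz
    refine ⟨fun a => ?_, fun i => ?_⟩
    · obtain ⟨u, hu, hzu⟩ := hz.1 a
      by_cases huv : u = v
      · subst huv
        by_contra hcon
        push Not at hcon
        apply hzu
        rw [hzv z hz]
        exact hg0 _ fun w hw => hcon w (hw.trans hu)
      · exact ⟨⟨u, huv⟩, hu, hzu⟩
    · rw [hf', elim2_eval, elim2Ext_val v g z (hzv z hz)]
      exact hz.2 i.1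
  have hG : ∀ z ∈ Cone T' f', elim2Ext v g z ∈ Cone T f := by
    intro z hz
    refine ⟨fun a => ?_, fun i => ?_⟩
    · obtain ⟨u, hu, hzu⟩ := hz.1 a
      exact ⟨u.1, hu, by rw [elim2Ext_ne]; exact hzu⟩
    · by_cases hi : i = j
      · subst hi
        rw [hf, eval_mul, eval_sub, eval_X, eval_rename, elim2Ext_self, elim2Ext_comp, sub_self,
          mul_zero]
      · rw [← elim2_eval]
        exact hz.2 ⟨i, hi⟩
  have hhomeo : Nonempty (XSpace T f ≃ₜ XSpace T' f') := by
    refine quot_homeo2 (fun x => (⟨x.1 ∘ Subtype.val, hF _ x.2⟩ : Cone T' f'))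
      (fun x => (⟨elim2Ext v g x.1, hG _ x.2⟩ : Cone T f)) ?_ ?_ ?_ ?_ ?_ ?_
    · refine Continuous.subtype_mk ?_ _
      exact continuous_pi fun u => (continuous_apply u.1).comp continuous_subtype_val
    · exact Continuous.subtype_mk ((elim2Ext_continuous v g).comp continuous_subtype_val) _
    · rintro x y ⟨t, ht⟩
      refine ⟨t, ?_⟩
      show y.1 ∘ Subtype.val = _
      rw [ht]
      rfl
    · rintro x y ⟨t, ht⟩
      refine ⟨t, ?_⟩
      show elim2Ext v g y.1 = T.act t (elim2Ext v g x.1)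
      rw [ht, elim2_act hv hg]
    · intro x
      refine ⟨1, ?_⟩
      rw [act_one]
      exact (elim2Ext_val v g x.1 (hzv _ x.2)).symm
    · intro x
      refine ⟨1, ?_⟩
      rw [act_one]
      exact (elim2Ext_comp v g x.1).symm
  obtain ⟨φ⟩ := hhomeo
  obtain ⟨ψ⟩ := hX
  have hcardV : Fintype.card {u : V // u ≠ v} = Fintype.card V - 1 := by
    simp [Fintype.card_subtype_compl]
  have hcardκ : Fintype.card {i : κ // i ≠ j} = Fintype.card κ - 1 := by
    simp [Fintype.card_subtype_compl]
  have hV : 0 < Fintype.card V := Fintype.card_pos_iff.2 ⟨v⟩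
  have hκ : 0 < Fintype.card κ := Fintype.card_pos_iff.2 ⟨j⟩
  refine ⟨Fintype.card {u : V // u ≠ v}, by omega, ι, {u : V // u ≠ v}, {i : κ // i ≠ j}, _, _, _, _,
    T', fun i => δ i.1, f', ⟨fun i => elim_free hv (h.free i.1),
      fun i => elim_form hv hg (h.form i.1), elim2_smooth h.smooth j v hv c g hc0 hf hG, ?_, ?_, ?_⟩,
    rfl, ⟨ψ.trans φ⟩⟩
  · have := h.conn
    exact φ.surjective.connectedSpace φ.continuous
  · intro a
    have h1 := h.canonical a
    rw [Fintype.sum_eq_add_sum_subtype_ne _ j, Fintype.sum_eq_add_sum_subtype_ne _ v, hj] at h1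
    exact add_left_cancel h1
  · have := h.dim
    omega

theorem step_elim {T : Tower ι V} (hT : T.IsNorm) {n : ℕ} {δ : κ → ι → ℤ}
    {f : κ → MvPolynomial V ℂ}
    (h : IsVar T n δ f) (j : κ) (v : V) (hj : δ j = T.w v) (X : Type) [TopologicalSpace X]
    (hX : Nonempty (X ≃ₜ XSpace T f)) : ∃ N < Fintype.card V, Real n N X := by
  classical
  obtain ⟨s, hs, h1, ⟨φ⟩⟩ := pert hT h (fun i => if i = j then f j + MvPolynomial.X v else f i)
    (by
      intro i
      by_cases hi : i = j
      · subst hi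
        rw [if_pos rfl]
        exact (h.form i).add (hj ▸ isForm_X T v)
      · rw [if_neg hi]
        exact h.form i) {-coeff (Finsupp.single v 1) (f j)} (Set.finite_singleton _)
  obtain ⟨ψ⟩ := hX
  refine elim h1 j v hj ?_ X ⟨ψ.trans φ⟩
  rw [lineEq, if_pos rfl, coeff_add, coeff_C_mul, coeff_C_mul, coeff_add, coeff_X, if_pos rfl]
  intro h0
  apply hs
  rw [Set.mem_singleton_iff]
  linear_combination h0

end Pool.Agent.TOW
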