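import Mathlib
import Pool.Agent.Helper85.TOW.Basic

/-!
# TOW NEF: nef degrees in an adapted basis, bounds for the data
-/

set_option autoImplicit false

namespace Pool.Agent.TOW

open MvPolynomial

variable {ι V κ : Type} [LinearOrder ι] [Fintype ι] [Fintype V]

private lemma nef_prod {T : Tower ι V} (s : Finset ι) (k : ι → ℕ) (δs : ι → ι → ℤ)
    (g : ι → MvPolynomial V ℂ) (h : ∀ a ∈ s, IsForm T (δs a) (g a)) :
    IsForm T (∑ a ∈ s, k a • δs a) (∏ a ∈ s, g a ^ k a) := by
  induction s using Finset.induction_on with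
  | empty => rw [Finset.sum_empty, Finset.prod_empty]; exact isForm_one T
  | insert a s ha ih =>
    rw [Finset.sum_insert ha, Finset.prod_insert ha]
    exact ((h a (Finset.mem_insert_self _ _)).pow (k a)).mul
      (ih fun b hb => h b (Finset.mem_insert_of_mem hb))

private lemma nef_unit {T : Tower ι V} (hT : T.IsNorm) {z : V → ℂ} (hz : z ∈ Pt T) (a : ι) :
    ∃ g : MvPolynomial V ℂ, IsForm T (Pi.single a 1) g ∧ eval z g ≠ 0 := by
  induction a using WellFoundedLT.induction with
  | ind a ih =>
    obtain ⟨v, hv, hzv⟩ := hz a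
    have hg : ∀ b, ∃ g : MvPolynomial V ℂ, b < a → IsForm T (Pi.single b 1) g ∧ eval z g ≠ 0 := by
      intro b
      by_cases hb : b < a
      · obtain ⟨g, hg⟩ := ih b hb
        exact ⟨g, fun _ => hg⟩
      · exact ⟨0, fun h => absurd h hb⟩
    choose g hg using hg
    have hmem : ∀ b ∈ Finset.univ.filter (· < a), b < a := fun b hb => (Finset.mem_filter.1 hb).2
    have h1 := nef_prod (T := T) (Finset.univ.filter (· < a)) (fun b => (-T.w v b).toNat)
      (fun b => Pi.single b 1) g fun b hb => (hg b (hmem b hb)).1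
    refine ⟨X v * ∏ b ∈ Finset.univ.filter (· < a), g b ^ (-T.w v b).toNat, ?_, ?_⟩
    · have h2 := (isForm_X T v).mul h1
      have h3 : T.w v + ∑ b ∈ Finset.univ.filter (· < a), (-T.w v b).toNat • Pi.single b (1 : ℤ) =
          (Pi.single a 1 : ι → ℤ) := by
        funext c
        rw [Pi.add_apply, Finset.sum_apply]
        by_cases hc : c < a
        · rw [Finset.sum_eq_single c]
          · have h4 : T.w v c ≤ 0 := hT.nonpos v c (by rw [hv]; exact hc)
            rw [Pi.smul_apply, Pi.single_eq_same, Pi.single_eq_of_ne hc.ne]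
            simp only [mul_one, nsmul_eq_mul]
            omega
          · intro b _ hb
            rw [Pi.smul_apply, Pi.single_eq_of_ne hb.symm, smul_zero]
          · intro h4
            exact absurd (show c ∈ Finset.univ.filter (· < a) from
              Finset.mem_filter.2 ⟨Finset.mem_univ _, hc⟩) h4
        · rw [Finset.sum_eq_zero, add_zero]
          · rcases eq_or_lt_of_le (not_lt.1 hc) with h4 | h4
            · rw [← h4, Pi.single_eq_same, ← hv, T.w_lev]
            · rw [Pi.single_eq_of_ne h4.ne', T.w_gt v c (by rw [hv]; exact h4)]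
          · intro b hb
            rw [Pi.smul_apply, Pi.single_eq_of_ne, smul_zero]
            rintro rfl
            exact hc (hmem _ hb)
      rw [h3] at h2
      exact h2
    · rw [map_mul, eval_X, map_prod]
      refine mul_ne_zero hzv (Finset.prod_ne_zero_iff.2 fun b hb => ?_)
      rw [map_pow]
      exact pow_ne_zero _ (hg b (hmem b hb)).2

theorem free_iff {T : Tower ι V} (hT : T.IsNorm) (δ : ι → ℤ) : Free T δ ↔ ∀ b, 0 ≤ δ b := by
  classical
  constructor
  · intro hF b
    have hex : ∀ a, ∃ v, T.lev v = a ∧ (b < a → T.w v b = 0) := by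
      intro a
      by_cases hba : b < a
      · obtain ⟨v, h1, h2⟩ := hT.ex a b hba
        exact ⟨v, h1, fun _ => h2⟩
      · obtain ⟨v, hv⟩ := T.surj a
        exact ⟨v, hv, fun h => absurd h hba⟩
    choose va hva1 hva2 using hex
    let z : V → ℂ := fun v => if v = va (T.lev v) then 1 else 0
    have hz : z ∈ Pt T := by
      intro a
      refine ⟨va a, hva1 a, ?_⟩
      show (if va a = va (T.lev (va a)) then (1 : ℂ) else 0) ≠ 0
      rw [hva1 a, if_pos rfl]
      exact one_ne_zero
    obtain ⟨g, hg1, hg2⟩ := hF z hz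
    rw [eval_eq'] at hg2
    obtain ⟨m, hm1, hm2⟩ := Finset.exists_ne_zero_of_sum_ne_zero hg2
    have hm3 := Finset.prod_ne_zero_iff.1 (right_ne_zero_of_mul hm2)
    rw [← hg1 m hm1 b]
    refine Finset.sum_nonneg fun v _ => ?_
    by_cases hv : v = va (T.lev v)
    · rcases lt_trichotomy b (T.lev v) with h | h | h
      · rw [hv, hva2 _ h, mul_zero]
      · rw [h, T.w_lev, mul_one]
        exact Int.natCast_nonneg _
      · rw [T.w_gt v b h, mul_zero]
    · have h1 := hm3 v (Finset.mem_univ _)
      have h2 : z v = 0 := if_neg hv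
      rw [h2] at h1
      have h3 : m v = 0 := by
        by_contra h4
        exact h1 (zero_pow h4)
      rw [h3]
      simp
  · intro hδ z hz
    choose g hg1 hg2 using fun a => nef_unit hT hz a
    refine ⟨∏ a, g a ^ (δ a).toNat, ?_, ?_⟩
    · have h1 := nef_prod (T := T) Finset.univ (fun b => (δ b).toNat) (fun b => Pi.single b 1) g
        fun b _ => hg1 b
      have h2 : ∑ b, (δ b).toNat • (Pi.single b (1 : ℤ) : ι → ℤ) = δ := by
        funext c
        rw [Finset.sum_apply, Finset.sum_eq_single c]
        · rw [Pi.smul_apply, Pi.single_eq_same]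
          simp only [mul_one, nsmul_eq_mul]
          exact Int.toNat_of_nonneg (hδ c)
        · intro b _ hb
          rw [Pi.smul_apply, Pi.single_eq_of_ne hb.symm, smul_zero]
        · intro h4
          exact absurd (Finset.mem_univ _) h4
      rw [h2] at h1
      exact h1
    · rw [map_prod]
      refine Finset.prod_ne_zero_iff.2 fun b _ => ?_
      rw [map_pow]
      exact pow_ne_zero _ (hg2 b)

/-- The data are bounded in terms of the number of coordinates. -/
theorem data_bdd [Fintype κ] {T : Tower ι V} (hT : T.IsNorm) {n : ℕ} {δ : κ → ι → ℤ}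
    {f : κ → MvPolynomial V ℂ} (h : IsVar T n δ f) :
    (∀ v b, |T.w v b| ≤ Fintype.card V) ∧ ∀ j b, |δ j b| ≤ Fintype.card V := by
  classical
  have hle : ∀ v b, T.w v b ≤ 1 := by
    intro v b
    rcases lt_trichotomy b (T.lev v) with h1 | h1 | h1
    · exact (hT.nonpos v b h1).trans (by norm_num)
    · rw [h1, T.w_lev]
    · rw [T.w_gt v b h1]; norm_num
  have hnn : ∀ j b, 0 ≤ δ j b := fun j b => (free_iff hT (δ j)).1 (h.free j) b
  have hsum : ∀ b, 0 ≤ ∑ v, T.w v b := by
    intro b
    rw [← h.canonical b]
    exact Finset.sum_nonneg fun j _ => hnn j b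
  have hcard : ∀ b, ∑ v, T.w v b ≤ Fintype.card V := by
    intro b
    refine (Finset.sum_le_sum fun v _ => hle v b).trans ?_
    rw [Finset.sum_const, Finset.card_univ, nsmul_eq_mul, mul_one]
  constructor
  · intro v b
    have h1 : ∑ u ∈ Finset.univ.erase v, T.w u b ≤ ((Finset.univ.erase v).card : ℤ) := by
      refine (Finset.sum_le_sum fun u _ => hle u b).trans ?_
      rw [Finset.sum_const, nsmul_eq_mul, mul_one]
    have h2 := Finset.add_sum_erase Finset.univ (fun u => T.w u b) (Finset.mem_univ v)
    have h3 : ((Finset.univ.erase v).card : ℤ) ≤ Fintype.card V := by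
      exact_mod_cast (Finset.card_le_univ _)
    have h4 : (1 : ℤ) ≤ Fintype.card V := by
      exact_mod_cast (Fintype.card_pos_iff.2 ⟨v⟩)
    have h5 := hsum b
    have h6 := hle v b
    rw [abs_le]
    constructor
    · linarith
    · linarith
  · intro j b
    rw [abs_of_nonneg (hnn j b)]
    refine le_trans ?_ (hcard b)
    rw [← h.canonical b]
    exact Finset.single_le_sum (f := fun j => δ j b) (fun j _ => hnn j b) (Finset.mem_univ j)

end Pool.Agent.TOW
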