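import Mathlib
import Pool.Agent.Helper85.TOW.Ra1

/-!
# TOW RA2: determinantal contraction, smoothness
-/

set_option autoImplicit false

namespace Pool.Agent.TOW

open MvPolynomial

variable {ι V κ : Type} [LinearOrder ι] [Fintype ι] [Fintype V] [Fintype κ]

/-- matrices of rank one -/
theorem ra2_rank {a b c d : ℂ} (h : a * d = b * c) (h0 : ¬ (a = 0 ∧ b = 0 ∧ c = 0 ∧ d = 0)) :
    ∃ u1 u2 v1 v2 : ℂ, a = u1 * v1 ∧ b = u1 * v2 ∧ c = u2 * v1 ∧ d = u2 * v2 ∧
      ¬ (v1 = 0 ∧ v2 = 0) ∧ ¬ (u1 = 0 ∧ u2 = 0) := by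
  by_cases ha : a = 0
  · by_cases hb : b = 0
    · refine ⟨0, 1, c, d, by rw [ha]; ring, by rw [hb]; ring, by ring, by ring, ?_, by simp⟩
      rintro ⟨hc, hd⟩
      exact h0 ⟨ha, hb, hc, hd⟩
    · have hc : c = 0 := by
        rw [ha, zero_mul] at h
        exact (mul_eq_zero.1 h.symm).resolve_left hb
      refine ⟨1, d / b, a, b, by ring, by ring, by rw [hc, ha]; ring, by field_simp, ?_, by simp⟩
      rintro ⟨-, h2⟩
      exact hb h2
  · refine ⟨1, c / a, a, b, by ring, by ring, by field_simp, ?_, ?_, by simp⟩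
    · field_simp
      linear_combination h
    · rintro ⟨h2, -⟩
      exact ha h2

theorem ra_smooth {T : Tower ι V} {δ : κ → ι → ℤ} {f : κ → MvPolynomial V ℂ}
    (hf : ∀ j, IsForm T (δ j) (f j)) (hs : Smooth T f) {i : ι} {x y : V} {j1 j2 : κ}
    (H : RAHyp T δ i x y j1 j2)
    (nv : ∀ z ∈ Pt T, ¬ (eval z (pderiv x (f j1)) = 0 ∧ eval z (pderiv y (f j1)) = 0 ∧
      eval z (pderiv x (f j2)) = 0 ∧ eval z (pderiv y (f j2)) = 0)) :
    Smooth (T.del i) (raEq T i x y j1 j2 f) := by
  classical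
  intro z' hz'
  obtain ⟨hpt, heq⟩ := hz'
  -- extensions
  let ext : ℂ → ℂ → V → ℂ := fun p q v => if h : T.lev v ≠ i then z' ⟨v, h⟩ else
    if v = x then p else q
  have hext : ∀ p q v (h : T.lev v ≠ i), ext p q v = z' ⟨v, h⟩ := fun p q v h => by
    simp only [ext, dif_pos h]
  have hextx : ∀ p q, ext p q x = p := fun p q => by
    simp only [ext, H.hx, ne_eq, not_true_eq_false, dite_false, if_true]
  have hexty : ∀ p q, ext p q y = q := fun p q => by
    simp only [ext, H.hy, ne_eq, not_true_eq_false, dite_false, if_neg H.hxy.symm]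
  have hextpt : ∀ p q, ¬ (p = 0 ∧ q = 0) → ext p q ∈ Pt T := by
    intro p q hpq a
    by_cases ha : a = i
    · subst ha
      by_cases hp : p = 0
      · refine ⟨y, H.hy, ?_⟩
        rw [hexty]
        exact fun hq => hpq ⟨hp, hq⟩
      · refine ⟨x, H.hx, ?_⟩
        rw [hextx]
        exact hp
    · obtain ⟨v, hv1, hv2⟩ := hpt ⟨a, ha⟩
      refine ⟨v.1, congrArg Subtype.val hv1, ?_⟩
      rw [hext p q v.1 v.2]
      exact hv2
  -- evaluation of forms of degree zero on the level
  have hdel : ∀ (g : MvPolynomial V ℂ) (ε : ι → ℤ), IsForm T ε g → ε i = 0 → ∀ p q,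
      eval z' (delPoly T i 0 g) = eval (ext p q) g := by
    intro g ε hg h0 p q
    rw [del_eval]
    apply pure_eval hg H.pure h0
    intro v hv
    rw [dif_pos hv, hext p q v hv]
  obtain ⟨c1, d1x, d1y⟩ := ra_coeff H hf j1 (Or.inl rfl)
  obtain ⟨c2, d2x, d2y⟩ := ra_coeff H hf j2 (Or.inr rfl)
  have fA := (hf j1).pderiv x
  have fB := (hf j1).pderiv y
  have fC := (hf j2).pderiv x
  have fD := (hf j2).pderiv y
  set A := pderiv x (f j1) with hA
  set B := pderiv y (f j1) with hB
  set Cc := pderiv x (f j2) with hCc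
  set Dd := pderiv y (f j2) with hDd
  -- values
  set a := eval (ext 1 1) A with ha
  set b := eval (ext 1 1) B with hb
  set c := eval (ext 1 1) Cc with hc
  set d := eval (ext 1 1) Dd with hd
  have va : ∀ p q, eval (ext p q) A = a := fun p q => by
    rw [ha, ← hdel A _ fA d1x p q, ← hdel A _ fA d1x 1 1]
  have vb : ∀ p q, eval (ext p q) B = b := fun p q => by
    rw [hb, ← hdel B _ fB d1y p q, ← hdel B _ fB d1y 1 1]
  have vc : ∀ p q, eval (ext p q) Cc = c := fun p q => by
    rw [hc, ← hdel Cc _ fC d2x p q, ← hdel Cc _ fC d2x 1 1]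
  have vd : ∀ p q, eval (ext p q) Dd = d := fun p q => by
    rw [hd, ← hdel Dd _ fD d2y p q, ← hdel Dd _ fD d2y 1 1]
  have hdet : a * d = b * c := by
    have h1 := heq ⟨j1, H.hj⟩
    simp only [raEq, if_true] at h1
    rw [map_sub, map_mul, map_mul, map_sub, map_mul, map_mul,
      hdel A _ fA d1x 1 1, hdel B _ fB d1y 1 1, hdel Cc _ fC d2x 1 1, hdel Dd _ fD d2y 1 1] at h1
    exact sub_eq_zero.1 h1
  have hne : ¬ (a = 0 ∧ b = 0 ∧ c = 0 ∧ d = 0) := nv _ (hextpt 1 1 (by simp))
  obtain ⟨u1, u2, v1, v2, ea, eb, ec, ed, hv, hu⟩ := ra2_rank hdet hne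
  -- the point of the variety
  set z := ext v2 (-v1) with hz
  have hzx : z x = v2 := hextx _ _
  have hzy : z y = -v1 := hexty _ _
  have hzc : z ∈ Cone T f := by
    refine ⟨hextpt _ _ ?_, fun j => ?_⟩
    · rintro ⟨h1, h2⟩
      exact hv ⟨neg_eq_zero.1 h2, h1⟩
    · by_cases hj1 : j = j1
      · rw [hj1, c1, map_add, map_mul, map_mul, eval_X, eval_X, va, vb, hzx, hzy, ea, eb]
        ring
      · by_cases hj2 : j = j2
        · rw [hj2, c2, map_add, map_mul, map_mul, eval_X, eval_X, vc, vd, hzx, hzy, ec, ed]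
          ring
        · have h1 := heq ⟨j, hj2⟩
          simp only [raEq, hj1, if_false] at h1
          rw [hdel (f j) _ (hf j) (H.d0 j hj1 hj2) v2 (-v1)] at h1
          exact h1
  have hli := hs z hzc
  rw [Fintype.linearIndependent_iff] at hli ⊢
  intro g hg
  have hJ : (⟨j1, H.hj⟩ : {j : κ // j ≠ j2}).1 = j1 := rfl
  set g1 := g ⟨j1, H.hj⟩ with hg1
  let Y : κ → ℂ := fun j => if h : j = j2 then g1 * (-u1) else if j = j1 then g1 * u2 else g ⟨j, h⟩
  have hY2 : Y j2 = g1 * (-u1) := by simp [Y]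
  have hY1 : Y j1 = g1 * u2 := by simp [Y, H.hj]
  have hYo : ∀ j (h : j ≠ j2), j ≠ j1 → Y j = g ⟨j, h⟩ := fun j h h' => by simp [Y, h, h']
  have key : ∑ j, Y j • (fun v : V => eval z (pderiv v (f j))) = 0 := by
    funext v
    rw [Finset.sum_apply, Pi.zero_apply]
    simp only [Pi.smul_apply, smul_eq_mul]
    rw [Fintype.sum_eq_add_sum_subtype_ne (fun j => Y j * eval z (pderiv v (f j))) j2, hY2]
    by_cases hvi : T.lev v = i
    · -- directions x and y
      have h0 : ∀ j : {j : κ // j ≠ j2}, j ≠ ⟨j1, H.hj⟩ →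
          Y j.1 * eval z (pderiv v (f j.1)) = 0 := by
        intro j hj
        have hj1 : j.1 ≠ j1 := fun h => hj (Subtype.ext h)
        rw [pure_pderiv (hf j.1) H.pure (H.d0 j.1 hj1 j.2) v hvi, map_zero, mul_zero]
      rw [Finset.sum_eq_single (⟨j1, H.hj⟩ : {j : κ // j ≠ j2}) (fun j _ hj => h0 j hj)
        (fun h => absurd (Finset.mem_univ _) h), hY1]
      rcases H.only v hvi with h | h
      · rw [h, ← hA, ← hCc, va, vc, ea, ec]
        ring
      · rw [h, ← hB, ← hDd, vb, vd, eb, ed]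
        ring
    · -- the other directions
      have hg' := congrFun hg ⟨v, hvi⟩
      rw [Finset.sum_apply, Pi.zero_apply] at hg'
      simp only [Pi.smul_apply, smul_eq_mul] at hg'
      have hwv := H.pure v hvi
      have hvx : x ≠ v := fun h => hvi (h ▸ H.hx)
      have hvy : y ≠ v := fun h => hvi (h ▸ H.hy)
      -- the derivatives of the two equations
      have e1 : eval z (pderiv v (f j1)) = v2 * eval z (pderiv v A) - v1 * eval z (pderiv v B) := by
        conv_lhs => rw [c1]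
        rw [map_add, pderiv_mul, pderiv_mul, pderiv_X_of_ne hvx, pderiv_X_of_ne hvy]
        simp only [map_add, map_mul, zero_mul, zero_add, eval_X, map_zero]
        rw [hzx, hzy]
        ring
      have e2 : eval z (pderiv v (f j2)) = v2 * eval z (pderiv v Cc) - v1 * eval z (pderiv v Dd) := by
        conv_lhs => rw [c2]
        rw [map_add, pderiv_mul, pderiv_mul, pderiv_X_of_ne hvx, pderiv_X_of_ne hvy]
        simp only [map_add, map_mul, zero_mul, zero_add, eval_X, map_zero]
        rw [hzx, hzy]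
        ring
      have e3 : eval z' (pderiv ⟨v, hvi⟩ (raEq T i x y j1 j2 f ⟨j1, H.hj⟩)) =
          eval z (pderiv v A) * d + a * eval z (pderiv v Dd) -
            (eval z (pderiv v B) * c + b * eval z (pderiv v Cc)) := by
        have h1 : raEq T i x y j1 j2 f ⟨j1, H.hj⟩ = delPoly T i 0 (A * Dd - B * Cc) := by
          simp only [raEq, if_true]
          rfl
        have hform : IsForm T (δ j1 - T.w x + (δ j2 - T.w y)) (A * Dd - B * Cc) := by
          have h1 := fA.mul fD
          have h2 := fB.mul fC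
          have e : δ j1 - T.w y + (δ j2 - T.w x) = δ j1 - T.w x + (δ j2 - T.w y) := by
            funext a
            simp only [Pi.add_apply, Pi.sub_apply]
            ring
          rw [e] at h2
          exact h1.sub h2
        rw [h1, del_pderiv, hdel _ _ (hform.pderiv v)
          (by rw [Pi.sub_apply, Pi.add_apply, d1x, d2y, hwv]; ring) v2 (-v1)]
        rw [map_sub, pderiv_mul, pderiv_mul]
        simp only [map_add, map_sub, map_mul]
        rw [va, vb, vc, vd]
      have e4 : ∀ j : {j : κ // j ≠ j2}, j.1 ≠ j1 →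
          eval z' (pderiv ⟨v, hvi⟩ (raEq T i x y j1 j2 f j)) = eval z (pderiv v (f j.1)) := by
        intro j hj
        have h1 : raEq T i x y j1 j2 f j = delPoly T i 0 (f j.1) := by
          simp only [raEq, hj, if_false]
        rw [h1, del_pderiv, hdel _ _ ((hf j.1).pderiv v)
          (by rw [Pi.sub_apply, H.d0 j.1 hj j.2, hwv]; ring) v2 (-v1)]
      rw [Fintype.sum_eq_add_sum_subtype_ne _ (⟨j1, H.hj⟩ : {j : κ // j ≠ j2})] at hg' ⊢
      rw [e3] at hg'
      have e5 : ∑ j : {j : {j : κ // j ≠ j2} // j ≠ ⟨j1, H.hj⟩},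
          Y j.1.1 * eval z (pderiv v (f j.1.1)) =
          ∑ j : {j : {j : κ // j ≠ j2} // j ≠ ⟨j1, H.hj⟩},
          g j.1 * eval z' (pderiv ⟨v, hvi⟩ (raEq T i x y j1 j2 f j.1)) := by
        refine Finset.sum_congr rfl fun j _ => ?_
        have hj1 : j.1.1 ≠ j1 := fun h => j.2 (Subtype.ext h)
        rw [e4 j.1 hj1, hYo j.1.1 j.1.2 hj1]
      rw [e5, hY1, e1, e2]
      rw [ea, eb, ec, ed, ← hg1] at hg'
      linear_combination hg'
  have hY := hli Y key
  have hg10 : g1 = 0 := by
    have h1 := hY j1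
    have h2 := hY j2
    rw [hY1] at h1
    rw [hY2] at h2
    by_contra h3
    have h4 := (mul_eq_zero.1 h1).resolve_left h3
    have h5 := (mul_eq_zero.1 h2).resolve_left h3
    exact hu ⟨neg_eq_zero.1 h5, h4⟩
  intro j
  by_cases hj : j.1 = j1
  · have : j = ⟨j1, H.hj⟩ := Subtype.ext hj
    rw [this]
    exact hg10
  · have h1 := hY j.1
    rw [hYo j.1 j.2 hj] at h1
    exact h1

end Pool.Agent.TOW
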