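import Mathlib
import Pool.Agent.Helper85.TOW.Ra1

/-!
# TOW RA3: determinantal contraction, homeomorphism
-/

set_option autoImplicit false
set_option linter.unusedSectionVars false

namespace Pool.Agent.TOW

open MvPolynomial

variable {ι V κ : Type} [LinearOrder ι] [Fintype ι] [Fintype V] [Fintype κ]

open Classical in
/-- extension of a vector of coordinates to the level `i` -/
noncomputable def ra3Ext (T : Tower ι V) (i : ι) (x : V) (z : {v : V // T.lev v ≠ i} → ℂ)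
    (p q : ℂ) : V → ℂ :=
  fun v => if h : T.lev v ≠ i then z ⟨v, h⟩ else if v = x then p else q

omit [Fintype ι] [Fintype V] in
theorem ra3_ext_ne {T : Tower ι V} {i : ι} {x : V} {z : {v : V // T.lev v ≠ i} → ℂ} {p q : ℂ}
    {v : V} (h : T.lev v ≠ i) : ra3Ext T i x z p q v = z ⟨v, h⟩ := by
  simp only [ra3Ext, dif_pos h]

omit [Fintype ι] [Fintype V] in
theorem ra3_ext_x {T : Tower ι V} {i : ι} {x : V} {z : {v : V // T.lev v ≠ i} → ℂ} {p q : ℂ}
    (h : T.lev x = i) : ra3Ext T i x z p q x = p := by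
  simp [ra3Ext, h]

omit [Fintype ι] [Fintype V] in
theorem ra3_ext_y {T : Tower ι V} {i : ι} {x y : V} {z : {v : V // T.lev v ≠ i} → ℂ} {p q : ℂ}
    (h : T.lev y = i) (hxy : x ≠ y) : ra3Ext T i x z p q y = q := by
  simp [ra3Ext, h, hxy.symm]

omit [Fintype ι] in
theorem ra3_eval {T : Tower ι V} {i : ι} {x : V} {ε : ι → ℤ} {g : MvPolynomial V ℂ}
    (hg : IsForm T ε g) (pure : ∀ v, T.lev v ≠ i → T.w v i = 0) (h0 : ε i = 0)
    (z : {v : V // T.lev v ≠ i} → ℂ) (p q : ℂ) :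
    eval (ra3Ext T i x z p q) g = eval (ra3Ext T i x z 0 0) g :=
  pure_eval hg pure h0 _ _ fun v hv => by rw [ra3_ext_ne hv, ra3_ext_ne hv]

omit [Fintype ι] in
theorem ra3_del {T : Tower ι V} {i : ι} (x : V) (g : MvPolynomial V ℂ)
    (z : {v : V // T.lev v ≠ i} → ℂ) :
    eval z (delPoly T i 0 g) = eval (ra3Ext T i x z 0 0) g := by
  rw [del_eval]
  congr 2
  funext v
  by_cases h : T.lev v ≠ i
  · rw [dif_pos h, ra3_ext_ne h]
  · rw [dif_neg h]
    simp only [ra3Ext, dif_neg h, Pi.zero_apply, ite_self]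

omit [Fintype ι] in
theorem ra3_cone_iff {T : Tower ι V} {δ : κ → ι → ℤ} {f : κ → MvPolynomial V ℂ}
    (hf : ∀ j, IsForm T (δ j) (f j)) {i : ι} {x y : V} {j1 j2 : κ}
    (H : RAHyp T δ i x y j1 j2) (z : {v : V // T.lev v ≠ i} → ℂ) (p q : ℂ) :
    ra3Ext T i x z p q ∈ Cone T f ↔ z ∈ Pt (T.del i) ∧ (p ≠ 0 ∨ q ≠ 0) ∧
      (p * eval (ra3Ext T i x z 0 0) (pderiv x (f j1)) +
        q * eval (ra3Ext T i x z 0 0) (pderiv y (f j1)) = 0) ∧
      (p * eval (ra3Ext T i x z 0 0) (pderiv x (f j2)) +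
        q * eval (ra3Ext T i x z 0 0) (pderiv y (f j2)) = 0) ∧
      ∀ j, j ≠ j1 → j ≠ j2 → eval (ra3Ext T i x z 0 0) (f j) = 0 := by
  have hval : ∀ j, j = j1 ∨ j = j2 → eval (ra3Ext T i x z p q) (f j) =
      p * eval (ra3Ext T i x z 0 0) (pderiv x (f j)) +
        q * eval (ra3Ext T i x z 0 0) (pderiv y (f j)) := by
    intro j hj
    obtain ⟨h1, h2, h3⟩ := ra_coeff H hf j hj
    conv_lhs => rw [h1]
    rw [map_add, map_mul, map_mul, eval_X, eval_X, ra3_ext_x H.hx, ra3_ext_y H.hy H.hxy,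
      ra3_eval ((hf j).pderiv x) H.pure h2, ra3_eval ((hf j).pderiv y) H.pure h3]
  constructor
  · rintro ⟨h1, h2⟩
    refine ⟨?_, ?_, ?_, ?_, ?_⟩
    · rintro ⟨a, ha⟩
      obtain ⟨v, hv, hz⟩ := h1 a
      have hvi : T.lev v ≠ i := by rw [hv]; exact ha
      refine ⟨⟨v, hvi⟩, Subtype.ext hv, ?_⟩
      rwa [ra3_ext_ne hvi] at hz
    · obtain ⟨v, hv, hz⟩ := h1 i
      rcases H.only v hv with rfl | rfl
      · left
        rwa [ra3_ext_x H.hx] at hz
      · right
        rwa [ra3_ext_y H.hy H.hxy] at hz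
    · rw [← hval j1 (Or.inl rfl)]
      exact h2 j1
    · rw [← hval j2 (Or.inr rfl)]
      exact h2 j2
    · intro j hj1 hj2
      rw [← ra3_eval (hf j) H.pure (H.d0 j hj1 hj2) z p q]
      exact h2 j
  · rintro ⟨h1, h2, h3, h4, h5⟩
    refine ⟨?_, ?_⟩
    · intro a
      by_cases ha : a = i
      · rcases h2 with h2 | h2
        · exact ⟨x, by rw [ha]; exact H.hx, by rwa [ra3_ext_x H.hx]⟩
        · exact ⟨y, by rw [ha]; exact H.hy, by rwa [ra3_ext_y H.hy H.hxy]⟩
      · obtain ⟨v, hv, hz⟩ := h1 ⟨a, ha⟩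
        refine ⟨v.1, congrArg Subtype.val hv, ?_⟩
        rwa [ra3_ext_ne v.2]
    · intro j
      by_cases hj1 : j = j1
      · rw [hval j (Or.inl hj1), hj1]
        exact h3
      by_cases hj2 : j = j2
      · rw [hval j (Or.inr hj2), hj2]
        exact h4
      · rw [ra3_eval (hf j) H.pure (H.d0 j hj1 hj2) z p q]
        exact h5 j hj1 hj2

omit [Fintype ι] in
theorem ra3_cone'_iff {T : Tower ι V} {δ : κ → ι → ℤ} {f : κ → MvPolynomial V ℂ}
    {i : ι} {x y : V} {j1 j2 : κ}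
    (H : RAHyp T δ i x y j1 j2) (z : {v : V // T.lev v ≠ i} → ℂ) :
    z ∈ Cone (T.del i) (raEq T i x y j1 j2 f) ↔ z ∈ Pt (T.del i) ∧
      (eval (ra3Ext T i x z 0 0) (pderiv x (f j1)) * eval (ra3Ext T i x z 0 0) (pderiv y (f j2)) -
        eval (ra3Ext T i x z 0 0) (pderiv y (f j1)) *
          eval (ra3Ext T i x z 0 0) (pderiv x (f j2)) = 0) ∧
      ∀ j, j ≠ j1 → j ≠ j2 → eval (ra3Ext T i x z 0 0) (f j) = 0 := by
  have hval1 : eval z (raEq T i x y j1 j2 f ⟨j1, H.hj⟩) =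
      eval (ra3Ext T i x z 0 0) (pderiv x (f j1)) * eval (ra3Ext T i x z 0 0) (pderiv y (f j2)) -
        eval (ra3Ext T i x z 0 0) (pderiv y (f j1)) *
          eval (ra3Ext T i x z 0 0) (pderiv x (f j2)) := by
    rw [raEq, if_pos rfl, ra3_del x, map_sub, map_mul, map_mul]
  have hval2 : ∀ (j : κ) (hj1 : j ≠ j1) (hj2 : j ≠ j2),
      eval z (raEq T i x y j1 j2 f ⟨j, hj2⟩) = eval (ra3Ext T i x z 0 0) (f j) := by
    intro j hj1 hj2
    rw [raEq, if_neg hj1, ra3_del x]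
  constructor
  · rintro ⟨h1, h2⟩
    exact ⟨h1, by rw [← hval1]; exact h2 _, fun j hj1 hj2 => by
      rw [← hval2 j hj1 hj2]; exact h2 _⟩
  · rintro ⟨h1, h2, h3⟩
    refine ⟨h1, ?_⟩
    rintro ⟨j, hj⟩
    by_cases hj1 : j = j1
    · subst hj1
      rw [hval1]
      exact h2
    · rw [hval2 j hj1 hj]
      exact h3 j hj1 hj

theorem ra3_lin {a b c d p q p' q' : ℂ} (hn : ¬ (a = 0 ∧ b = 0 ∧ c = 0 ∧ d = 0))
    (h : p ≠ 0 ∨ q ≠ 0) (h1 : p * a + q * b = 0) (h2 : p * c + q * d = 0)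
    (h' : p' ≠ 0 ∨ q' ≠ 0) (h1' : p' * a + q' * b = 0) (h2' : p' * c + q' * d = 0) :
    ∃ u : ℂˣ, p' = u * p ∧ q' = u * q := by
  have hdet : p * q' = q * p' := by
    have e1 : a * (p * q' - q * p') = 0 := by linear_combination q' * h1 - q * h1'
    have e2 : b * (p * q' - q * p') = 0 := by linear_combination -p' * h1 + p * h1'
    have e3 : c * (p * q' - q * p') = 0 := by linear_combination q' * h2 - q * h2'
    have e4 : d * (p * q' - q * p') = 0 := by linear_combination -p' * h2 + p * h2'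
    by_contra hne
    have hne' : p * q' - q * p' ≠ 0 := sub_ne_zero.mpr hne
    exact hn ⟨(mul_eq_zero.mp e1).resolve_right hne', (mul_eq_zero.mp e2).resolve_right hne',
      (mul_eq_zero.mp e3).resolve_right hne', (mul_eq_zero.mp e4).resolve_right hne'⟩
  rcases h with hp | hq
  · have hp' : p' ≠ 0 := by
      rintro rfl
      rw [mul_zero] at hdet
      rcases mul_eq_zero.mp hdet with h0 | h0
      · exact hp h0
      · rcases h' with h' | h'
        · exact h' rfl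
        · exact h' h0
    refine ⟨Units.mk0 (p' / p) (div_ne_zero hp' hp), ?_, ?_⟩
    · rw [Units.val_mk0, div_mul_cancel₀ _ hp]
    · rw [Units.val_mk0]
      field_simp
      linear_combination hdet
  · have hq' : q' ≠ 0 := by
      rintro rfl
      rw [mul_zero] at hdet
      rcases mul_eq_zero.mp hdet.symm with h0 | h0
      · exact hq h0
      · rcases h' with h' | h'
        · exact h' h0
        · exact h' rfl
    refine ⟨Units.mk0 (q' / q) (div_ne_zero hq' hq), ?_, ?_⟩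
    · rw [Units.val_mk0]
      field_simp
      linear_combination -hdet
    · rw [Units.val_mk0, div_mul_cancel₀ _ hq]

theorem ra3_act_single {T : Tower ι V} {δ : κ → ι → ℤ} {i : ι} {x y : V} {j1 j2 : κ}
    (H : RAHyp T δ i x y j1 j2) (z : {v : V // T.lev v ≠ i} → ℂ) (p q : ℂ) (u : ℂˣ) :
    T.act (Pi.mulSingle i u) (ra3Ext T i x z p q) = ra3Ext T i x z (u * p) (u * q) := by
  have hprod : ∀ v, (∏ a, (Pi.mulSingle i u : ι → ℂˣ) a ^ T.w v a) = u ^ T.w v i := by
    intro v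
    rw [Finset.prod_eq_single i]
    · rw [Pi.mulSingle_eq_same]
    · intro a _ ha
      rw [Pi.mulSingle_eq_of_ne ha, one_zpow]
    · intro h
      exact absurd (Finset.mem_univ _) h
  funext v
  rw [Tower.act, hprod]
  by_cases hv : T.lev v = i
  · have h1 : T.w v i = 1 := by
      rw [← hv]
      exact T.w_lev v
    rw [h1, zpow_one]
    rcases H.only v hv with rfl | rfl
    · rw [ra3_ext_x H.hx, ra3_ext_x H.hx]
    · rw [ra3_ext_y H.hy H.hxy, ra3_ext_y H.hy H.hxy]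
  · rw [H.pure v hv, zpow_zero, Units.val_one, one_mul, ra3_ext_ne hv, ra3_ext_ne hv]

theorem ra3_prod {T : Tower ι V} {i : ι} {v : V} (h : T.w v i = 0) (t : ι → ℂˣ) :
    (∏ a : {a : ι // a ≠ i}, t a.1 ^ T.w v a.1) = ∏ a, t a ^ T.w v a := by
  rw [Fintype.prod_eq_mul_prod_subtype_ne (fun a => t a ^ T.w v a) i, h, zpow_zero, one_mul]

theorem ra_homeo {T : Tower ι V} {δ : κ → ι → ℤ} {f : κ → MvPolynomial V ℂ}
    (hf : ∀ j, IsForm T (δ j) (f j)) {i : ι} {x y : V} {j1 j2 : κ}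
    (H : RAHyp T δ i x y j1 j2)
    (nv : ∀ z ∈ Pt T, ¬ (eval z (pderiv x (f j1)) = 0 ∧ eval z (pderiv y (f j1)) = 0 ∧
      eval z (pderiv x (f j2)) = 0 ∧ eval z (pderiv y (f j2)) = 0)) :
    Nonempty (XSpace T f ≃ₜ XSpace (T.del i) (raEq T i x y j1 j2 f)) := by
  classical
  -- the coefficients
  set A : ({v : V // T.lev v ≠ i} → ℂ) → ℂ :=
    fun z => eval (ra3Ext T i x z 0 0) (pderiv x (f j1)) with hA
  set B : ({v : V // T.lev v ≠ i} → ℂ) → ℂ :=
    fun z => eval (ra3Ext T i x z 0 0) (pderiv y (f j1)) with hB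
  set C' : ({v : V // T.lev v ≠ i} → ℂ) → ℂ :=
    fun z => eval (ra3Ext T i x z 0 0) (pderiv x (f j2)) with hC
  set D : ({v : V // T.lev v ≠ i} → ℂ) → ℂ :=
    fun z => eval (ra3Ext T i x z 0 0) (pderiv y (f j2)) with hD
  have hext : ∀ (p q : ({v : V // T.lev v ≠ i} → ℂ) → ℂ), Continuous p → Continuous q →
      Continuous fun z => ra3Ext T i x z (p z) (q z) := by
    intro p q hp hq
    refine continuous_pi fun v => ?_
    by_cases h : T.lev v ≠ i
    · simp only [ra3_ext_ne h]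
      exact continuous_apply _
    · have hv : T.lev v = i := not_not.mp h
      rcases H.only v hv with rfl | rfl
      · simp only [ra3_ext_x H.hx]
        exact hp
      · simp only [ra3_ext_y H.hy H.hxy]
        exact hq
  have hext0 := hext (fun _ => 0) (fun _ => 0) continuous_const continuous_const
  have cA : Continuous A := (MvPolynomial.continuous_eval _).comp hext0
  have cB : Continuous B := (MvPolynomial.continuous_eval _).comp hext0
  have cC : Continuous C' := (MvPolynomial.continuous_eval _).comp hext0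
  have cD : Continuous D := (MvPolynomial.continuous_eval _).comp hext0
  have hnv : ∀ z ∈ Pt (T.del i), ¬ (A z = 0 ∧ B z = 0 ∧ C' z = 0 ∧ D z = 0) := by
    intro z hz hcon
    have hpt : ra3Ext T i x z 1 0 ∈ Pt T := by
      intro a
      by_cases ha : a = i
      · exact ⟨x, by rw [ha]; exact H.hx, by rw [ra3_ext_x H.hx]; exact one_ne_zero⟩
      · obtain ⟨v, hv, hz'⟩ := hz ⟨a, ha⟩
        refine ⟨v.1, congrArg Subtype.val hv, ?_⟩
        rwa [ra3_ext_ne v.2]
    obtain ⟨-, a1, a2⟩ := ra_coeff H hf j1 (Or.inl rfl)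
    obtain ⟨-, b1, b2⟩ := ra_coeff H hf j2 (Or.inr rfl)
    refine nv _ hpt ⟨?_, ?_, ?_, ?_⟩
    · rw [ra3_eval ((hf j1).pderiv x) H.pure a1]; exact hcon.1
    · rw [ra3_eval ((hf j1).pderiv y) H.pure a2]; exact hcon.2.1
    · rw [ra3_eval ((hf j2).pderiv x) H.pure b1]; exact hcon.2.2.1
    · rw [ra3_eval ((hf j2).pderiv y) H.pure b2]; exact hcon.2.2.2
  have hcone : ∀ (z : {v : V // T.lev v ≠ i} → ℂ) (p q : ℂ),
      ra3Ext T i x z p q ∈ Cone T f ↔ z ∈ Pt (T.del i) ∧ (p ≠ 0 ∨ q ≠ 0) ∧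
      (p * A z + q * B z = 0) ∧ (p * C' z + q * D z = 0) ∧
      ∀ j, j ≠ j1 → j ≠ j2 → eval (ra3Ext T i x z 0 0) (f j) = 0 := ra3_cone_iff hf H
  have hcone' : ∀ z : {v : V // T.lev v ≠ i} → ℂ,
      z ∈ Cone (T.del i) (raEq T i x y j1 j2 f) ↔ z ∈ Pt (T.del i) ∧
      (A z * D z - B z * C' z = 0) ∧
      ∀ j, j ≠ j1 → j ≠ j2 → eval (ra3Ext T i x z 0 0) (f j) = 0 := ra3_cone'_iff H
  -- vectors are extensions of their restrictions
  have hres : ∀ z : V → ℂ, ra3Ext T i x (fun v => z v.1) (z x) (z y) = z := by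
    intro z
    funext v
    by_cases h : T.lev v ≠ i
    · rw [ra3_ext_ne h]
    · have hv : T.lev v = i := not_not.mp h
      rcases H.only v hv with rfl | rfl
      · rw [ra3_ext_x H.hx]
      · rw [ra3_ext_y H.hy H.hxy]
  -- the map F
  have hF0 : ∀ z : Cone T f, (fun v : {v : V // T.lev v ≠ i} => z.1 v.1) ∈
      Cone (T.del i) (raEq T i x y j1 j2 f) := by
    intro z
    have hz := z.2
    rw [← hres z.1, hcone] at hz
    obtain ⟨h1, h2, h3, h4, h5⟩ := hz
    rw [hcone']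
    refine ⟨h1, ?_, h5⟩
    rcases h2 with h2 | h2
    · refine (mul_eq_zero.mp ?_).resolve_left h2
      linear_combination D (fun v => z.1 v.1) * h3 - B (fun v => z.1 v.1) * h4
    · refine (mul_eq_zero.mp ?_).resolve_left h2
      linear_combination A (fun v => z.1 v.1) * h4 - C' (fun v => z.1 v.1) * h3
  set F : Cone T f → Cone (T.del i) (raEq T i x y j1 j2 f) := fun z => ⟨_, hF0 z⟩ with hFdef
  have hFc : Continuous F := by
    refine Continuous.subtype_mk ?_ _
    exact continuous_pi fun v => (continuous_apply v.1).comp continuous_subtype_val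
  -- the inverse
  have hex : ∀ z : Cone (T.del i) (raEq T i x y j1 j2 f), ∃ pq : ℂ × ℂ,
      ra3Ext T i x z.1 pq.1 pq.2 ∈ Cone T f := by
    intro z
    obtain ⟨h1, h2, h3⟩ := (hcone' z.1).mp z.2
    by_cases hab : A z.1 = 0 ∧ B z.1 = 0
    · refine ⟨(-D z.1, C' z.1), (hcone _ _ _).mpr ⟨h1, ?_, ?_, ?_, h3⟩⟩
      · by_contra hcon
        push Not at hcon
        exact hnv z.1 h1 ⟨hab.1, hab.2, hcon.2, neg_eq_zero.mp hcon.1⟩
      · linear_combination -h2
      · ring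
    · refine ⟨(-B z.1, A z.1), (hcone _ _ _).mpr ⟨h1, ?_, ?_, ?_, h3⟩⟩
      · by_contra hcon
        push Not at hcon
        exact hab ⟨hcon.2, neg_eq_zero.mp hcon.1⟩
      · ring
      · linear_combination h2
  choose g hg using hex
  set G : Cone (T.del i) (raEq T i x y j1 j2 f) → Quot (SameOrbit T f) :=
    fun z => Quot.mk _ ⟨_, hg z⟩ with hGdef
  have hG : ∀ (z : Cone (T.del i) (raEq T i x y j1 j2 f)) (p q : ℂ)
      (h : ra3Ext T i x z.1 p q ∈ Cone T f), G z = Quot.mk _ ⟨_, h⟩ := by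
    intro z p q h
    obtain ⟨h1, h2, h3, h4, -⟩ := (hcone _ _ _).mp (hg z)
    obtain ⟨-, h2', h3', h4', -⟩ := (hcone _ _ _).mp h
    obtain ⟨u, hu1, hu2⟩ := ra3_lin (hnv z.1 h1) h2 h3 h4 h2' h3' h4'
    refine Quot.sound ⟨Pi.mulSingle i u, ?_⟩
    rw [ra3_act_single H, ← hu1, ← hu2]
  have hGc : Continuous G := by
    have hU : ∀ (p q : ({v : V // T.lev v ≠ i} → ℂ) → ℂ), Continuous p → Continuous q →
        (∀ z : Cone (T.del i) (raEq T i x y j1 j2 f), (p z.1 ≠ 0 ∨ q z.1 ≠ 0) →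
          ra3Ext T i x z.1 (p z.1) (q z.1) ∈ Cone T f) →
        ∀ z : Cone (T.del i) (raEq T i x y j1 j2 f), (p z.1 ≠ 0 ∨ q z.1 ≠ 0) →
          ContinuousAt G z := by
      intro p q hp hq hpq z hz
      set U : Set (Cone (T.del i) (raEq T i x y j1 j2 f)) := {z | p z.1 ≠ 0 ∨ q z.1 ≠ 0} with hUdef
      have hUo : IsOpen U := by
        have h1 : IsOpen {z : Cone (T.del i) (raEq T i x y j1 j2 f) | p z.1 ≠ 0} :=
          isOpen_ne_fun (hp.comp continuous_subtype_val) continuous_const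
        have h2 : IsOpen {z : Cone (T.del i) (raEq T i x y j1 j2 f) | q z.1 ≠ 0} :=
          isOpen_ne_fun (hq.comp continuous_subtype_val) continuous_const
        exact h1.union h2
      have hon : ContinuousOn G U := by
        rw [continuousOn_iff_continuous_domRestrict]
        have heq : U.domRestrict G = fun z => Quot.mk _ ⟨_, hpq z.1 z.2⟩ := by
          funext z
          exact hG z.1 _ _ (hpq z.1 z.2)
        rw [heq]
        refine continuous_quot_mk.comp ?_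
        refine Continuous.subtype_mk ?_ _
        exact (hext p q hp hq).comp (continuous_subtype_val.comp continuous_subtype_val)
      exact hon.continuousAt (hUo.mem_nhds hz)
    rw [continuous_iff_continuousAt]
    intro z
    obtain ⟨h1, h2, h3⟩ := (hcone' z.1).mp z.2
    by_cases hab : A z.1 = 0 ∧ B z.1 = 0
    · refine hU (fun z => -D z) C' cD.neg cC ?_ z ?_
      · intro w hw
        obtain ⟨h1, h2, h3⟩ := (hcone' w.1).mp w.2
        exact (hcone _ _ _).mpr ⟨h1, hw, by linear_combination -h2, by ring, h3⟩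
      · by_contra hcon
        push Not at hcon
        exact hnv z.1 h1 ⟨hab.1, hab.2, hcon.2, neg_eq_zero.mp hcon.1⟩
    · refine hU (fun z => -B z) A cB.neg cA ?_ z ?_
      · intro w hw
        obtain ⟨h1, h2, h3⟩ := (hcone' w.1).mp w.2
        exact (hcone _ _ _).mpr ⟨h1, hw, by ring, by linear_combination h2, h3⟩
      · by_contra hcon
        push Not at hcon
        exact hab ⟨hcon.2, neg_eq_zero.mp hcon.1⟩
  have hFr : ∀ a b : Cone T f, SameOrbit T f a b →
      SameOrbit (T.del i) (raEq T i x y j1 j2 f) (F a) (F b) := by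
    rintro a b ⟨t, ht⟩
    refine ⟨fun c => t c.1, ?_⟩
    funext v
    change b.1 v.1 = ((∏ c : {c : ι // c ≠ i}, t c.1 ^ T.w v.1 c.1 : ℂˣ) : ℂ) * a.1 v.1
    rw [ra3_prod (H.pure v.1 v.2), ht]
    rfl
  refine quot_homeo3 F G hFc hGc hFr ?_ ?_ ?_
  · rintro a b ⟨t, ht⟩
    set t' : ι → ℂˣ := fun c => if h : c ≠ i then t ⟨c, h⟩ else 1 with ht'
    have hact : T.act t' (ra3Ext T i x a.1 (g a).1 (g a).2) ∈ Cone T f := by
      refine ⟨(act_pt T t' _).mpr (hg a).1, fun j => ?_⟩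
      rw [(hf j).eval_act, (hg a).2 j, mul_zero]
    have heq : (fun v : {v : V // T.lev v ≠ i} =>
        T.act t' (ra3Ext T i x a.1 (g a).1 (g a).2) v.1) = b.1 := by
      funext v
      rw [ht]
      change ((∏ c, t' c ^ T.w v.1 c : ℂˣ) : ℂ) * ra3Ext T i x a.1 (g a).1 (g a).2 v.1 =
        ((∏ c : {c : ι // c ≠ i}, t c ^ T.w v.1 c.1 : ℂˣ) : ℂ) * a.1 v
      rw [ra3_ext_ne v.2, ← ra3_prod (H.pure v.1 v.2)]
      congr 3
      funext c
      simp only [ht', dif_pos c.2]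
    have hmem := hact
    rw [← hres (T.act t' (ra3Ext T i x a.1 (g a).1 (g a).2)), heq] at hmem
    rw [hG b _ _ hmem]
    refine Quot.sound ⟨t', ?_⟩
    change ra3Ext T i x b.1 _ _ = _
    rw [← heq, hres]
  · intro z
    have hmem : ra3Ext T i x (F z).1 (z.1 x) (z.1 y) ∈ Cone T f := by
      change ra3Ext T i x (fun v => z.1 v.1) (z.1 x) (z.1 y) ∈ Cone T f
      rw [hres]
      exact z.2
    rw [hG (F z) _ _ hmem]
    congr 1
    apply Subtype.ext
    exact hres z.1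
  · intro z
    change Quot.mk _ (F ⟨_, hg z⟩) = Quot.mk _ z
    congr 1
    apply Subtype.ext
    funext v
    exact ra3_ext_ne v.2

end Pool.Agent.TOW
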