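import Mathlib
import Pool.Agent.Helper85.TOW.Ra2
import Pool.Agent.Helper85.TOW.Ra3
import Pool.Agent.Helper85.TOW.Nef
import Pool.Agent.Helper85.TOW.Same

/-!
# TOW RA: determinantal contraction of a level
-/

set_option autoImplicit false

namespace Pool.Agent.TOW

open MvPolynomial

variable {ι V κ : Type} [LinearOrder ι] [Fintype ι] [Fintype V] [Fintype κ]

theorem ra_card_ne {α : Type} [Fintype α] [DecidableEq α] (a : α) :
    Fintype.card {b : α // b ≠ a} + 1 = Fintype.card α := by
  have h := Fintype.card_subtype_compl (fun b : α => b = a)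
  have h1 : Fintype.card {b : α // b = a} = 1 := Fintype.card_subtype_eq a
  have h2 : 0 < Fintype.card α := Fintype.card_pos_iff.2 ⟨a⟩
  rw [h1] at h
  have h3 : Fintype.card {b : α // b ≠ a} = Fintype.card {b : α // ¬ b = a} := rfl
  omega

omit [Fintype ι] [Fintype κ] in
theorem ra_sum {T : Tower ι V} {δ : κ → ι → ℤ} {i : ι} {x y : V} {j1 j2 : κ}
    (H : RAHyp T δ i x y j1 j2) {M : Type} [AddCommMonoid M] (F : V → M) :
    ∑ v, F v = F x + F y + ∑ v : {v : V // T.lev v ≠ i}, F v := by
  classical
  have h1 := Fintype.sum_subtype_add_sum_subtype (fun v => T.lev v = i) F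
  rw [← h1]
  congr 1
  have h2 : ∑ v : {v : V // T.lev v = i}, F v =
      ∑ v ∈ Finset.univ.filter (fun v => T.lev v = i), F v :=
    (Finset.sum_subtype _ (by simp) F).symm
  have h3 : (Finset.univ.filter fun v => T.lev v = i) = {x, y} := by
    ext v
    simp only [Finset.mem_filter, Finset.mem_univ, true_and, Finset.mem_insert,
      Finset.mem_singleton]
    constructor
    · exact H.only v
    · rintro (rfl | rfl)
      · exact H.hx
      · exact H.hy
  rw [h2, h3, Finset.sum_pair H.hxy]

theorem ra {T : Tower ι V} (hT : T.IsNorm) {n : ℕ} {δ : κ → ι → ℤ} {f : κ → MvPolynomial V ℂ}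
    (h : IsVar T n δ f) {i : ι} {x y : V} {j1 j2 : κ} (H : RAHyp T δ i x y j1 j2)
    (nv : ∀ z ∈ Pt T, ¬ (eval z (pderiv x (f j1)) = 0 ∧ eval z (pderiv y (f j1)) = 0 ∧
      eval z (pderiv x (f j2)) = 0 ∧ eval z (pderiv y (f j2)) = 0))
    (X : Type) [TopologicalSpace X] (hX : Nonempty (X ≃ₜ XSpace T f)) :
    ∃ N < Fintype.card V, Real n N X := by
  classical
  obtain ⟨e⟩ := hX
  obtain ⟨e'⟩ := ra_homeo h.form H nv
  have hT' : (T.del i).IsNorm := by
    refine ⟨fun v b hb => hT.nonpos v b hb, fun a b hab => ?_⟩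
    obtain ⟨v, h1, h2⟩ := hT.ex a b hab
    exact ⟨⟨v, by rw [h1]; exact a.2⟩, Subtype.ext h1, h2⟩
  have hV : Fintype.card {v : V // T.lev v ≠ i} + 2 = Fintype.card V := by
    have := ra_sum H (fun _ : V => 1)
    simp only [Finset.sum_const, smul_eq_mul, mul_one, Finset.card_univ] at this
    omega
  have hI := ra_card_ne i
  have hK := ra_card_ne j2
  have hd := h.dim
  have hpos : ∀ j b, 0 ≤ δ j b := fun j => (free_iff hT (δ j)).1 (h.free j)
  have hw : ∀ v a, a ≠ T.lev v → T.w v a ≤ 0 := by
    intro v a hav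
    rcases lt_or_gt_of_ne hav with h1 | h1
    · exact hT.nonpos v a h1
    · exact (T.w_gt v a h1).le
  refine ⟨Fintype.card {v : V // T.lev v ≠ i}, by omega, {a : ι // a ≠ i},
    {v : V // T.lev v ≠ i}, {j : κ // j ≠ j2}, inferInstance, inferInstance, inferInstance,
    inferInstance, T.del i, raDeg T i x y j1 j2 δ, raEq T i x y j1 j2 f,
    ⟨?_, fun j => ra_form H h.form j, ra_smooth h.form h.smooth H nv, ?_, ?_, by omega⟩, rfl,
    ⟨e.trans e'⟩⟩
  · intro j
    rw [free_iff hT']
    intro b
    unfold raDeg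
    split_ifs with hj
    · have h1 := hpos j1 b
      have h2 := hpos j2 b
      have h3 := hw x b (by rw [H.hx]; exact b.2)
      have h4 := hw y b (by rw [H.hy]; exact b.2)
      linarith
    · exact hpos j b
  · have := h.conn
    exact e'.surjective.connectedSpace e'.continuous
  · intro a
    have h1 := h.canonical a
    have h2 := ra_sum H (fun v => T.w v a)
    have h3 := Fintype.sum_eq_add_sum_subtype_ne (fun j => δ j a) j2
    have h4 : ∀ j : {j : κ // j ≠ j2}, raDeg T i x y j1 j2 δ j a = δ j a +
        if j = ⟨j1, H.hj⟩ then δ j2 a - T.w x a - T.w y a else 0 := by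
      intro j
      unfold raDeg
      by_cases hj : j.1 = j1
      · have hj' : j = ⟨j1, H.hj⟩ := Subtype.ext hj
        rw [if_pos hj, if_pos hj', hj]
        ring
      · have hj' : j ≠ ⟨j1, H.hj⟩ := fun hh => hj (by rw [hh])
        rw [if_neg hj, if_neg hj']
        ring
    simp_rw [h4]
    rw [Finset.sum_add_distrib, Finset.sum_ite_eq']
    simp only [Finset.mem_univ, if_true]
    have h5 : ∑ v : {v : V // T.lev v ≠ i}, (T.del i).w v a =
        ∑ v : {v : V // T.lev v ≠ i}, T.w v a := rfl
    rw [h5]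
    linarith

/-- Forms of the degree of a pencil are linear. -/
theorem ra_linear {T : Tower ι V} {b : ι} {u u' : V} (P : Pencil T b u u')
    {g : MvPolynomial V ℂ} (hg : IsForm T (T.w u) g) :
    ∃ α α' : ℂ, g = C α * X u + C α' * X u' := by
  classical
  have hww : T.w u' = T.w u := by
    funext a
    by_cases hab : a = b
    · have h1 := T.w_lev u
      have h2 := T.w_lev u'
      rw [P.hu] at h1
      rw [P.hu'] at h2
      rw [hab, h1, h2]
    · rw [P.wu a hab, P.wu' a hab]
  refine ⟨coeff (Finsupp.single u 1) g, coeff (Finsupp.single u' 1) g, ?_⟩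
  have key : ∀ m ∈ g.support, m = Finsupp.single u 1 ∨ m = Finsupp.single u' 1 := by
    intro m hm
    have h1 := hg m hm
    obtain ⟨h2, h3⟩ := mon_top T m (T.w u) h1 b (fun a ha => P.wu a ha.ne')
    have h4 : (Finset.univ.filter fun v => T.lev v = b) = {u, u'} := by
      ext v
      simp only [Finset.mem_filter, Finset.mem_univ, true_and, Finset.mem_insert,
        Finset.mem_singleton]
      constructor
      · exact P.only v
      · rintro (rfl | rfl)
        · exact P.hu
        · exact P.hu'
    have hwb : T.w u b = 1 := by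
      have := T.w_lev u
      rwa [P.hu] at this
    rw [h4, Finset.sum_pair P.ne, hwb] at h3
    have h5 : ∀ v : V, T.w v = T.w u → 1 ≤ m v → m = Finsupp.single v 1 := by
      intro v hv hm1
      have h6 : m - (Finsupp.single v 1 : V →₀ ℕ) = 0 := by
        apply mon_zero T
        intro a
        have h7 : ∀ v', (((m - (Finsupp.single v 1 : V →₀ ℕ)) v' : ℕ) : ℤ) * T.w v' a =
            (m v' : ℤ) * T.w v' a - if v' = v then T.w v a else 0 := by
          intro v'
          rw [Finsupp.tsub_apply]
          by_cases hv' : v' = v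
          · rw [hv', Finsupp.single_eq_same, if_pos rfl]
            push_cast [hm1]
            ring
          · rw [Finsupp.single_eq_of_ne hv', if_neg hv']
            simp
        simp_rw [h7]
        rw [Finset.sum_sub_distrib, h1 a, Finset.sum_ite_eq']
        simp [hv]
      ext v'
      have h7 := DFunLike.congr_fun h6 v'
      rw [Finsupp.tsub_apply, Finsupp.zero_apply] at h7
      by_cases hv' : v' = v
      · subst hv'
        rw [Finsupp.single_eq_same] at h7 ⊢
        omega
      · rw [Finsupp.single_eq_of_ne hv'] at h7 ⊢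
        omega
    rcases Nat.eq_zero_or_pos (m u) with h0 | h0
    · right
      exact h5 u' hww (by omega)
    · left
      exact h5 u rfl h0
  have hne : Finsupp.single u 1 ≠ (Finsupp.single u' 1 : V →₀ ℕ) := by
    intro hh
    rw [Finsupp.single_left_inj one_ne_zero] at hh
    exact P.ne hh
  ext m
  rw [coeff_add, coeff_C_mul, coeff_C_mul, coeff_X, coeff_X]
  by_cases h1 : m = Finsupp.single u 1
  · subst h1
    rw [if_pos rfl, if_neg hne.symm]
    ring
  · by_cases h2 : m = Finsupp.single u' 1
    · subst h2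
      rw [if_pos rfl, if_neg hne]
      ring
    · rw [if_neg (fun hh => h1 hh.symm), if_neg (fun hh => h2 hh.symm)]
      have h3 : m ∉ g.support := fun hm => (key m hm).elim h1 h2
      rw [notMem_support_iff] at h3
      rw [h3]
      ring

theorem ra_pencil {T : Tower ι V} {b : ι} {u u' : V} (P : Pencil T b u u')
    {g g' : MvPolynomial V ℂ} (hg : IsForm T (T.w u) g) (hg' : IsForm T (T.w u) g') :
    ∃ B : Set ℂ, B.Finite ∧ ∀ s ∉ B, ∀ z ∈ Pt T,
      ¬ (eval z (C (1 - s) * g + C s * X u) = 0 ∧ eval z (C (1 - s) * g' + C s * X u') = 0) := by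
  obtain ⟨α, α', rfl⟩ := ra_linear P hg
  obtain ⟨β, β', rfl⟩ := ra_linear P hg'
  let p : Polynomial ℂ := ((1 - Polynomial.X) * Polynomial.C α + Polynomial.X) *
    ((1 - Polynomial.X) * Polynomial.C β' + Polynomial.X) -
    (1 - Polynomial.X) ^ 2 * Polynomial.C (α' * β)
  have hp : p ≠ 0 := by
    intro h0
    have : p.eval 1 = 1 := by simp [p]
    rw [h0] at this
    simp at this
  refine ⟨{s | p.IsRoot s}, Polynomial.finite_setOfPred_isRoot hp, fun s hs z hz => ?_⟩
  rintro ⟨h1, h2⟩
  have hs' : ((1 - s) * α + s) * ((1 - s) * β' + s) - (1 - s) ^ 2 * (α' * β) ≠ 0 := by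
    intro h0
    apply hs
    simp only [p, Set.mem_ofPred_eq, Polynomial.IsRoot.def, Polynomial.eval_sub,
      Polynomial.eval_mul, Polynomial.eval_add, Polynomial.eval_one, Polynomial.eval_X,
      Polynomial.eval_C, Polynomial.eval_pow]
    exact h0
  simp only [map_add, map_mul, eval_C, eval_X] at h1 h2
  have h3 : z u = 0 := by
    apply (mul_eq_zero.1 _).resolve_left hs'
    linear_combination ((1 - s) * β' + s) * h1 - (1 - s) * α' * h2
  have h4 : z u' = 0 := by
    apply (mul_eq_zero.1 _).resolve_left hs'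
    linear_combination ((1 - s) * α + s) * h2 - (1 - s) * β * h1
  obtain ⟨v, hv, hzv⟩ := hz b
  rcases P.only v hv with rfl | rfl
  · exact hzv h3
  · exact hzv h4

theorem step_ra {T : Tower ι V} (hT : T.IsNorm) {n : ℕ} {δ : κ → ι → ℤ}
    {f : κ → MvPolynomial V ℂ} (h : IsVar T n δ f) {i : ι} {x y : V} {j1 j2 : κ}
    (H : RAHyp T δ i x y j1 j2) {b : ι} {u u' : V} (hb : b ≠ i) (P : Pencil T b u u')
    (hc : (δ j1 = T.w x + T.w u ∧ δ j1 = T.w y + T.w u) ∨
      (δ j1 = T.w x + T.w u ∧ δ j2 = T.w x + T.w u))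
    (X : Type) [TopologicalSpace X] (hX : Nonempty (X ≃ₜ XSpace T f)) :
    ∃ N < Fintype.card V, Real n N X := by
  classical
  obtain ⟨e⟩ := hX
  have hww : T.w u' = T.w u := by
    funext a
    by_cases hab : a = b
    · have h1 := T.w_lev u
      have h2 := T.w_lev u'
      rw [P.hu] at h1
      rw [P.hu'] at h2
      rw [hab, h1, h2]
    · rw [P.wu a hab, P.wu' a hab]
  have hxu : x ≠ u := fun hh => hb (by rw [← P.hu, ← hh, H.hx])
  have hxu' : x ≠ u' := fun hh => hb (by rw [← P.hu', ← hh, H.hx])
  have hyu : y ≠ u := fun hh => hb (by rw [← P.hu, ← hh, H.hy])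
  have hyu' : y ≠ u' := fun hh => hb (by rw [← P.hu', ← hh, H.hy])
  have hxy := H.hxy
  rcases hc with ⟨hc1, hc2⟩ | ⟨hc1, hc2⟩
  · have hg : IsForm T (T.w u) (pderiv x (f j1)) := by
      have := (h.form j1).pderiv x
      rwa [hc1, add_sub_cancel_left] at this
    have hg' : IsForm T (T.w u) (pderiv y (f j1)) := by
      have := (h.form j1).pderiv y
      rwa [hc2, add_sub_cancel_left] at this
    obtain ⟨B, hB, hB'⟩ := ra_pencil P hg hg'
    obtain ⟨s, hs, h1, ⟨e1⟩⟩ := pert hT h
      (fun j => if j = j1 then MvPolynomial.X x * MvPolynomial.X u +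
        MvPolynomial.X y * MvPolynomial.X u' else f j) (by
        intro j
        by_cases hj : j = j1
        · subst hj
          rw [if_pos rfl]
          apply IsForm.add
          · rw [hc1]
            exact (isForm_X T x).mul (isForm_X T u)
          · rw [hc2, ← hww]
            exact (isForm_X T y).mul (isForm_X T u')
        · rw [if_neg hj]
          exact h.form j) B hB
    refine ra hT h1 H (fun z hz hh => ?_) X ⟨e.trans e1⟩
    apply hB' s hs z hz
    obtain ⟨h2, h3, -, -⟩ := hh
    constructor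
    · rw [← h2]
      simp [lineEq, pderiv_X, hxy.symm, hxu.symm, hxu'.symm]
    · rw [← h3]
      simp [lineEq, pderiv_X, hxy, hyu.symm, hyu'.symm]
  · have hg : IsForm T (T.w u) (pderiv x (f j1)) := by
      have := (h.form j1).pderiv x
      rwa [hc1, add_sub_cancel_left] at this
    have hg' : IsForm T (T.w u) (pderiv x (f j2)) := by
      have := (h.form j2).pderiv x
      rwa [hc2, add_sub_cancel_left] at this
    obtain ⟨B, hB, hB'⟩ := ra_pencil P hg hg'
    obtain ⟨s, hs, h1, ⟨e1⟩⟩ := pert hT h
      (fun j => if j = j1 then MvPolynomial.X x * MvPolynomial.X u else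
        if j = j2 then MvPolynomial.X x * MvPolynomial.X u' else f j) (by
        intro j
        by_cases hj : j = j1
        · subst hj
          rw [if_pos rfl, hc1]
          exact (isForm_X T x).mul (isForm_X T u)
        · rw [if_neg hj]
          by_cases hj' : j = j2
          · subst hj'
            rw [if_pos rfl, hc2, ← hww]
            exact (isForm_X T x).mul (isForm_X T u')
          · rw [if_neg hj']
            exact h.form j) B hB
    refine ra hT h1 H (fun z hz hh => ?_) X ⟨e.trans e1⟩
    apply hB' s hs z hz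
    obtain ⟨h2, -, h3, -⟩ := hh
    constructor
    · rw [← h2]
      simp [lineEq, pderiv_X, hxu.symm]
    · rw [← h3]
      simp [lineEq, pderiv_X, hxu'.symm, H.hj.symm]

end Pool.Agent.TOW
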