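import Mathlib
import Pool.Agent.Helper85.TOW.Ra
import Pool.Agent.Helper85.TOW.Closed

/-!
# TOW LOCAL: local analysis
-/

set_option autoImplicit false

namespace Pool.Agent.TOW

open MvPolynomial

variable {ι V κ : Type} [LinearOrder ι] [Fintype ι] [Fintype V] [Fintype κ] [DecidableEq κ]

omit [LinearOrder ι] [Fintype ι] [Fintype κ] [DecidableEq κ] in
private lemma local_two {α : Type} [DecidableEq α] (g : V → α) (c : V)
    (h : (Finset.univ.filter fun v => g v = g c).card = 2) :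
    ∃ y, y ≠ c ∧ g y = g c ∧ ∀ v, g v = g c → v = c ∨ v = y := by
  classical
  obtain ⟨a, b, hab, hs⟩ := Finset.card_eq_two.1 h
  have key : ∀ v, g v = g c ↔ v = a ∨ v = b := by
    intro v
    have : v ∈ (Finset.univ.filter fun v => g v = g c) ↔ v = a ∨ v = b := by
      rw [hs]; simp
    simpa using this
  rcases (key c).1 rfl with rfl | rfl
  · exact ⟨b, hab.symm, (key b).2 (Or.inr rfl), fun v hv => (key v).1 hv⟩
  · exact ⟨a, hab, (key a).2 (Or.inl rfl), fun v hv => ((key v).1 hv).symm⟩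

omit [LinearOrder ι] [Fintype ι] [Fintype κ] [DecidableEq κ] in
private lemma local_sum {α : Type} [Fintype α] [DecidableEq α] (F : α → ℤ) {x y : α} (hxy : x ≠ y) :
    ∑ v, F v = F x + F y + ∑ v ∈ Finset.univ.filter (fun v => v ≠ x ∧ v ≠ y), F v := by
  rw [← Finset.sum_filter_add_sum_filter_not Finset.univ (fun v => v ≠ x ∧ v ≠ y), add_comm]
  congr 1
  rw [← Finset.sum_pair hxy]
  refine Finset.sum_congr ?_ fun _ _ => rfl
  ext v
  simp only [ne_eq, not_and, not_not, Finset.mem_filter, Finset.mem_univ, true_and,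
    Finset.mem_insert, Finset.mem_singleton]
  tauto

omit [Fintype ι] [Fintype V] in
private lemma local_le {T : Tower ι V} (hT : T.IsNorm) {v : V} {b : ι} (h : b ≠ T.lev v) :
    T.w v b ≤ 0 := by
  rcases lt_or_gt_of_ne h with h | h
  · exact hT.nonpos v b h
  · exact (T.w_gt v b h).le

/-- The consequences of the canonical class on a level with two coordinates. -/
private lemma local_can {T : Tower ι V} (hT : T.IsNorm) {n : ℕ} {δ : κ → ι → ℤ}
    {f : κ → MvPolynomial V ℂ} (h : IsVar T n δ f) {i : ι} {x y : V} {j1 j2 : κ}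
    (hxy : x ≠ y) (hx : T.lev x = i) (hy : T.lev y = i)
    (only : ∀ v, T.lev v = i → v = x ∨ v = y) (hj : j1 ≠ j2) (h1 : δ j1 i = 1)
    (h2 : δ j2 i = 1) : RAHyp T δ i x y j1 j2 := by
  classical
  have hc := h.canonical i
  rw [local_sum (fun j => δ j i) hj, local_sum (fun v => T.w v i) hxy] at hc
  have hwx : T.w x i = 1 := hx ▸ T.w_lev x
  have hwy : T.w y i = 1 := hy ▸ T.w_lev y
  simp only [h1, h2, hwx, hwy] at hc
  have hpos : ∀ j ∈ Finset.univ.filter (fun j => j ≠ j1 ∧ j ≠ j2), 0 ≤ δ j i := fun j _ =>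
    (free_iff hT _).1 (h.free j) i
  have hneg : ∀ v ∈ Finset.univ.filter (fun v => v ≠ x ∧ v ≠ y), T.w v i ≤ 0 := by
    intro v hv
    simp only [ne_eq, Finset.mem_filter, Finset.mem_univ, true_and] at hv
    refine local_le hT fun h' => ?_
    rcases only v h'.symm with h'' | h''
    · exact hv.1 h''
    · exact hv.2 h''
  have hA := Finset.sum_nonneg hpos
  have hB := Finset.sum_nonpos hneg
  have hA0 : ∑ j ∈ Finset.univ.filter (fun j => j ≠ j1 ∧ j ≠ j2), δ j i = 0 := by omega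
  have hB0 : ∑ v ∈ Finset.univ.filter (fun v => v ≠ x ∧ v ≠ y), T.w v i = 0 := by omega
  rw [Finset.sum_eq_zero_iff_of_nonneg hpos] at hA0
  rw [Finset.sum_eq_zero_iff_of_nonpos hneg] at hB0
  refine ⟨hxy, hx, hy, only, fun v hv => hB0 v ?_, hj, h1, h2, fun j h3 h4 => hA0 j ?_⟩
  · simp only [ne_eq, Finset.mem_filter, Finset.mem_univ, true_and]
    exact ⟨fun h' => hv (h' ▸ hx), fun h' => hv (h' ▸ hy)⟩
  · simp only [ne_eq, Finset.mem_filter, Finset.mem_univ, true_and]
    exact ⟨h3, h4⟩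

omit [Fintype ι] [Fintype V] [Fintype κ] [DecidableEq κ] in
/-- An equation with two coordinates on different levels. -/
private lemma local_pair {T : Tower ι V} (hT : T.IsNorm) {d : ι → ℤ} (hd : ∀ b, 0 ≤ d b)
    {x x' : V} (h1 : d = T.w x + T.w x') (hx' : T.lev x' ≠ T.lev x) :
    (∀ a, a ≠ T.lev x → T.w x a = 0) ∨
      (T.lev x' < T.lev x ∧ ∀ a, d a = if a = T.lev x then 1 else 0) := by
  have hpt : ∀ b, d b = T.w x b + T.w x' b := fun b => by rw [h1]; rfl
  have hoff : ∀ b, b ≠ T.lev x → b ≠ T.lev x' → T.w x b = 0 ∧ T.w x' b = 0 := by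
    intro b hb hb'
    have := hd b
    rw [hpt b] at this
    have h3 := local_le hT hb
    have h4 := local_le hT hb'
    omega
  by_cases h0 : T.w x (T.lev x') = 0
  · left
    intro a ha
    by_cases ha' : a = T.lev x'
    · rw [ha', h0]
    · exact (hoff a ha ha').1
  · right
    have hlt : T.lev x' < T.lev x := by
      rcases lt_or_gt_of_ne hx' with h | h
      · exact h
      · exact absurd (T.w_gt x _ h) h0
    refine ⟨hlt, fun a => ?_⟩
    have h5 := hd (T.lev x')
    rw [hpt, T.w_lev] at h5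
    have h6 := local_le hT hx'
    by_cases ha : a = T.lev x
    · rw [if_pos ha, hpt a, ha, T.w_lev, T.w_gt x' _ hlt]; rfl
    · rw [if_neg ha]
      by_cases ha' : a = T.lev x'
      · rw [hpt a, ha', T.w_lev]; omega
      · rw [hpt a, (hoff a ha ha').1, (hoff a ha ha').2]; rfl

/-- The dichotomy for a level with two coordinates `x`, `y` whose equations have two coordinates
each: either the level is not twisted, or it is a peak. Here `x'` and `y'` are the other
coordinates of the equations of `x` and `y`. -/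
theorem dichotomy {T : Tower ι V} (hT : T.IsNorm) {n : ℕ} {δ : κ → ι → ℤ}
    {f : κ → MvPolynomial V ℂ} (h : IsVar T n δ f) (hred : ∀ j v, δ j ≠ T.w v) {i : ι}
    {x y x' y' : V} {j1 j2 : κ} (hxy : x ≠ y) (hx : T.lev x = i) (hy : T.lev y = i)
    (only : ∀ v, T.lev v = i → v = x ∨ v = y) (hj : j1 ≠ j2) (h1 : δ j1 = T.w x + T.w x')
    (h2 : δ j2 = T.w y + T.w y') (hx' : T.lev x' ≠ i) (hy' : T.lev y' ≠ i) :
    ((∀ a, a ≠ i → T.w x a = 0) ∧ (∀ a, a ≠ i → T.w y a = 0)) ∨
    (T.lev x' < i ∧ T.lev y' < i ∧ δ j1 = δ j2 ∧ (∀ a, T.w x a + T.w x' a = if a = i then 1 else 0)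
      ∧ RAHyp T δ i x y j1 j2) := by
  have hd : ∀ j b, 0 ≤ δ j b := fun j => (free_iff hT _).1 (h.free j)
  have hwx : T.w x i = 1 := hx ▸ T.w_lev x
  have hwy : T.w y i = 1 := hy ▸ T.w_lev y
  have e1 : ∀ {v : V}, T.lev v = i → (∀ a, a ≠ i → T.w v a = 0) →
      ∀ {d : ι → ℤ}, (∀ a, d a = if a = i then 1 else 0) → d = T.w v := by
    intro v hv hva d hda
    funext a
    rw [hda a]
    by_cases ha : a = i
    · rw [if_pos ha, ha, ← hv, T.w_lev]
    · rw [if_neg ha, hva a ha]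
  have hA := local_pair hT (hd j1) h1 (by rw [hx]; exact hx')
  have hB := local_pair hT (hd j2) h2 (by rw [hy]; exact hy')
  rw [hx] at hA
  rw [hy] at hB
  rcases hA with hA | ⟨hA1, hA2⟩
  · rcases hB with hB | ⟨hB1, hB2⟩
    · exact Or.inl ⟨hA, hB⟩
    · exact absurd (e1 hx hA hB2) (hred j2 x)
  · rcases hB with hB | ⟨hB1, hB2⟩
    · exact absurd (e1 hy hB hA2) (hred j1 y)
    · refine Or.inr ⟨hA1, hB1, ?_, ?_, ?_⟩
      · funext a
        rw [hA2, hB2]
      · intro a
        rw [← hA2 a, h1]; rfl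
      · exact local_can hT h hxy hx hy only hj (by rw [hA2, if_pos rfl]) (by rw [hB2, if_pos rfl])

/-- Local analysis near a coordinate `x` around which all levels and all equations have size two. -/
theorem local_step {T : Tower ι V} (hT : T.IsNorm) {n : ℕ} {δ : κ → ι → ℤ}
    {f : κ → MvPolynomial V ℂ} (h : IsVar T n δ f) (β : V → κ)
    (hβ : ∀ j, δ j = ∑ v with β v = j, T.w v) (hred : ∀ j v, δ j ≠ T.w v) (x : V)
    (hx : ∀ a b c : V, (T.lev x = T.lev a ∨ β x = β a) → (T.lev a = T.lev b ∨ β a = β b) →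
      (T.lev b = T.lev c ∨ β b = β c) →
      (Finset.univ.filter fun v => T.lev v = T.lev c).card = 2 ∧
        (Finset.univ.filter fun v => β v = β c).card = 2)
    (X : Type) [TopologicalSpace X] (hX : Nonempty (X ≃ₜ XSpace T f)) :
    ∃ N < Fintype.card V, Real n N X := by
  have hd : ∀ j b, 0 ≤ δ j b := fun j => (free_iff hT _).1 (h.free j)
  -- the level of a coordinate near `x`
  have lv : ∀ a b c : V, (T.lev x = T.lev a ∨ β x = β a) → (T.lev a = T.lev b ∨ β a = β b) →
      (T.lev b = T.lev c ∨ β b = β c) →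
      ∃ y, y ≠ c ∧ T.lev y = T.lev c ∧ ∀ v, T.lev v = T.lev c → v = c ∨ v = y :=
    fun a b c h1 h2 h3 => local_two T.lev c (hx a b c h1 h2 h3).1
  -- the equation of a coordinate near `x`
  have bl : ∀ a b c : V, (T.lev x = T.lev a ∨ β x = β a) → (T.lev a = T.lev b ∨ β a = β b) →
      (T.lev b = T.lev c ∨ β b = β c) →
      ∃ y, y ≠ c ∧ β y = β c ∧ (∀ v, β v = β c → v = c ∨ v = y) ∧
        δ (β c) = T.w c + T.w y := by
    intro a b c h1 h2 h3
    obtain ⟨y, hy1, hy2, hy3⟩ := local_two β c (hx a b c h1 h2 h3).2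
    refine ⟨y, hy1, hy2, hy3, ?_⟩
    classical
    rw [hβ (β c), ← Finset.sum_pair hy1.symm]
    refine Finset.sum_congr ?_ fun _ _ => rfl
    ext v
    simp only [Finset.mem_filter, Finset.mem_univ, true_and, Finset.mem_insert,
      Finset.mem_singleton]
    refine ⟨hy3 v, ?_⟩
    rintro (rfl | rfl)
    · rfl
    · exact hy2
  obtain ⟨y, hyx, hy, only⟩ := lv x x x (Or.inl rfl) (Or.inl rfl) (Or.inl rfl)
  obtain ⟨x', hx'x, hx'β, hx'o, h1⟩ := bl x x x (Or.inl rfl) (Or.inl rfl) (Or.inl rfl)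
  by_cases hβxy : β x = β y
  · -- the equation of `x` lives on the level of `x`
    exfalso
    classical
    have hxy' : x' = y := by
      rcases hx'o y hβxy.symm with h' | h'
      · exact absurd h' hyx
      · exact h'.symm
    subst hxy'
    have hoff : ∀ a, a ≠ T.lev x → T.w x a = 0 ∧ T.w x' a = 0 := by
      intro a ha
      have h3 := local_le hT ha
      have h4 := local_le (v := x') hT (by rw [hy]; exact ha)
      have h5 := hd (β x) a
      rw [h1, Pi.add_apply] at h5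
      omega
    have hwy : T.w x' (T.lev x) = 1 := by rw [← hy, T.w_lev]
    have hc := h.canonical (T.lev x)
    have hc1 : ∑ v, T.w v (T.lev x) = 2 + ∑ v ∈ Finset.univ.filter (fun v => v ≠ x ∧ v ≠ x'),
        T.w v (T.lev x) := by
      rw [local_sum (fun v => T.w v (T.lev x)) hyx.symm, T.w_lev, hwy]; rfl
    have hc2 : ∑ j, δ j (T.lev x) = 2 + ∑ j ∈ Finset.univ.erase (β x), δ j (T.lev x) := by
      rw [← Finset.add_sum_erase _ _ (Finset.mem_univ (β x)), h1, Pi.add_apply, T.w_lev, hwy]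
      rfl
    have hpos : ∀ j ∈ Finset.univ.erase (β x), 0 ≤ δ j (T.lev x) := fun j _ => hd j _
    have hneg : ∀ v ∈ Finset.univ.filter (fun v => v ≠ x ∧ v ≠ x'), T.w v (T.lev x) ≤ 0 := by
      intro v hv
      simp only [ne_eq, Finset.mem_filter, Finset.mem_univ, true_and] at hv
      refine local_le hT fun h' => ?_
      rcases only v h'.symm with h'' | h''
      · exact hv.1 h''
      · exact hv.2 h''
    have hA := Finset.sum_nonneg hpos
    have hB := Finset.sum_nonpos hneg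
    have hA0 : ∑ j ∈ Finset.univ.erase (β x), δ j (T.lev x) = 0 := by omega
    have hB0 : ∑ v ∈ Finset.univ.filter (fun v => v ≠ x ∧ v ≠ x'), T.w v (T.lev x) = 0 := by
      omega
    rw [Finset.sum_eq_zero_iff_of_nonneg hpos] at hA0
    rw [Finset.sum_eq_zero_iff_of_nonpos hneg] at hB0
    refine not_closed h hyx.symm rfl hy only (fun a ha => (hoff a ha).1)
      (fun a ha => (hoff a ha).2) (fun v hv => hB0 v ?_) h1 (fun j hj => hA0 j ?_)
    · simp only [ne_eq, Finset.mem_filter, Finset.mem_univ, true_and]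
      exact ⟨fun h' => hv (by rw [h']), fun h' => hv (by rw [h', hy])⟩
    · simpa using hj
  · obtain ⟨y', hy'y, hy'β, hy'o, h2⟩ := bl y y y (Or.inl hy.symm) (Or.inl rfl) (Or.inl rfl)
    have hx'l : T.lev x' ≠ T.lev x := by
      intro h'
      rcases only x' h' with h'' | h''
      · exact hx'x h''
      · exact hβxy (by rw [← h'', hx'β])
    have hy'l : T.lev y' ≠ T.lev x := by
      intro h'
      rcases only y' h' with h'' | h''
      · exact hβxy (by rw [← h'', hy'β])
      · exact hy'y h''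
    -- the level of `x'`
    obtain ⟨x₂, hx₂, hx₂l, onlyx⟩ := lv x' x' x' (Or.inr hx'β.symm) (Or.inl rfl) (Or.inl rfl)
    obtain ⟨x₃, hx₃, hx₃β, -, h3⟩ := bl x' x' x₂ (Or.inr hx'β.symm) (Or.inl rfl)
      (Or.inl hx₂l.symm)
    -- the level of `y'`
    obtain ⟨y₂, hy₂, hy₂l, onlyy⟩ := lv y y' y' (Or.inl hy.symm) (Or.inr hy'β.symm) (Or.inl rfl)
    obtain ⟨y₃, hy₃, hy₃β, -, h4⟩ := bl y y' y₂ (Or.inl hy.symm) (Or.inr hy'β.symm)
      (Or.inl hy₂l.symm)
    have hβx₂ : β x' ≠ β x₂ := by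
      intro h'
      rcases hx'o x₂ (by rw [← h', hx'β]) with h'' | h''
      · exact hx'l (by rw [← hx₂l, h''])
      · exact hx₂ h''
    have hβy₂ : β y' ≠ β y₂ := by
      intro h'
      rcases hy'o y₂ (by rw [← h', hy'β]) with h'' | h''
      · exact hy'l (by rw [← hy₂l, h'', hy])
      · exact hy₂ h''
    have hx₃l : T.lev x₃ ≠ T.lev x' := by
      intro h'
      rcases onlyx x₃ h' with h'' | h''
      · exact hβx₂ (by rw [← h'', hx₃β])
      · exact hx₃ h''
    have hy₃l : T.lev y₃ ≠ T.lev y' := by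
      intro h'
      rcases onlyy y₃ h' with h'' | h''
      · exact hβy₂ (by rw [← h'', hy₃β])
      · exact hy₃ h''
    have h1' : δ (β x') = T.w x' + T.w x := by rw [hx'β, h1, add_comm]
    have h2' : δ (β y') = T.w y' + T.w y := by rw [hy'β, h2, add_comm]
    have D := dichotomy hT h hred hyx.symm rfl hy only hβxy h1 h2 hx'l hy'l
    have Dx := dichotomy hT h hred hx₂.symm rfl hx₂l onlyx hβx₂ h1' h3 hx'l.symm hx₃l
    have Dy := dichotomy hT h hred hy₂.symm rfl hy₂l onlyy hβy₂ h2' h4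
      (by rw [hy]; exact hy'l.symm) hy₃l
    rcases D with ⟨Dh1, Dh2⟩ | ⟨D1, D2, D3, D4, D5⟩
    · rcases Dx with ⟨Dx1, Dx2⟩ | ⟨Dx1, Dx2, Dx3, Dx4, Dx5⟩
      · rcases Dy with ⟨Dy1, Dy2⟩ | ⟨Dy1, Dy2, Dy3, Dy4, Dy5⟩
        · -- everything is honest
          have hwy : T.w y (T.lev x) = 1 := by rw [← hy, T.w_lev]
          have H : RAHyp T δ (T.lev x) x y (β x) (β y) := by
            refine local_can hT h hyx.symm rfl hy only hβxy ?_ ?_
            · rw [h1, Pi.add_apply, T.w_lev, Dx1 _ hx'l.symm]; rfl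
            · rw [h2, Pi.add_apply, hwy, Dy1 _ hy'l.symm]; rfl
          refine step_ra hT h H hx'l ⟨hx₂.symm, rfl, hx₂l, onlyx, Dx1, Dx2⟩ (Or.inl ⟨h1, ?_⟩) X hX
          rw [h1]
          congr 1
          funext a
          by_cases ha : a = T.lev x
          · rw [ha, T.w_lev, hwy]
          · rw [Dh1 a ha, Dh2 a ha]
        · exact step_ra hT h Dy5 hy'l.symm ⟨hyx, hy, rfl, fun v hv => (only v hv).symm, Dh2, Dh1⟩
            (Or.inr ⟨h2', by rw [← Dy3, h2']⟩) X hX
      · exact step_ra hT h Dx5 hx'l.symm ⟨hyx.symm, rfl, hy, only, Dh1, Dh2⟩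
          (Or.inr ⟨h1', by rw [← Dx3, h1']⟩) X hX
    · rcases Dx with ⟨Dx1, Dx2⟩ | ⟨Dx1, -⟩
      · exact step_ra hT h D5 hx'l ⟨hx₂.symm, rfl, hx₂l, onlyx, Dx1, Dx2⟩
          (Or.inr ⟨h1, by rw [← D3, h1]⟩) X hX
      · exact absurd (D1.trans Dx1) (lt_irrefl _)

end Pool.Agent.TOW
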