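import Mathlib
import Pool.Agent.Helper85.TOW.Defs2

/-!
# TOW PART: nef partitions
-/

set_option autoImplicit false

namespace Pool.Agent.TOW

open MvPolynomial

variable {ι V κ : Type} [LinearOrder ι]

/-- A function on a finset with prescribed sizes of the fibres. -/
theorem part_fibres {V κ : Type} [Fintype κ] [DecidableEq κ] [DecidableEq V] [Nonempty κ]
    (P : Finset V) (d : κ → ℕ) (hd : ∑ j, d j = P.card) :
    ∃ β : V → κ, ∀ j, (P.filter fun v => β v = j).card = d j := by
  have hcard : Fintype.card {v // v ∈ P} = Fintype.card (Σ j, Fin (d j)) := by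
    rw [Fintype.card_coe, Fintype.card_sigma, ← hd]; simp
  let e : {v // v ∈ P} ≃ Σ j, Fin (d j) := Fintype.equivOfCardEq hcard
  refine ⟨fun v => if h : v ∈ P then (e ⟨v, h⟩).1 else Classical.arbitrary κ, fun j => ?_⟩
  have h1 : (P.filter fun v => (if h : v ∈ P then (e ⟨v, h⟩).1 else Classical.arbitrary κ) = j).card
      = Fintype.card {x : {v // v ∈ P} // (e x).1 = j} := by
    rw [Fintype.card_subtype]
    refine Finset.card_bij' (fun v hv => (⟨v, (Finset.mem_filter.1 hv).1⟩ : {v // v ∈ P}))
      (fun x _ => x.1) ?_ ?_ ?_ ?_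
    · intro v hv
      have h2 := Finset.mem_filter.1 hv
      simp only [Finset.mem_filter, Finset.mem_univ, true_and]
      have h3 := h2.2
      rw [dif_pos h2.1] at h3
      exact h3
    · intro x hx
      simp only [Finset.mem_filter, Finset.mem_univ, true_and] at hx
      rw [Finset.mem_filter]
      refine ⟨x.2, ?_⟩
      rw [dif_pos x.2]
      exact hx
    · intro v hv; rfl
    · intro x hx; rfl
  rw [h1]
  have h2 : Fintype.card {x : {v // v ∈ P} // (e x).1 = j}
      = Fintype.card {y : (Σ j, Fin (d j)) // y.1 = j} :=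
    Fintype.card_congr (e.subtypeEquiv fun x => Iff.rfl)
  rw [h2]
  have h3 : Fintype.card {y : (Σ j, Fin (d j)) // y.1 = j} = Fintype.card (Fin (d j)) :=
    Fintype.card_congr (Equiv.sigmaSubtype j)
  rw [h3, Fintype.card_fin]

theorem part_aux [Fintype V] [Fintype κ] [DecidableEq κ] [Nonempty κ] {T : Tower ι V}
    (hT : T.IsNorm) (L : Finset ι) : ∀ D : κ → ι → ℤ, (∀ j b, 0 ≤ D j b) →
      (∀ b, ∑ j, D j b = ∑ v, if T.lev v ∈ L then T.w v b else 0) →
      ∃ β : V → κ, ∀ j b, D j b = ∑ v, if T.lev v ∈ L ∧ β v = j then T.w v b else 0 := by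
  classical
  induction L using Finset.induction_on_max with
  | empty =>
    intro D hD hs
    refine ⟨fun _ => Classical.arbitrary κ, fun j b => ?_⟩
    have h := hs b
    simp only [Finset.notMem_empty, if_false, Finset.sum_const_zero, false_and] at h ⊢
    exact (Finset.sum_eq_zero_iff_of_nonneg fun j _ => hD j b).1 h j (Finset.mem_univ _)
  | insert a L ha ih =>
    intro D hD hs
    have haL : a ∉ L := fun h => lt_irrefl _ (ha a h)
    set P : Finset V := Finset.univ.filter fun v => T.lev v = a with hP
    -- the coordinate `a`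
    have hsa : ∑ j, D j a = P.card := by
      rw [hs a, hP, Finset.card_filter]
      push_cast
      refine Finset.sum_congr rfl fun v _ => ?_
      by_cases h : T.lev v = a
      · rw [if_pos (by rw [h]; exact Finset.mem_insert_self _ _), if_pos h]
        have := T.w_lev v
        rwa [h] at this
      · rw [if_neg h]
        split_ifs with h'
        · rcases Finset.mem_insert.1 h' with h'' | h''
          · exact absurd h'' h
          · exact T.w_gt v a (ha _ h'')
        · rfl
    have hd : ∑ j, (D j a).toNat = P.card := by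
      have h : ((∑ j, (D j a).toNat : ℕ) : ℤ) = (P.card : ℤ) := by
        push_cast
        rw [← hsa]
        exact Finset.sum_congr rfl fun j _ => Int.toNat_of_nonneg (hD j a)
      exact_mod_cast h
    obtain ⟨β, hβ⟩ := part_fibres P (fun j => (D j a).toNat) hd
    have hβ' : ∀ j, ((P.filter fun v => β v = j).card : ℤ) = D j a := fun j => by
      rw [hβ j]; exact Int.toNat_of_nonneg (hD j a)
    -- the rest
    set W : κ → ι → ℤ := fun j b => ∑ v, if T.lev v = a ∧ β v = j then T.w v b else 0 with hW
    have hWa : ∀ j, W j a = D j a := by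
      intro j
      rw [← hβ' j, hW, hP, Finset.filter_filter, Finset.card_filter]
      push_cast
      refine Finset.sum_congr rfl fun v _ => ?_
      split_ifs with h
      · have := T.w_lev v
        rwa [h.1] at this
      · rfl
    have hWlt : ∀ j b, b ≠ a → W j b ≤ 0 := by
      intro j b hb
      apply Finset.sum_nonpos
      intro v _
      split_ifs with h
      · rcases lt_or_gt_of_ne hb with h1 | h1
        · exact hT.nonpos v b (by rw [h.1]; exact h1)
        · exact (T.w_gt v b (by rw [h.1]; exact h1)).le
      · exact le_rfl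
    have hWs : ∀ b, ∑ j, W j b = ∑ v, if T.lev v = a then T.w v b else 0 := by
      intro b
      simp only [hW]
      rw [Finset.sum_comm]
      refine Finset.sum_congr rfl fun v _ => ?_
      by_cases h : T.lev v = a
      · simp [h]
      · simp [h]
    obtain ⟨β', hβ''⟩ := ih (fun j b => D j b - W j b) (by
      intro j b
      by_cases hb : b = a
      · subst hb; rw [hWa j]; simp
      · have := hWlt j b hb
        have := hD j b
        show 0 ≤ D j b - W j b
        linarith) (by
      intro b
      rw [Finset.sum_sub_distrib, hs b, hWs b, ← Finset.sum_sub_distrib]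
      refine Finset.sum_congr rfl fun v _ => ?_
      by_cases h : T.lev v = a
      · have h1 : T.lev v ∉ L := by rw [h]; exact haL
        rw [if_pos (by rw [h]; exact Finset.mem_insert_self _ _), if_pos h, if_neg h1, sub_self]
      · rw [if_neg h, sub_zero]
        simp [h])
    refine ⟨fun v => if T.lev v = a then β v else β' v, fun j b => ?_⟩
    have h1 := hβ'' j b
    have h2 : D j b = (∑ v, if T.lev v ∈ L ∧ β' v = j then T.w v b else 0) + W j b := by
      rw [← h1]; ring
    rw [h2, hW]
    simp only
    rw [← Finset.sum_add_distrib]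
    refine Finset.sum_congr rfl fun v _ => ?_
    by_cases h : T.lev v = a
    · have h3 : T.lev v ∉ L := by rw [h]; exact haL
      simp [h, haL]
    · simp [h]

theorem exists_partition [Fintype ι] [Fintype V] [Fintype κ] [DecidableEq κ] {T : Tower ι V}
    (hT : T.IsNorm)
    (δ : κ → ι → ℤ) (hδ : ∀ j b, 0 ≤ δ j b) (hc : ∀ a, ∑ j, δ j a = ∑ v, T.w v a) :
    ∃ β : V → κ, ∀ j, δ j = ∑ v with β v = j, T.w v := by
  classical
  rcases isEmpty_or_nonempty κ with hκ | hκ
  · rcases isEmpty_or_nonempty V with hV | hV
    · exact ⟨fun v => (hV.false v).elim, fun j => (hκ.false j).elim⟩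
    · exfalso
      obtain ⟨v0, hv0⟩ := Finite.exists_max T.lev
      have h := hc (T.lev v0)
      rw [Finset.univ_eq_empty, Finset.sum_empty] at h
      have hnn : ∀ v ∈ (Finset.univ : Finset V), 0 ≤ T.w v (T.lev v0) := by
        intro v _
        rcases (hv0 v).lt_or_eq with h1 | h1
        · rw [T.w_gt v _ h1]
        · rw [← h1, T.w_lev]; norm_num
      have h0 := (Finset.sum_eq_zero_iff_of_nonneg hnn).1 h.symm v0 (Finset.mem_univ _)
      rw [T.w_lev] at h0
      exact one_ne_zero h0
  · obtain ⟨β, hβ⟩ := part_aux hT Finset.univ δ hδ (by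
      intro b
      rw [hc b]
      exact Finset.sum_congr rfl fun v _ => by simp)
    refine ⟨β, fun j => ?_⟩
    funext b
    rw [hβ j b, Finset.sum_apply, Finset.sum_filter]
    exact Finset.sum_congr rfl fun v _ => by simp

end Pool.Agent.TOW
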