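import Mathlib
import Pool.Agent.Helper85.TOW.Basic

/-!
# TOW RELAB: relabelling
-/

set_option autoImplicit false

namespace Pool.Agent.TOW

open MvPolynomial

section relabelling

variable {ι V κ ι' V' κ' : Type} [LinearOrder ι] [LinearOrder ι']

/-- The relabelled tower. -/
def relabTower (eι : ι ≃o ι') (eV : V ≃ V') (T : Tower ι V) : Tower ι' V' where
  lev v := eι (T.lev (eV.symm v))
  w v a := T.w (eV.symm v) (eι.symm a)
  surj a := by
    obtain ⟨v, hv⟩ := T.surj (eι.symm a)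
    exact ⟨eV v, by simp [hv]⟩
  w_lev v := by simp [T.w_lev]
  w_gt v a h := T.w_gt _ _ (by
    have := eι.symm.lt_iff_lt.2 h
    simpa using this)

/-- The relabelled equations. -/
noncomputable def relabEq (eV : V ≃ V') (eκ : κ ≃ κ') (f : κ → MvPolynomial V ℂ) (j : κ') :
    MvPolynomial V' ℂ := rename eV (f (eκ.symm j))

/-- The relabelled degrees. -/
def relabDeg (eι : ι ≃o ι') (eκ : κ ≃ κ') (δ : κ → ι → ℤ) (j : κ') (a : ι') : ℤ :=
  δ (eκ.symm j) (eι.symm a)

theorem relab_norm (eι : ι ≃o ι') (eV : V ≃ V') {T : Tower ι V} (hT : T.IsNorm) :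
    (relabTower eι eV T).IsNorm where
  nonpos v b h := hT.nonpos _ _ (by
    have := eι.symm.lt_iff_lt.2 h
    simpa [relabTower] using this)
  ex a b h := by
    obtain ⟨v, h1, h2⟩ := hT.ex (eι.symm a) (eι.symm b) (eι.symm.lt_iff_lt.2 h)
    exact ⟨eV v, by simp [relabTower, h1], by simp [relabTower, h2]⟩

theorem relab_pt (eι : ι ≃o ι') (eV : V ≃ V') (T : Tower ι V) (z : V' → ℂ) :
    z ∈ Pt (relabTower eι eV T) ↔ (fun v => z (eV v)) ∈ Pt T := by
  constructor
  · intro h a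
    obtain ⟨v, h1, h2⟩ := h (eι a)
    refine ⟨eV.symm v, ?_, by simpa using h2⟩
    have := congrArg eι.symm h1
    simpa [relabTower] using this
  · intro h a
    obtain ⟨v, h1, h2⟩ := h (eι.symm a)
    exact ⟨eV v, by simp [relabTower, h1], h2⟩

theorem relab_eval (eV : V ≃ V') (z : V' → ℂ) (g : MvPolynomial V ℂ) :
    eval z (rename eV g) = eval (fun v => z (eV v)) g := by
  rw [eval_rename]
  rfl

theorem relab_form [Fintype V] [Fintype V'] (eι : ι ≃o ι') (eV : V ≃ V') {T : Tower ι V}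
    {δ : ι → ℤ} {g : MvPolynomial V ℂ} (h : IsForm T δ g) :
    IsForm (relabTower eι eV T) (fun a => δ (eι.symm a)) (rename eV g) := by
  classical
  intro m hm a
  rw [support_rename_of_injective eV.injective, Finset.mem_image] at hm
  obtain ⟨m', hm', rfl⟩ := hm
  change _ = δ (eι.symm a)
  rw [← h m' hm' (eι.symm a), ← Equiv.sum_comp eV]
  refine Finset.sum_congr rfl fun v _ => ?_
  rw [Finsupp.mapDomain_apply eV.injective]
  simp [relabTower]

theorem relab_cone (eι : ι ≃o ι') (eV : V ≃ V') (eκ : κ ≃ κ') (T : Tower ι V)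
    (f : κ → MvPolynomial V ℂ) (z : V' → ℂ) :
    z ∈ Cone (relabTower eι eV T) (relabEq eV eκ f) ↔ (fun v => z (eV v)) ∈ Cone T f := by
  constructor
  · rintro ⟨h1, h2⟩
    refine ⟨(relab_pt eι eV T z).1 h1, fun j => ?_⟩
    have := h2 (eκ j)
    rw [relabEq, relab_eval] at this
    simpa using this
  · rintro ⟨h1, h2⟩
    refine ⟨(relab_pt eι eV T z).2 h1, fun j => ?_⟩
    rw [relabEq, relab_eval]
    exact h2 _

theorem relab_cone' (eι : ι ≃o ι') (eV : V ≃ V') (eκ : κ ≃ κ') (T : Tower ι V)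
    (f : κ → MvPolynomial V ℂ) (z : V → ℂ) (hz : z ∈ Cone T f) :
    (fun v => z (eV.symm v)) ∈ Cone (relabTower eι eV T) (relabEq eV eκ f) := by
  rw [relab_cone eι eV eκ T f]
  simpa using hz

theorem relab_act [Fintype ι] [Fintype ι'] (eι : ι ≃o ι') (eV : V ≃ V') (T : Tower ι V)
    (t : ι → ℂˣ) (z : V → ℂ) (v : V') :
    (relabTower eι eV T).act (fun a => t (eι.symm a)) (fun v => z (eV.symm v)) v =
      T.act t z (eV.symm v) := by
  unfold Tower.act
  congr 2
  exact Equiv.prod_comp eι.symm.toEquiv (fun a => t a ^ T.w (eV.symm v) a)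

theorem relab_smooth (eι : ι ≃o ι') (eV : V ≃ V') (eκ : κ ≃ κ') {T : Tower ι V}
    {f : κ → MvPolynomial V ℂ} (h : Smooth T f) :
    Smooth (relabTower eι eV T) (relabEq eV eκ f) := by
  intro z hz
  have h1 := h _ ((relab_cone eι eV eκ T f z).1 hz)
  have h2 := (h1.comp eκ.symm eκ.symm.injective).map'
    (LinearEquiv.funCongrLeft ℂ ℂ eV.symm).toLinearMap (LinearEquiv.ker _)
  have e : (fun j => fun v : V' => eval z (pderiv v (relabEq eV eκ f j))) =
      (LinearEquiv.funCongrLeft ℂ ℂ eV.symm).toLinearMap ∘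
        ((fun j => fun v : V => eval (fun v => z (eV v)) (pderiv v (f j))) ∘ eκ.symm) := by
    funext j v
    obtain ⟨u, rfl⟩ := eV.surjective v
    rw [relabEq, pderiv_rename eV.injective, relab_eval]
    simp [LinearMap.funLeft_apply]
  rw [e]
  exact h2

theorem relab_homeo [Fintype ι] [Fintype ι'] (eι : ι ≃o ι') (eV : V ≃ V') (eκ : κ ≃ κ')
    (T : Tower ι V) (f : κ → MvPolynomial V ℂ) :
    Nonempty (XSpace T f ≃ₜ XSpace (relabTower eι eV T) (relabEq eV eκ f)) := by
  refine quot_homeo2 (fun x => ⟨fun v => x.1 (eV.symm v), relab_cone' eι eV eκ T f x.1 x.2⟩)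
    (fun y => ⟨fun v => y.1 (eV v), (relab_cone eι eV eκ T f y.1).1 y.2⟩) ?_ ?_ ?_ ?_ ?_ ?_
  · have hc : Continuous fun (z : V → ℂ) (v : V') => z (eV.symm v) :=
      continuous_pi fun v => continuous_apply (eV.symm v)
    exact Continuous.subtype_mk (hc.comp continuous_subtype_val) _
  · have hc : Continuous fun (z : V' → ℂ) (v : V) => z (eV v) :=
      continuous_pi fun v => continuous_apply (eV v)
    exact Continuous.subtype_mk (hc.comp continuous_subtype_val) _
  · rintro x y ⟨t, ht⟩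
    refine ⟨fun a => t (eι.symm a), ?_⟩
    funext v
    show y.1 (eV.symm v) = _
    rw [ht]
    exact (relab_act eι eV T t x.1 v).symm
  · rintro x y ⟨t, ht⟩
    refine ⟨fun a => t (eι a), ?_⟩
    funext v
    show y.1 (eV v) = _
    have h1 := congrFun ht (eV v)
    rw [h1]
    have h2 := relab_act eι eV T (fun a => t (eι a)) (fun v => x.1 (eV v)) (eV v)
    simp only [OrderIso.apply_symm_apply, Equiv.apply_symm_apply, Equiv.symm_apply_apply] at h2
    exact h2
  · intro x
    refine ⟨1, ?_⟩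
    rw [act_one]
    funext v
    simp
  · intro y
    refine ⟨1, ?_⟩
    rw [act_one]
    funext v
    simp

end relabelling

theorem relab {ι V κ ι' V' κ' : Type} [LinearOrder ι] [LinearOrder ι'] [Fintype ι] [Fintype V]
    [Fintype κ] [Fintype ι'] [Fintype V'] [Fintype κ'] (eι : ι ≃o ι') (eV : V ≃ V') (eκ : κ ≃ κ')
    {T : Tower ι V} (hT : T.IsNorm) {n : ℕ} {δ : κ → ι → ℤ} {f : κ → MvPolynomial V ℂ}
    (h : IsVar T n δ f) :
    ∃ (T' : Tower ι' V') (δ' : κ' → ι' → ℤ) (f' : κ' → MvPolynomial V' ℂ), T'.IsNorm ∧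
      IsVar T' n δ' f' ∧ Nonempty (XSpace T f ≃ₜ XSpace T' f') := by
  obtain ⟨φ⟩ := relab_homeo eι eV eκ T f
  refine ⟨relabTower eι eV T, relabDeg eι eκ δ, relabEq eV eκ f, relab_norm eι eV hT, ?_, ⟨φ⟩⟩
  refine ⟨fun j z hz => ?_, fun j => relab_form eι eV (h.form _), relab_smooth eι eV eκ h.smooth,
    ?_, fun a => ?_, ?_⟩
  · obtain ⟨g, hg, hg0⟩ := h.free (eκ.symm j) _ ((relab_pt eι eV T z).1 hz)
    refine ⟨rename eV g, relab_form eι eV hg, ?_⟩
    rw [relab_eval]
    exact hg0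
  · have := h.conn
    exact φ.surjective.connectedSpace φ.continuous
  · have h1 := h.canonical (eι.symm a)
    have h2 : ∑ j, relabDeg eι eκ δ j a = ∑ j, δ j (eι.symm a) :=
      Equiv.sum_comp eκ.symm (fun j => δ j (eι.symm a))
    have h3 : ∑ v, (relabTower eι eV T).w v a = ∑ v, T.w v (eι.symm a) :=
      Equiv.sum_comp eV.symm (fun v => T.w v (eι.symm a))
    rw [h2, h3, h1]
  · rw [← Fintype.card_congr eV, ← Fintype.card_congr eι.toEquiv, ← Fintype.card_congr eκ, h.dim]

end Pool.Agent.TOW
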