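import Mathlib
import Pool.Agent.Helper85.TOW.Local
import Pool.Agent.Helper85.TOW.Elim2
import Pool.Agent.Helper85.TOW.Drop
import Pool.Agent.Helper85.TOW.Part
import Pool.Agent.Helper85.TOW.Count
import Pool.Agent.Helper85.TOW.Relab

/-!
# Finiteness of the homeomorphism types
-/

set_option autoImplicit false

namespace Pool.Agent.TOW

open MvPolynomial

theorem Real.congr {n N : ℕ} {X Y : Type} [TopologicalSpace X] [TopologicalSpace Y]
    (e : X ≃ₜ Y) (h : Real n N Y) : Real n N X := by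
  obtain ⟨ι, V, κ, i1, i2, i3, i4, T, δ, f, h1, h2, ⟨e'⟩⟩ := h
  exact ⟨ι, V, κ, i1, i2, i3, i4, T, δ, f, h1, h2, ⟨e.trans e'⟩⟩

/-- A variety with many coordinates can be realised with fewer coordinates. -/
theorem main_step {n N : ℕ} {X : Type} [TopologicalSpace X] (hR : Real n N X)
    (hN : 162 * n < N) : ∃ N' < N, Real n N' X := by
  classical
  obtain ⟨ι, V, κ, _, _, _, _, T0, δ0, f, h0, rfl, ⟨e0⟩⟩ := hR
  obtain ⟨T, δ, hT, h, ⟨e1⟩⟩ := exists_norm h0
  have hX : Nonempty (X ≃ₜ XSpace T f) := ⟨e0.trans e1⟩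
  by_cases hd : ∃ u : V, ∀ v, T.lev v = T.lev u → v = u
  · obtain ⟨u, hu⟩ := hd
    exact step_drop h u hu X hX
  by_cases he : ∃ (j : κ) (v : V), δ j = T.w v
  · obtain ⟨j, v, hj⟩ := he
    exact step_elim hT h j v hj X hX
  have hpos : ∀ j b, 0 ≤ δ j b := fun j => (free_iff hT (δ j)).1 (h.free j)
  obtain ⟨β, hβ⟩ := exists_partition hT δ hpos h.canonical
  have hl : ∀ a, 2 ≤ (Finset.univ.filter fun v => T.lev v = a).card := by
    intro a
    obtain ⟨u, rfl⟩ := T.surj a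
    by_contra hlt
    refine hd ⟨u, fun v hv => ?_⟩
    have h1 : (Finset.univ.filter fun v => T.lev v = T.lev u).card ≤ 1 := by omega
    exact Finset.card_le_one.1 h1 v (by simp [hv]) u (by simp)
  have hb : ∀ j, 2 ≤ (Finset.univ.filter fun v => β v = j).card := by
    intro j
    by_contra hlt
    rcases Nat.lt_or_ge 0 (Finset.univ.filter fun v => β v = j).card with h1 | h1
    · have h2 : (Finset.univ.filter fun v => β v = j).card = 1 := by omega
      obtain ⟨v, hv⟩ := Finset.card_eq_one.1 h2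
      exact he ⟨j, v, by rw [hβ j, hv]; simp⟩
    · have h2 : (Finset.univ.filter fun v => β v = j) = ∅ := by
        rw [← Finset.card_eq_zero]; omega
      exact h.deg_ne_zero j (by rw [hβ j, h2]; simp)
  obtain ⟨x, hx⟩ := count T.lev β hl hb n h.dim hN
  exact local_step hT h β hβ (fun j v hj => he ⟨j, v, hj⟩) x hx X hX

theorem exists_small {n : ℕ} {X : Type} [TopologicalSpace X] : ∀ N, Real n N X →
    ∃ N' ≤ 162 * n, Real n N' X := by
  intro N
  induction N using Nat.strong_induction_on with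
  | _ N ih =>
    intro h
    rcases Nat.lt_or_ge (162 * n) N with h1 | h1
    · obtain ⟨N', h2, h3⟩ := main_step h h1
      exact ih N' h2 h3
    · exact ⟨N, h1, h⟩

/-- The numerical data. -/
structure Data (B : ℕ) where
  ρ : Fin (B + 1)
  c : Fin (B + 1)
  N : Fin (B + 1)
  lev : Fin N → Fin ρ
  w : Fin N → Fin ρ → Finset.Icc (-(B : ℤ)) B
  δ : Fin c → Fin ρ → Finset.Icc (-(B : ℤ)) B

instance (B : ℕ) : Finite (Data B) := by
  let Φ : Data B → Σ (ρ : Fin (B + 1)) (c : Fin (B + 1)) (N : Fin (B + 1)),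
      (Fin N → Fin ρ) × (Fin N → Fin ρ → Finset.Icc (-(B : ℤ)) B) ×
        (Fin c → Fin ρ → Finset.Icc (-(B : ℤ)) B) :=
    fun d => ⟨d.ρ, d.c, d.N, d.lev, d.w, d.δ⟩
  have hΦ : Function.Injective Φ := by
    rintro ⟨ρ, c, N, lev, w, δ⟩ ⟨ρ', c', N', lev', w', δ'⟩ h
    simp only [Φ, Sigma.mk.injEq] at h
    obtain ⟨rfl, h⟩ := h
    simp only [heq_eq_eq, Sigma.mk.injEq] at h
    obtain ⟨rfl, h⟩ := h
    simp only [heq_eq_eq, Sigma.mk.injEq] at h
    obtain ⟨rfl, h⟩ := h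
    simp only [heq_eq_eq, Prod.mk.injEq] at h
    obtain ⟨rfl, rfl, rfl⟩ := h
    rfl
  exact Finite.of_injective Φ hΦ

/-- The space `X` realises the data. -/
def Realises (n : ℕ) {B : ℕ} (d : Data B) (X : Type) [TopologicalSpace X] : Prop :=
  ∃ (T : Tower (Fin d.ρ) (Fin d.N)) (f : Fin d.c → MvPolynomial (Fin d.N) ℂ), T.IsNorm ∧
    T.lev = d.lev ∧ (∀ v b, T.w v b = d.w v b) ∧
    IsVar T n (fun j b => (d.δ j b : ℤ)) f ∧ Nonempty (X ≃ₜ XSpace T f)

theorem Realises.homeo {n B : ℕ} {d : Data B} {X Y : Type} [TopologicalSpace X]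
    [TopologicalSpace Y] (hX : Realises n d X) (hY : Realises n d Y) : Nonempty (X ≃ₜ Y) := by
  obtain ⟨T, f, hT, h1, h2, h3, ⟨e⟩⟩ := hX
  obtain ⟨T', f', hT', h1', h2', h3', ⟨e'⟩⟩ := hY
  have hTT : T = T' := by
    obtain ⟨l, w, _, _, _⟩ := T
    obtain ⟨l', w', _, _, _⟩ := T'
    simp only at h1 h2 h1' h2'
    obtain rfl : l = l' := h1.trans h1'.symm
    obtain rfl : w = w' := by
      funext v b
      rw [h2, h2']
    rfl
  subst hTT
  obtain ⟨e2⟩ := same_type hT _ f f' h3.form h3'.form h3.smooth h3'.smooth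
  exact ⟨(e.trans e2).trans e'.symm⟩

theorem exists_data {n B N : ℕ} (hN : N ≤ B) {X : Type} [TopologicalSpace X] (h : Real n N X) :
    ∃ d : Data B, Realises n d X := by
  classical
  obtain ⟨ι, V, κ, _, _, _, _, T0, δ0, f0, h0, rfl, ⟨e0⟩⟩ := h
  obtain ⟨T1, δ1, hT1, h1, ⟨e1⟩⟩ := exists_norm h0
  obtain ⟨T, δ, f, hT, h2, ⟨e2⟩⟩ := relab (Fintype.orderIsoFinOfCardEq ι rfl).symm
    (Fintype.equivFin V) (Fintype.equivFin κ) hT1 h1
  have hd := h0.dim
  obtain ⟨hw, hδ⟩ := data_bdd hT h2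
  rw [Fintype.card_fin] at hw hδ
  have key : ∀ x : ℤ, |x| ≤ (Fintype.card V : ℤ) → x ∈ Finset.Icc (-(B : ℤ)) B := by
    intro x hx
    rw [abs_le] at hx
    rw [Finset.mem_Icc]
    constructor <;> omega
  exact ⟨⟨⟨Fintype.card ι, by omega⟩, ⟨Fintype.card κ, by omega⟩, ⟨Fintype.card V, by omega⟩,
    T.lev, fun v b => ⟨T.w v b, key _ (hw v b)⟩, fun j b => ⟨δ j b, key _ (hδ j b)⟩⟩,
    T, f, hT, rfl, fun v b => rfl, h2, ⟨(e0.trans e1).trans e2⟩⟩

/-- **Main theorem.** -/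
theorem finite_types (n : ℕ) : ∃ (r : ℕ) (S : Fin r → Type) (_ : ∀ s, TopologicalSpace (S s)),
    ∀ (ι V κ : Type) [LinearOrder ι] [Fintype ι] [Fintype V] [Fintype κ] (T : Tower ι V)
      (δ : κ → ι → ℤ) (f : κ → MvPolynomial V ℂ), IsVar T n δ f →
      ∃ s, Nonempty (XSpace T f ≃ₜ S s) := by
  classical
  let P : Data (162 * n) → Prop := fun d =>
    ∃ (X : Type) (_ : TopologicalSpace X), Realises n d X
  let R : Data (162 * n) → Type := fun d => if h : P d then h.choose else PUnit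
  have hR : ∀ d, P d → ∃ (_ : TopologicalSpace (R d)), Realises n d (R d) := by
    intro d hd
    have h1 : R d = hd.choose := by simp only [R, dif_pos hd]
    rw [h1]
    exact hd.choose_spec
  let top : ∀ d, TopologicalSpace (R d) := fun d =>
    if h : P d then (hR d h).choose else ⊥
  have htop : ∀ d, P d → @Realises n _ d (R d) (top d) := by
    intro d hd
    have h1 : top d = (hR d hd).choose := by simp only [top, dif_pos hd]
    rw [h1]
    exact (hR d hd).choose_spec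
  obtain ⟨r, ⟨e⟩⟩ := Finite.exists_equiv_fin (Data (162 * n))
  refine ⟨r, fun s => R (e.symm s), fun s => top (e.symm s), ?_⟩
  intro ι V κ _ _ _ _ T δ f h
  obtain ⟨N, hN, hreal⟩ := exists_small (n := n) (X := XSpace T f) (Fintype.card V)
    ⟨ι, V, κ, _, _, _, _, T, δ, f, h, rfl, ⟨Homeomorph.refl _⟩⟩
  obtain ⟨d, hd⟩ := exists_data hN hreal
  have hPd : P d := ⟨_, _, hd⟩
  have key : ∀ d' : Data (162 * n), d' = d →
      Nonempty (@Homeomorph (XSpace T f) (R d') _ (top d')) := by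
    rintro _ rfl
    exact @Realises.homeo _ _ _ _ _ _ (top _) hd (htop _ hPd)
  exact ⟨e d, key _ (e.symm_apply_apply d)⟩

end Pool.Agent.TOW
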