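import Pool.Agent.Helper85.TOW.Main

/-!
# MP_3d72f2_ag, partial answer to Q1

For every `n` there are only finitely many homeomorphism types of smooth connected Calabi-Yau
manifolds of dimension `n` which are complete intersections of nef hypersurfaces, of any
codimension, in iterated bundles of projective spaces (generalised Bott towers) of any height.

Definitions: Pool/Agent/Helper85/TOW/Defs.lean (`Tower`, `Pt`, `Tower.act`, `IsForm`, `Free`,
`Cone`, `Smooth`, `SameOrbit`, `XSpace`, `IsVar`).
-/

set_option autoImplicit false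

namespace Pool.Agent.Results.MP_3d72f2_ag.ProjectiveTowers

open Pool.Agent.TOW

theorem result (n : ℕ) : ∃ (r : ℕ) (S : Fin r → Type) (_ : ∀ s, TopologicalSpace (S s)),
    ∀ (a m c : ℕ) (T : Tower (Fin a) (Fin m)) (δ : Fin c → Fin a → ℤ)
      (f : Fin c → MvPolynomial (Fin m) ℂ),
      IsVar T n δ f → ∃ s, Nonempty (XSpace T f ≃ₜ S s) := by
  obtain ⟨r, S, top, h⟩ := finite_types n
  exact ⟨r, S, top, fun a m c T δ f hf => h (Fin a) (Fin m) (Fin c) T δ f hf⟩

end Pool.Agent.Results.MP_3d72f2_ag.ProjectiveTowers
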